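import Pool.Agent.H52.T2.St

/-!
# [H52 T2 ANG] the midpoint, the common point

`mm_add`: `min r (1 - a) = r - max 0 (r - 1 + a)`. `mm_spec`: with `L = max 0 (r - 1 + b)` and `R = min r (1 - a)` we have `0 ≤ L < R`, `R ≤ r`, `R ≤ 1 - a`, `mm = (L + R) / 2`.
`old_eq`: the common point is unique (`hX.lg'`). `old_zero`: `dif_neg`.
-/

set_option autoImplicit false

namespace Pool.Agent.H52.T2

open Pool.Agent.H54.CX Pool.Agent.H98.FJ Pool.Agent.H59.DE

variable {W : Type} {X : Cpx W} {kd : W → ℕ} {m : W → ℕ}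

theorem mm_add (r a b : ℝ) : mm r a b + mm r b a = r := by
  unfold mm
  have h : ∀ t : ℝ, min r (1 - t) = r - max 0 (r - 1 + t) := by
    intro t
    rcases le_total (r - 1 + t) 0 with h | h
    · rw [max_eq_left h, min_eq_left (by linarith)]
      ring
    · rw [max_eq_right h, min_eq_right (by linarith)]
      ring
  rw [h a, h b]
  ring

theorem mm_spec {r a b : ℝ} (hr : 0 < r) (ha : a < 1) (hb : b < 1) (hab : a + b + r < 2) :
    0 < mm r a b ∧ mm r a b < r ∧ mm r a b < 1 - a := by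
  unfold mm
  have h1 : 0 ≤ max 0 (r - 1 + b) := le_max_left _ _
  have h2 : 0 < min r (1 - a) := lt_min hr (by linarith)
  have h3 : min r (1 - a) ≤ r := min_le_left _ _
  have h4 : min r (1 - a) ≤ 1 - a := min_le_right _ _
  have h5 : max 0 (r - 1 + b) < min r (1 - a) :=
    max_lt h2 (lt_min (by linarith) (by linarith))
  refine ⟨by linarith, by linarith, by linarith⟩

theorem old_eq (hX : LX X kd m) {g x e q : W} (h1 : T3 X kd g x q) (h2 : T3 X kd g e q) (h : x ≠ e) (f : W → ℝ) :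
    old X kd m x e f = f q + 1 / m q := by
  unfold old
  have hex : ∃ q, kd q = 2 ∧ X.Edge x q ∧ X.Edge e q :=
    ⟨q, h1.2.2.1, h1.ep, h2.ep⟩
  rw [dif_pos hex]
  have hc := hex.choose_spec
  have hq : q = hex.choose := hX.lg' h1 h2 hc.1 hc.2.1 hc.2.2 h
  rw [← hq]

theorem old_zero {x e : W} (h : ¬ ∃ q, kd q = 2 ∧ X.Edge x q ∧ X.Edge e q) (f : W → ℝ) :
    old X kd m x e f = 0 := by
  unfold old
  rw [dif_neg h]

theorem old_congr {x e : W} {f f' : W → ℝ} (h : ∀ q, f q = f' q) : old X kd m x e f = old X kd m x e f' := by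
  have hf : f = f' := funext h
  rw [hf]

end Pool.Agent.H52.T2
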