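import Pool.Agent.H52.T2.Iv

/-!
# [H52 T2 EX] existence of chamber states

`near_asc`: `InvC σ` at `P = π.lab` (`Val.inv`). NewP: `Val.pp_new`: `π = pc σ P`, `π.gte = σ.lab`, `Ps.ne_gate`: `2 m ≤ j`. Second case: `Ps.uniq`: `dd σ P = j`, the last hyperedge is `e`. Third case: `σ = far π .. ..` is valid, `FarC` gives `m ≤ j`.
`fd_case` (a chamber state `σ` at the point state `π` whose label `c` is `FarC`, the folded hyperedge `fd π e` is valid, `c ∈ e`): `InvC σ` at `P`: NewP contradicts `FarC.1`, the second case `FarC.2`; so `σ = far π α β c`, `e = α.lab` or `e = β.lab` (`hpr_spec`). This `α`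
is `gt σ' e`: `Val.near_gate` gives a position `m - 1` of `σ'.lab`, but all chambers of `e` are far; or `fd π' e`, `π' = π` (`Val.at_fd`). For `β`: `hst σ β.lab = β` since `α.lab ≠ β.lab`.
`at_exists`: if all chambers of `b` at `P` are `FarC`: `fd π b` (`At`: `if_pos`, `m ≥ 1`). Otherwise `c' ∈ b`, `c' = π.gte` or a position `j < m` of `c'`. `c' = π.gte`: `Ps.ce b c` (`c ≠ π.gte` by `FarC`) gives `m ≤ 1`. Position `Ps j f e c'`, `e ≠ b`: `c = c'` contradicts `FarC`; `Ps.step` gives `m ≤ j + 1`, so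
`j = m - 1`; `NearN` gives `σ` with the label `c'`; `near_asc`: `b` is not descending; `gt σ b`, `dd σ P = m - 1`. `e = b`: cases of `Ps j f b c'`: `hy`: `Ps.hy c` gives `m ≤ 1`. `ce`: `Ps.ce b c` gives `m ≤ 1`. `step` from `c''`: `c = c''`: `m ≤ j - 1`, else `Ps.step` from `c''` to `c`: `m ≤ j`.
`far_step`: `at_exists` for `h1 X kd c P`, `h2 X kd c P`. `crs_step`: if `dd σ p + 2 ≤ m p` for all `p ∈ e`: `vst`. Otherwise some `P ∈ e` with `dd σ P + 1 = m P` (`Val.dd_lt` for `gt σ e`). `π = pp σ P` (`Val.pp_val`). `InvC σ` at `P`: second case (`dd = m - 1 ≥ 1`; `dd < m`): `Ps (m - 1) f e₁ σ.lab`, `e₁ ≠ e`. `c` is `FarC`: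
`c ≠ π.gte` by `Ps.pu2_base` (`2 m ≤ m`); `Ps j' f' e' c`: compare with `Ps.step`: `Ps m f e c`: `Ps.pu_ne` or `Ps.pu_eq`. `at_exists` for the other hyperedge `oth X kd c e P`; `far π (gt σ e) β c` or `far π β (gt σ e) c` according to `e = h1 ..` or `e = h2 ..`; the level: `Val.pp_val`: `σ.lev = π.lev + (m - 1)`.
`near_step`: cases of `Ps`. `hy`: `π.gte` has kind 1, so `π = ph (fd π₂ v) P` (cases of `Val π`); `c` is `FarC` for `π₂` (`vfd`), `FarN`: `σ` at `π₂`, `fd_case`, `Val.compat`: `pp σ P = pp (fd π₂ v) P = ph ..`. `ce`: `π.gte` has kind 0, so `π = pc σ₀ P`; `CrsN` for `σ₀`, `e`; `Val.compat`: `pp τ P = pp (gt σ₀ e) P = pp σ₀ P = pc σ₀ P`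
(`Val.pp_new`, NewP from `vpc`). `step`: `NearN` for `c`, `near_asc`, `CrsN`, `Val.compat`.
`all_n`: induction on `n`; for `n = 0` nothing is to prove (`j ≥ 1`, `m ≥ 2`).
`exists_pt`: `c = π.gte`: cases of `Val π` (`pc σ₀ P`: `σ₀`, `Val.pp_new`; `ph`: `π.gte` has kind 1). Otherwise a position `j < m`, or `FarC`. `exists_hyp`: `gt σ e`: `c = σ.lab`: `σ` (`hst_asc`), otherwise `CrsN`; `fd π e`: `FarN`, `fd_case`.
-/

set_option autoImplicit false

namespace Pool.Agent.H52.T2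

open Pool.Agent.H54.CX Pool.Agent.H98.FJ Pool.Agent.H59.DE St

variable {W : Type} {X : Cpx W} {kd : W → ℕ} {m : W → ℕ} {o : W}

/-- there is a chamber state with the label `c` at the point state `π` -/
def Exs (X : Cpx W) (kd m : W → ℕ) (o : W) (π : St W) (c : W) : Prop :=
  ∃ σ : St W, Val X kd m o σ ∧ σ.sk = 0 ∧ σ.lab = c ∧ pp X σ π.lab = π

/-- chambers near the gate -/
def NearN (X : Cpx W) (kd m : W → ℕ) (o : W) (n : ℕ) : Prop := ∀ (π : St W) (j : ℕ) (f e c : W), Val X kd m o π →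
  π.sk = 2 → Ps X kd π.lab π.gte j f e c → j < m π.lab → π.lev m + j ≤ n → Exs X kd m o π c

/-- far chambers -/
def FarN (X : Cpx W) (kd m : W → ℕ) (o : W) (n : ℕ) : Prop := ∀ (π : St W) (c : W), Val X kd m o π →
  π.sk = 2 → kd c = 0 → X.Edge c π.lab → FarC X kd m π.lab π.gte c → π.lev m + m π.lab ≤ n → Exs X kd m o π c

/-- crossing an ascending hyperedge -/
def CrsN (X : Cpx W) (kd m : W → ℕ) (o : W) (n : ℕ) : Prop := ∀ (σ : St W) (e c : W), Val X kd m o σ → σ.sk = 0 →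
  kd e = 1 → X.Edge σ.lab e → ¬ σ.dsc e → kd c = 0 → X.Edge c e → c ≠ σ.lab → σ.lev m + 1 ≤ n →
  ∃ τ : St W, Val X kd m o τ ∧ τ.sk = 0 ∧ τ.lab = c ∧ τ.dsc e ∧ hst τ e = gt σ e

private theorem gt_inv {σ : St W} {e : W} (h : Val X kd m o (gt σ e)) : Val X kd m o σ ∧
    σ.sk = 0 ∧ kd e = 1 ∧ X.Edge σ.lab e ∧ ¬ σ.dsc e := by
  cases h with
  | vgt _ _ a b c d e => exact ⟨a, b, c, d, e⟩

private theorem fd_inv {π : St W} {e : W} (h : Val X kd m o (fd π e)) : Val X kd m o π ∧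
    π.sk = 2 ∧ kd e = 1 ∧ X.Edge e π.lab ∧
    ∀ c, T3 X kd c e π.lab → FarC X kd m π.lab π.gte c := by
  cases h with
  | vfd _ _ a b c d e => exact ⟨a, b, c, d, e⟩

private theorem far_inv {π α β : St W} {c : W} (h : Val X kd m o (far π α β c)) :
    FarC X kd m π.lab π.gte c ∧ At X m π α ∧ At X m π β ∧
    α.lab = Pool.Agent.H52.T2.h1 X kd c π.lab ∧ β.lab = Pool.Agent.H52.T2.h2 X kd c π.lab ∧
    Val X kd m o α ∧ Val X kd m o β ∧ Val X kd m o π ∧ π.sk = 2 ∧ kd c = 0 ∧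
    X.Edge c π.lab := by
  cases h with
  | vfar _ _ _ _ hπ hα hβ hs hc hcπ hF hA hB hαl hβl =>
    exact ⟨hF, hA, hB, hαl, hβl, hα, hβ, hπ, hs, hc, hcπ⟩

theorem near_asc (hX : LX X kd m) {σ π : St W} (h : Val X kd m o σ) (hs : σ.sk = 0) (hπ : Val X kd m o π)
    (hπs : π.sk = 2) (hpp : pp X σ π.lab = π) {j : ℕ} {f e : W} (hP : Ps X kd π.lab π.gte j f e σ.lab)
    (hj : j < m π.lab) : dd X m σ π.lab = j ∧ σ.dsc e ∧ ∀ e', T3 X kd σ.lab e' π.lab → e' ≠ e → ¬ σ.dsc e' := by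
  have hp2 : kd π.lab = 2 := hπ.kd_lab.trans hπs
  have hE : X.Edge σ.lab π.lab := hP.lst.gp
  rcases ((h.inv hX).2 hs).1 π.lab hp2 hE with hn | ⟨f', e', hd, he, hlt, hPs, hasc, -⟩ |
    ⟨hdm, hlab, α, β, hσ⟩
  · have h3 := (h.pp_new hX hs hn).1
    have h4 : π.gte = σ.lab := congrArg St.gte (hpp.symm.trans h3)
    rw [h4] at hP
    have := Ps.ne_gate hX hP
    omega
  · rw [hpp] at hPs
    obtain ⟨h3, h4, h5⟩ := Ps.uniq hX hPs hP (by omega)
    subst h5
    exact ⟨h3, hd, hasc⟩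
  · rw [hpp] at hσ
    have hv : Val X kd m o (far π α β σ.lab) := by
      rw [← hσ]
      exact h
    have := (far_inv hv).1.2 j f e hP
    omega

/-- the folded hyperedge is the only hyperedge state at the point state -/
private theorem at_fold (hX : LX X kd m) {π α : St W} {e : W} (hπ : Val X kd m o (fd π e))
    (hα : Val X kd m o α) (hA : At X m π α) (hl : α.lab = e) : α = fd π e := by
  obtain ⟨hπ1, hπ2, he1, he2, hfar⟩ := fd_inv hπ
  have hp2 : kd π.lab = 2 := hπ1.kd_lab.trans hπ2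
  have hα' := hα
  cases hα with
  | vroot _ => exact absurd hA.1 (by simp [sk])
  | vgt σ a h1 h2 h3 h4 h5 =>
    have hae : a = e := hl
    subst hae
    obtain ⟨f, e₁, hne, hP, -⟩ := Val.near_gate hX hπ1 hπ2 hα' hA he2 ((h1.inv hX).2 h2).1
    have t : T3 X kd σ.lab a π.lab := hX.t3 (h1.kd_lab.trans h2) he1 hp2 h4 he2
    have h6 := (hfar σ.lab t).2 _ _ _ hP
    have h7 := hX.mu _ hp2
    omega
  | vfd π' a h1 h2 h3 h4 h5 =>
    have hae : a = e := hl
    subst hae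
    rw [Val.at_fd hX hα' hp2 hA]
  | vst _ _ _ _ _ _ _ _ => exact absurd hA.1 (by simp [sk])
  | vfar _ _ _ _ _ _ _ _ _ _ _ _ _ _ _ => exact absurd hA.1 (by simp [sk])
  | vpc _ _ _ _ _ _ _ => exact absurd hA.1 (by simp [sk])
  | vph _ _ _ _ _ _ _ => exact absurd hA.1 (by simp [sk])

theorem fd_case (hX : LX X kd m) {σ π : St W} {e : W} (h : Val X kd m o σ) (hs : σ.sk = 0)
    (hπ : Val X kd m o (fd π e)) (hpp : pp X σ π.lab = π) (he : X.Edge σ.lab e) :
    σ.dsc e ∧ hst σ e = fd π e := by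
  obtain ⟨hπ1, hπ2, he1, he2, hfar⟩ := fd_inv hπ
  have hp2 : kd π.lab = 2 := hπ1.kd_lab.trans hπ2
  have t : T3 X kd σ.lab e π.lab := hX.t3 (h.kd_lab.trans hs) he1 hp2 he he2
  have hF := hfar σ.lab t
  rcases ((h.inv hX).2 hs).1 π.lab hp2 t.gp with hn | ⟨f', e', hd, -, hlt, hPs, hasc, -⟩ |
    ⟨hdm, hlab, α, β, hσ⟩
  · have h3 := (h.pp_new hX hs hn).1
    have h4 : π.gte = σ.lab := congrArg St.gte (hpp.symm.trans h3)
    exact absurd h4.symm hF.1
  · rw [hpp] at hPs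
    have := hF.2 _ _ _ hPs
    omega
  · rw [hpp] at hσ
    have hv : Val X kd m o (far π α β σ.lab) := by
      rw [← hσ]
      exact h
    obtain ⟨-, hA, hB, hαl, hβl, hα, hβ, -, -, hc, hcπ⟩ := far_inv hv
    obtain ⟨hne, t1, t2, hall⟩ := hpr_spec hX hc hp2 hcπ
    rcases hall e t with h5 | h5
    · have h6 : α.lab = e := hαl.trans h5.symm
      have h7 := at_fold hX hπ hα hA h6
      rw [hσ]
      refine ⟨Or.inl h6.symm, ?_⟩
      rw [← h7]
      exact if_pos h6.symm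
    · have h6 : β.lab = e := hβl.trans h5.symm
      have h7 := at_fold hX hπ hβ hB h6
      have h8 : e ≠ α.lab := fun h9 => hne (hαl.symm.trans (h9.symm.trans h5))
      rw [hσ]
      refine ⟨Or.inr h6.symm, ?_⟩
      rw [← h7]
      exact (if_neg h8).trans (if_pos h6.symm)

theorem at_exists (hX : LX X kd m) {n : ℕ} (hN : NearN X kd m o n) {π : St W} {c b : W} (hπ : Val X kd m o π)
    (hs : π.sk = 2) (hb : T3 X kd c b π.lab) (hf : FarC X kd m π.lab π.gte c) (hl : π.lev m + m π.lab ≤ n + 1) :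
    ∃ β : St W, Val X kd m o β ∧ At X m π β ∧ β.lab = b := by
  have hp2 : kd π.lab = 2 := hπ.kd_lab.trans hs
  have hm := hX.mu _ hp2
  by_cases hall : ∀ c', T3 X kd c' b π.lab → FarC X kd m π.lab π.gte c'
  · refine ⟨fd π b, Val.vfd π b hπ hs hb.2.1 hb.ep hall, ⟨rfl, if_pos rfl, ?_⟩, rfl⟩
    have h3 : dd X m (fd π b) π.lab = m π.lab - 1 := if_pos rfl
    rw [h3]
    omega
  · push Not at hall
    obtain ⟨c', hc', hnf⟩ := hall
    unfold FarC at hnf
    by_cases hcv : c' = π.gte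
    · subst hcv
      have h3 := hf.2 _ _ _ (Ps.ce b c hc' hb (Ne.symm hf.1))
      omega
    · have hex : ∃ j f e, Ps X kd π.lab π.gte j f e c' ∧ j < m π.lab := by
        by_contra hcon
        push Not at hcon
        exact hnf ⟨hcv, hcon⟩
      obtain ⟨j, f, e, hPs, hj⟩ := hex
      by_cases heb : e = b
      · subst heb
        exfalso
        generalize hv : π.gte = v at *
        cases hPs with
        | hy _ t =>
          have h3 := hf.2 _ _ _ (Ps.hy c hb)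
          omega
        | ce _ _ t1 t2 _ =>
          have h3 := hf.2 _ _ _ (Ps.ce _ c t1 hb (Ne.symm hf.1))
          omega
        | step j' _ e₁ c'' _ _ hq hne t1 t2 hcc =>
          by_cases h3 : c'' = c
          · subst h3
            have h4 := hf.2 _ _ _ hq
            omega
          · have h4 := hf.2 _ _ _ (Ps.step j' f e₁ c'' e c hq hne t1 hb h3)
            omega
      · have hcc : c' ≠ c := by
          intro h3
          subst h3
          have h4 := hf.2 _ _ _ hPs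
          omega
        have h3 := hf.2 _ _ _ (Ps.step j f e c' b c hPs (Ne.symm heb) hc' hb hcc)
        obtain ⟨σ, hσ, hσs, hσl, hσp⟩ := hN π j f e c' hπ hs hPs hj (by omega)
        rw [← hσl] at hPs hc'
        obtain ⟨h4, h5, h6⟩ := near_asc hX hσ hσs hπ hs hσp hPs hj
        have h7 : ¬ σ.dsc b := h6 b hc' (Ne.symm heb)
        refine ⟨gt σ b, Val.vgt σ b hσ hσs hb.2.1 hc'.ge h7, ⟨rfl, hσp, ?_⟩, rfl⟩
        show dd X m σ π.lab + 1 = m π.lab
        omega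

theorem far_step (hX : LX X kd m) {n : ℕ} (hN : NearN X kd m o n) : FarN X kd m o (n + 1) := by
  intro π c hπ hs hc hcP hF hlev
  have hp2 : kd π.lab = 2 := hπ.kd_lab.trans hs
  obtain ⟨hne, t1, t2, hall⟩ := hpr_spec hX hc hp2 hcP
  obtain ⟨α, hα, hA, hαl⟩ := at_exists hX hN hπ hs t1 hF hlev
  obtain ⟨β, hβ, hB, hβl⟩ := at_exists hX hN hπ hs t2 hF hlev
  exact ⟨far π α β c, Val.vfar π α β c hπ hα hβ hs hc hcP hF hA hB hαl hβl, rfl, rfl, if_pos rfl⟩

theorem crs_step (hX : LX X kd m) {n : ℕ} (hN : NearN X kd m o n) : CrsN X kd m o (n + 1) := by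
  intro σ e c h hs he1 he2 he hc hce hne hlev
  by_cases hall : ∀ p, kd p = 2 → X.Edge e p → dd X m σ p + 2 ≤ m p
  · exact ⟨st (gt σ e) c, Val.vst σ e c (Val.vgt σ e h hs he1 he2 he) hc hce hne hall, rfl, rfl,
      rfl, if_pos rfl⟩
  · push Not at hall
    obtain ⟨P, hP2, heP, hlt⟩ := hall
    have hg : Val X kd m o (gt σ e) := Val.vgt σ e h hs he1 he2 he
    have hd1 : dd X m σ P < m P := hg.dd_lt hX rfl hP2 heP
    have hd : dd X m σ P + 1 = m P := by omega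
    have hk : kd σ.lab = 0 := h.kd_lab.trans hs
    have tσ : T3 X kd σ.lab e P := hX.t3 hk he1 hP2 he2 heP
    obtain ⟨π, hπd⟩ : ∃ π, pp X σ P = π := ⟨_, rfl⟩
    have hpv := h.pp_val hX (p := P) (by omega) hP2 tσ.gp
    rw [hπd] at hpv
    obtain ⟨hπ, hπs, hπl, hπlev⟩ := hpv
    subst hπl
    have hm := hX.mu _ hP2
    have tc : T3 X kd c e π.lab := hX.t3 hc he1 hP2 hce heP
    rcases ((h.inv hX).2 hs).1 π.lab hP2 tσ.gp with hn | ⟨f, e₁, hd₁, -, -, hPs, hasc, -⟩ |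
      ⟨hdm, -, -⟩
    · have h3 := (h.pp_new hX hs hn).2
      omega
    · rw [hπd] at hPs
      have hee : e ≠ e₁ := fun h3 => he (h3 ▸ hd₁)
      have hF : FarC X kd m π.lab π.gte c := by
        refine ⟨fun h3 => ?_, fun j' f' e' hj' => ?_⟩
        · rw [h3] at tc
          have := Ps.pu2_base hX hPs hee tσ tc
          omega
        · have h3 := Ps.step _ f e₁ σ.lab e c hPs hee tσ tc (Ne.symm hne)
          by_cases h4 : e = e'
          · subst h4
            rcases Ps.pu_eq hX h3 hj' with ⟨h5, -⟩ | h5 <;> omega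
          · have := (Ps.pu_ne hX h3 hj' h4).1
            omega
      have hA : At X m π (gt σ e) := ⟨rfl, hπd, hd⟩
      obtain ⟨tb, hbe, -, hbu⟩ := oth_spec hX tc
      obtain ⟨β, hβ, hB, hβl⟩ := at_exists hX hN hπ hπs tb hF (by omega)
      obtain ⟨hne12, t1, t2, hall12⟩ := hpr_spec hX hc hP2 tc.gp
      rcases hall12 e tc with h3 | h3
      · have h4 := hbu _ t2 (fun h5 => hne12 (h3.symm.trans h5.symm))
        exact ⟨far π (gt σ e) β c, Val.vfar π (gt σ e) β c hπ hg hβ hπs hc tc.gp hF hA hB h3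
          (hβl.trans h4.symm), rfl, rfl, Or.inl rfl, if_pos rfl⟩
      · have h4 := hbu _ t1 (fun h5 => hne12 (h5.trans h3))
        have h5 : e ≠ β.lab := fun h6 => hbe (hβl.symm.trans h6.symm)
        exact ⟨far π β (gt σ e) c, Val.vfar π β (gt σ e) c hπ hβ hg hπs hc tc.gp hF hB hA
          (hβl.trans h4.symm) h3, rfl, rfl, Or.inr rfl, (if_neg h5).trans (if_pos rfl)⟩
    · omega

/-- the gate of a point state: the cases -/
private theorem pt_cases {π : St W} (hπ : Val X kd m o π) (hs : π.sk = 2) :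
    (∃ σ p, π = pc σ p ∧ Val X kd m o σ ∧ σ.sk = 0 ∧ kd p = 2 ∧ X.Edge σ.lab p ∧
      (∀ e, T3 X kd σ.lab e p → ¬ σ.dsc e)) ∨
    (∃ π₂ a q, π = ph (fd π₂ a) q ∧ Val X kd m o (fd π₂ a) ∧ kd q = 2 ∧ X.Edge a q ∧
      q ≠ π₂.lab) := by
  cases hπ with
  | vroot _ => exact absurd hs (by simp [sk])
  | vgt _ _ _ _ _ _ _ => exact absurd hs (by simp [sk])
  | vfd _ _ _ _ _ _ _ => exact absurd hs (by simp [sk])
  | vst _ _ _ _ _ _ _ _ => exact absurd hs (by simp [sk])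
  | vfar _ _ _ _ _ _ _ _ _ _ _ _ _ _ _ => exact absurd hs (by simp [sk])
  | vpc σ p a b c d e => exact Or.inl ⟨σ, p, rfl, a, b, c, d, e⟩
  | vph π₂ a q b c d e => exact Or.inr ⟨π₂, a, q, rfl, b, c, d, e⟩

private theorem pc_new (hX : LX X kd m) {σ : St W} {p : W} (h : Val X kd m o σ) (hs : σ.sk = 0)
    (hp : kd p = 2) (hasc : ∀ e, T3 X kd σ.lab e p → ¬ σ.dsc e) : pp X σ p = pc σ p := by
  refine (h.pp_new hX hs ?_).1
  intro x hx hxp
  obtain ⟨-, h3, h4⟩ := h.dsc_spec hX hx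
  exact hasc x (hX.t3 (h.kd_lab.trans hs) h3 hp h4 hxp) hx

theorem near_step (hX : LX X kd m) {n : ℕ} (hN : NearN X kd m o n) (hF : FarN X kd m o (n + 1))
    (hC : CrsN X kd m o (n + 1)) : NearN X kd m o (n + 1) := by
  intro π j f e c hπ hs hP hj hl
  have hp2 : kd π.lab = 2 := hπ.kd_lab.trans hs
  rcases pt_cases hπ hs with ⟨σ₀, P, rfl, hσ₀, hσs, -, hE, hasc⟩ | ⟨π₂, a, q, rfl, hfd, -, haq, hne⟩
  · -- the gate is a chamber
    have hk : kd σ₀.lab = 0 := hσ₀.kd_lab.trans hσs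
    have hpl : (pc σ₀ P).lab = P := rfl
    have hpg : (pc σ₀ P).gte = σ₀.lab := rfl
    have hlv : (pc σ₀ P).lev m = σ₀.lev m := rfl
    rw [hpl, hpg] at hP
    rw [hpl] at hj hp2
    rw [hlv] at hl
    cases hP with
    | hy _ t => exact absurd (hk.symm.trans t.2.1) (by norm_num)
    | ce _ _ t1 t2 hvc =>
      obtain ⟨τ, hτ, hτs, hτl, hτd, hτh⟩ := hC σ₀ _ c hσ₀ hσs t1.2.1 t1.ge (hasc _ t1) t2.1
        t2.ge (Ne.symm hvc) (by omega)
      refine ⟨τ, hτ, hτs, hτl, ?_⟩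
      rw [hpl]
      have h3 := (hτ.compat hX hτs t1.2.1 (by rw [hτl]; exact t2.ge) hp2 t2.ep).1
      rw [← h3, hτh]
      exact pc_new hX hσ₀ hσs hp2 hasc
    | step j' _ e₁ c₁ _ _ hq hee t1 t2 hcc =>
      obtain ⟨σ, hσ, hσs', hσl, hσp⟩ := hN (pc σ₀ P) j' f e₁ c₁ hπ hs hq (by rw [hpl]; omega)
        (by rw [hlv]; omega)
      have hq' : Ps X kd (pc σ₀ P).lab (pc σ₀ P).gte j' f e₁ σ.lab := by
        rw [hσl]
        exact hq
      obtain ⟨h4, h5, h6⟩ := near_asc hX hσ hσs' hπ hs hσp hq' (by rw [hpl]; omega)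
      have tσ : T3 X kd σ.lab e P := by
        rw [hσl]
        exact t1
      have h7 : ¬ σ.dsc e := h6 e tσ hee
      have h8 := (hσ.pp_val hX (p := P) (by omega) hp2 tσ.gp).2.2.2
      have h9 : pp X σ P = pc σ₀ P := hσp
      have h10 : dd X m σ P = j' := h4
      rw [h9, hlv, h10] at h8
      obtain ⟨τ, hτ, hτs, hτl, hτd, hτh⟩ := hC σ e c hσ hσs' t1.2.1 tσ.ge h7 t2.1
        t2.ge (by rw [hσl]; exact Ne.symm hcc) (by omega)
      refine ⟨τ, hτ, hτs, hτl, ?_⟩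
      rw [hpl]
      have h3 := (hτ.compat hX hτs t1.2.1 (by rw [hτl]; exact t2.ge) hp2 t2.ep).1
      rw [← h3, hτh]
      exact h9
  · -- the gate is a hyperedge
    obtain ⟨hπ₂, hπ₂s, ha1, ha2, hfar⟩ := fd_inv hfd
    have hp2' : kd π₂.lab = 2 := hπ₂.kd_lab.trans hπ₂s
    have hm' := hX.mu _ hp2'
    have hpl : (ph (fd π₂ a) q).lab = q := rfl
    have hpg : (ph (fd π₂ a) q).gte = a := rfl
    have hlv : (ph (fd π₂ a) q).lev m = π₂.lev m + m π₂.lab - 1 := rfl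
    rw [hpl, hpg] at hP
    rw [hpl] at hj hp2
    rw [hlv] at hl
    cases hP with
    | hy _ t =>
      have tc := hX.t3' t hp2' ha2
      obtain ⟨σ, hσ, hσs, hσl, hσp⟩ := hF π₂ c hπ₂ hπ₂s t.1 tc.gp (hfar c tc) (by omega)
      obtain ⟨h3, h4⟩ := fd_case hX hσ hσs hfd hσp (by rw [hσl]; exact t.ge)
      refine ⟨σ, hσ, hσs, hσl, ?_⟩
      rw [hpl]
      have h5 := (hσ.compat hX hσs ha1 (by rw [hσl]; exact t.ge) hp2 haq).1
      rw [← h5, h4]
      exact if_neg hne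
    | ce _ _ t1 t2 hvc => exact absurd (ha1.symm.trans t1.1) (by norm_num)
    | step j' _ e₁ c₁ _ _ hq hee t1 t2 hcc =>
      obtain ⟨σ, hσ, hσs', hσl, hσp⟩ := hN (ph (fd π₂ a) q) j' f e₁ c₁ hπ hs hq
        (by rw [hpl]; omega) (by rw [hlv]; omega)
      have hq' : Ps X kd (ph (fd π₂ a) q).lab (ph (fd π₂ a) q).gte j' f e₁ σ.lab := by
        rw [hσl]
        exact hq
      obtain ⟨h4, h5, h6⟩ := near_asc hX hσ hσs' hπ hs hσp hq' (by rw [hpl]; omega)
      have tσ : T3 X kd σ.lab e q := by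
        rw [hσl]
        exact t1
      have h7 : ¬ σ.dsc e := h6 e tσ hee
      have h8 := (hσ.pp_val hX (p := q) (by omega) hp2 tσ.gp).2.2.2
      have h9 : pp X σ q = ph (fd π₂ a) q := hσp
      have h10 : dd X m σ q = j' := h4
      rw [h9, hlv, h10] at h8
      obtain ⟨τ, hτ, hτs, hτl, hτd, hτh⟩ := hC σ e c hσ hσs' t1.2.1 tσ.ge h7 t2.1
        t2.ge (by rw [hσl]; exact Ne.symm hcc) (by omega)
      refine ⟨τ, hτ, hτs, hτl, ?_⟩
      rw [hpl]
      have h3 := (hτ.compat hX hτs t1.2.1 (by rw [hτl]; exact t2.ge) hp2 t2.ep).1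
      rw [← h3, hτh]
      exact h9

theorem all_n (hX : LX X kd m) (n : ℕ) : NearN X kd m o n ∧ FarN X kd m o n ∧ CrsN X kd m o n := by
  induction n with
  | zero =>
    refine ⟨?_, ?_, ?_⟩
    · intro π j f e c hπ hs hP hj hl
      have := hP.pos
      omega
    · intro π c hπ hs hc hcP hF hl
      have := hX.mu _ (hπ.kd_lab.trans hs)
      omega
    · intro σ e c h hs he1 he2 he hc hce hne hlev
      omega
  | succ n ih =>
    have h3 := far_step hX ih.1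
    have h4 := crs_step hX ih.1
    exact ⟨near_step hX ih.1 h3 h4, h3, h4⟩

theorem Val.exists_pt (hX : LX X kd m) {π : St W} (h : Val X kd m o π) (hs : π.sk = 2) {c : W} (hc : kd c = 0)
    (h1 : X.Edge c π.lab) : ∃ σ : St W, Val X kd m o σ ∧ σ.sk = 0 ∧ σ.lab = c ∧ pp X σ π.lab = π := by
  by_cases hcg : c = π.gte
  · rcases pt_cases h hs with ⟨σ₀, P, rfl, hσ₀, hσs, hP2, hE, hasc⟩ |
      ⟨π₂, a, q, rfl, hfd, -, haq, hne⟩
    · exact ⟨σ₀, hσ₀, hσs, hcg.symm, pc_new hX hσ₀ hσs hP2 hasc⟩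
    · obtain ⟨-, -, ha1, -, -⟩ := fd_inv hfd
      have h3 : c = a := hcg
      rw [← h3, hc] at ha1
      exact absurd ha1 (by norm_num)
  · by_cases hF : FarC X kd m π.lab π.gte c
    · exact (all_n hX (π.lev m + m π.lab)).2.1 π c h hs hc h1 hF le_rfl
    · have hex : ∃ j f e, Ps X kd π.lab π.gte j f e c ∧ j < m π.lab := by
        by_contra hcon
        push Not at hcon
        exact hF ⟨hcg, hcon⟩
      obtain ⟨j, f, e, hPs, hj⟩ := hex
      exact (all_n hX (π.lev m + j)).1 π j f e c h hs hPs hj le_rfl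

theorem Val.exists_hyp (hX : LX X kd m) {η : St W} (h : Val X kd m o η) (hs : η.sk = 1) {c : W} (hc : kd c = 0)
    (h1 : X.Edge c η.lab) : ∃ σ : St W, Val X kd m o σ ∧ σ.sk = 0 ∧ σ.lab = c ∧ hst σ η.lab = η := by
  have h' := h
  cases h with
  | vroot _ => exact absurd hs (by simp [sk])
  | vgt σ e hσ hσs he1 he2 he =>
    have hce : X.Edge c e := h1
    by_cases hcs : c = σ.lab
    · exact ⟨σ, hσ, hσs, hcs.symm, hst_asc he⟩
    · obtain ⟨τ, hτ, hτs, hτl, -, hτh⟩ := (all_n hX (σ.lev m + 1)).2.2 σ e c hσ hσs he1 he2 he hc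
        hce hcs le_rfl
      exact ⟨τ, hτ, hτs, hτl, hτh⟩
  | vfd π e hπ hπs he1 he2 hfar =>
    have hce : X.Edge c e := h1
    have hp2 : kd π.lab = 2 := hπ.kd_lab.trans hπs
    have tc : T3 X kd c e π.lab := hX.t3 hc he1 hp2 hce he2
    obtain ⟨σ, hσ, hσs, hσl, hσp⟩ := (all_n hX (π.lev m + m π.lab)).2.1 π c hπ hπs hc tc.gp
      (hfar c tc) le_rfl
    exact ⟨σ, hσ, hσs, hσl, (fd_case hX hσ hσs h' hσp (by rw [hσl]; exact hce)).2⟩
  | vst _ _ _ _ _ _ _ _ => exact absurd hs (by simp [sk])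
  | vfar _ _ _ _ _ _ _ _ _ _ _ _ _ _ _ => exact absurd hs (by simp [sk])
  | vpc _ _ _ _ _ _ _ => exact absurd hs (by simp [sk])
  | vph _ _ _ _ _ _ _ => exact absurd hs (by simp [sk])

end Pool.Agent.H52.T2
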