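import Pool.Agent.H52.T2.Uq
import Pool.Agent.H52.T2.Ex
import Pool.Agent.H59.DE.Sec

/-!
# [H52 T2 CV] the valid states form a covering

`sk_eq`: `Val.kd_lab`. `uniq_e`: a chamber `g` of the hyperedge (`hX.cell_of`); `Val.exists_hyp` for both: `σ`, `σ'` with the label `g` and `hst σ e = η`, `hst σ' e = η'`; `Val.compat`: `pp σ p = pp η p = pp η' p = pp σ' p`; `Val.uniq`.
`nx_spec`: `s` over `x`, `x ∼ y`, `kd x < kd y`: `Val.hst_val` if `kd y = 1` (then `kd x = 0`), `Val.pp_val` if `kd y = 2`.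
`cvr`. `tot`: if `kd x < kd y`: `nx s y`. If `kd y < kd x`: `kd x = 1`, `kd y = 0`: `Val.exists_hyp`. `kd x = 2`, `kd y = 0`: `Val.exists_pt`. `kd x = 2`, `kd y = 1`: a chamber `g` of `y` (`hX.cell_of`), `σ` over `g` with `pp σ x = s` (`Val.exists_pt`), `t = hst σ y`
(`Val.hst_val`, `Val.compat`). `det`: if `kd x < kd y` both are `nx s y`; else `kd x = 1`: `Val.uniq_hyp`; `kd x = 2`, `kd y = 0`: `Val.uniq`; `kd x = 2`, `kd y = 1`: `uniq_e`. `back`: `Or.symm`. `tri`: let `g`, `e`, `p` be the chamber, the hyperedge and the point of the triangle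
(`hX.kd_ne`, `hX.kd_le`), `a`, `b`, `c` their states. The three relations are `b = hst a e`, `c = pp a p`, `c = pp b p`. Any two imply the third: `pp (hst a e) p = pp a p` (`Val.compat`), and if `pp a p = c = pp b p` then `hst a e = b` by `uniq_e`.
It is convenient to prove first `tri3`: these three implications, and `rel_iff`: `Rr s t ↔ ..` for the kinds of `s`, `t`.
-/

set_option autoImplicit false

namespace Pool.Agent.H52.T2

open Pool.Agent.H54.CX Pool.Agent.H98.FJ Pool.Agent.H59.DE St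

variable {W : Type} {X : Cpx W} {kd : W → ℕ} {m : W → ℕ} {o : W}

/-- the states over a vertex -/
def Fv (X : Cpx W) (kd m : W → ℕ) (o : W) (x : W) (s : St W) : Prop := Val X kd m o s ∧ s.lab = x

open Classical in
/-- the state of the neighbour `y` of larger kind -/
noncomputable def nx (X : Cpx W) (kd : W → ℕ) (s : St W) (y : W) : St W :=
  if kd y = 1 then hst s y else pp X s y

/-- the transitions -/
def Rv (X : Cpx W) (kd : W → ℕ) (x y : W) (s t : St W) : Prop :=
  (kd x < kd y ∧ t = nx X kd s y) ∨ (kd y < kd x ∧ s = nx X kd t x)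

theorem Fv.sk_eq {x : W} {s : St W} (h : Fv X kd m o x s) : s.sk = kd x := by
  rw [← h.2]
  exact h.1.kd_lab.symm

/-- hyperedge states with the same label and the same point state are equal -/
theorem uniq_e (hX : LX X kd m) {η η' : St W} {e p : W} (h : Val X kd m o η) (h' : Val X kd m o η')
    (hs : η.sk = 1) (hs' : η'.sk = 1) (hl : η.lab = e) (hl' : η'.lab = e) (hp : kd p = 2) (h1 : X.Edge e p)
    (hpp : pp X η p = pp X η' p) : η = η' := by
  have he : kd e = 1 := by rw [← hl, h.kd_lab, hs]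
  obtain ⟨g, hg⟩ := hX.cell_of he hp h1
  obtain ⟨σ, hσ, hσs, hσl, hσh⟩ := h.exists_hyp hX hs hg.1 (by rw [hl]; exact hg.ge)
  obtain ⟨σ', hσ', hσs', hσl', hσh'⟩ := h'.exists_hyp hX hs' hg.1 (by rw [hl']; exact hg.ge)
  rw [hl] at hσh
  rw [hl'] at hσh'
  have c1 := (hσ.compat hX hσs he (by rw [hσl]; exact hg.ge) hp h1).1
  have c2 := (hσ'.compat hX hσs' he (by rw [hσl']; exact hg.ge) hp h1).1
  rw [hσh] at c1
  rw [hσh'] at c2
  have h2 : σ = σ' := hσ.uniq hX hσ' hσs hσs' (hσl.trans hσl'.symm) hp (by rw [hσl]; exact hg.gp)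
    (c1.symm.trans (hpp.trans c2))
  rw [← hσh, ← hσh', h2]

theorem nx_spec (hX : LX X kd m) {x y : W} {s : St W} (h : Fv X kd m o x s) (h1 : X.Edge x y)
    (h2 : kd x < kd y) : Fv X kd m o y (nx X kd s y) := by
  have hy := hX.kd_le y
  have hs := h.sk_eq
  have hE : X.Edge s.lab y := by rw [h.2]; exact h1
  by_cases hy1 : kd y = 1
  · have h3 := h.1.hst_val hX (by omega) hy1 hE
    unfold nx
    rw [if_pos hy1]
    exact ⟨h3.1, h3.2.2⟩
  · have h3 := h.1.pp_val hX (p := y) (by omega) (by omega) hE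
    unfold nx
    rw [if_neg hy1]
    exact ⟨h3.1, h3.2.2.1⟩

private theorem rv_symm {x y : W} {s t : St W} (h : Rv X kd x y s t) : Rv X kd y x t s := Or.symm h

private theorem nx_one {s : St W} {y : W} (h : kd y = 1) : nx X kd s y = hst s y := by
  unfold nx
  rw [if_pos h]

private theorem nx_two {s : St W} {y : W} (h : kd y = 2) : nx X kd s y = pp X s y := by
  unfold nx
  rw [if_neg (by omega)]

private theorem rv_ge {g e : W} {a b : St W} (hg : kd g = 0) (he : kd e = 1) :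
    Rv X kd g e a b ↔ b = hst a e := by
  unfold Rv
  rw [nx_one he]
  constructor
  · rintro (⟨_, h⟩ | ⟨h, _⟩)
    · exact h
    · omega
  · intro h
    exact Or.inl ⟨by omega, h⟩

private theorem rv_p {g p : W} {a c : St W} (hg : kd g < 2) (hp : kd p = 2) :
    Rv X kd g p a c ↔ c = pp X a p := by
  unfold Rv
  rw [nx_two hp]
  constructor
  · rintro (⟨_, h⟩ | ⟨h, _⟩)
    · exact h
    · omega
  · intro h
    exact Or.inl ⟨by omega, h⟩

private theorem tri3 (hX : LX X kd m) {g e p : W} {a b c : St W} (t : T3 X kd g e p)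
    (ha : Fv X kd m o g a) (hb : Fv X kd m o e b) :
    (Rv X kd g e a b → Rv X kd g p a c → Rv X kd e p b c) ∧
    (Rv X kd g e a b → Rv X kd e p b c → Rv X kd g p a c) ∧
    (Rv X kd g p a c → Rv X kd e p b c → Rv X kd g e a b) := by
  obtain ⟨hg, he, hp, _⟩ := id t
  rw [rv_ge hg he, rv_p (by omega) hp, rv_p (by omega) hp]
  have has : a.sk = 0 := by rw [ha.sk_eq, hg]
  have hE : X.Edge a.lab e := by rw [ha.2]; exact t.ge
  have hc := (ha.1.compat hX has he hE hp t.ep).1
  refine ⟨?_, ?_, ?_⟩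
  · rintro rfl h2
    rw [hc]
    exact h2
  · rintro rfl h2
    rw [hc] at h2
    exact h2
  · intro h1 h2
    obtain ⟨v1, v2, v3⟩ := ha.1.hst_val hX has he hE
    refine uniq_e hX hb.1 v1 (by rw [hb.sk_eq, he]) v2 hb.2 v3 hp t.ep ?_
    rw [hc, ← h1, ← h2]

private theorem kd3 (hX : LX X kd m) (x : W) : kd x = 0 ∨ kd x = 1 ∨ kd x = 2 := by
  have := hX.kd_le x
  omega

theorem cvr (hX : LX X kd m) : Cvr X (St W) (Fv X kd m o) (Rv X kd) := by
  refine ⟨?_, ?_, ?_, ?_⟩
  · intro x y s hxy hs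
    have hne := hX.kd_ne x y hxy
    have hyx := X.symm _ _ hxy
    by_cases hlt : kd x < kd y
    · exact ⟨nx X kd s y, nx_spec hX hs hxy hlt, Or.inl ⟨hlt, rfl⟩⟩
    · have hgt : kd y < kd x := by omega
      have hsk := hs.sk_eq
      rcases kd3 hX x with hx | hx | hx
      · omega
      · obtain ⟨σ, h1, h2, h3, h4⟩ := hs.1.exists_hyp hX (by omega) (c := y) (by omega)
          (by rw [hs.2]; exact hyx)
        refine ⟨σ, ⟨h1, h3⟩, Or.inr ⟨hgt, ?_⟩⟩
        rw [nx_one hx, ← hs.2]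
        exact h4.symm
      · rcases kd3 hX y with hy | hy | hy
        · obtain ⟨σ, h1, h2, h3, h4⟩ := hs.1.exists_pt hX (by omega) (c := y) hy
            (by rw [hs.2]; exact hyx)
          refine ⟨σ, ⟨h1, h3⟩, Or.inr ⟨hgt, ?_⟩⟩
          rw [nx_two hx, ← hs.2]
          exact h4.symm
        · obtain ⟨g, t⟩ := hX.cell_of hy hx hyx
          obtain ⟨σ, h1, h2, h3, h4⟩ := hs.1.exists_pt hX (by omega) (c := g) t.1
            (by rw [hs.2]; exact t.gp)
          have hE : X.Edge σ.lab y := by rw [h3]; exact t.ge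
          obtain ⟨v1, v2, v3⟩ := h1.hst_val hX h2 hy hE
          refine ⟨hst σ y, ⟨v1, v3⟩, Or.inr ⟨hgt, ?_⟩⟩
          rw [nx_two hx, (h1.compat hX h2 hy hE hx hyx).1, ← hs.2]
          exact h4.symm
        · omega
  · intro x y s t t' hxy hs ht ht' hR hR'
    have hne := hX.kd_ne x y hxy
    have hyx := X.symm _ _ hxy
    by_cases hlt : kd x < kd y
    · rcases hR with ⟨_, h1⟩ | ⟨h1, _⟩
      · rcases hR' with ⟨_, h2⟩ | ⟨h2, _⟩
        · rw [h1, h2]
        · omega
      · omega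
    · rcases hR with ⟨h1, _⟩ | ⟨_, h1⟩
      · omega
      · rcases hR' with ⟨h2, _⟩ | ⟨_, h2⟩
        · omega
        · have hts := ht.sk_eq
          have hts' := ht'.sk_eq
          have hl : t.lab = t'.lab := by rw [ht.2, ht'.2]
          have h3 : nx X kd t x = nx X kd t' x := h1.symm.trans h2
          rcases kd3 hX x with hx | hx | hx
          · omega
          · rw [nx_one hx, nx_one hx] at h3
            exact ht.1.uniq_hyp hX ht'.1 (by omega) (by omega) hl hx (by rw [ht.2]; exact hyx) h3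
          · rw [nx_two hx, nx_two hx] at h3
            rcases kd3 hX y with hy | hy | hy
            · exact ht.1.uniq hX ht'.1 (by omega) (by omega) hl hx (by rw [ht.2]; exact hyx) h3
            · exact uniq_e hX ht.1 ht'.1 (by omega) (by omega) ht.2 ht'.2 hx hyx h3
            · omega
  · intro x y s t _ _ _ h
    exact rv_symm h
  · intro x y z s t r hT hs ht hr h1 h2
    have exy := X.edge _ _ _ hT
    have eyz := X.edge _ _ _ (X.rot _ _ _ hT)
    have ezx := X.edge _ _ _ (X.rot _ _ _ (X.rot _ _ _ hT))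
    have n1 := hX.kd_ne _ _ exy
    have n2 := hX.kd_ne _ _ eyz
    have n3 := hX.kd_ne _ _ ezx
    -- the orders of the triangle
    have T1 : X.Tri y z x := X.rot _ _ _ hT
    have T2 : X.Tri z x y := X.rot _ _ _ T1
    have T4 : X.Tri y x z := X.swap _ _ _ hT
    have T5 : X.Tri x z y := X.rot _ _ _ T4
    have T6 : X.Tri z y x := X.rot _ _ _ T5
    rcases kd3 hX x with hx | hx | hx <;> rcases kd3 hX y with hy | hy | hy <;>
      rcases kd3 hX z with hz | hz | hz <;> first
      | omega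
      | exact (tri3 hX (⟨hx, hy, hz, hT⟩ : T3 X kd x y z) hs ht).1 h1 h2
      | exact rv_symm ((tri3 hX (⟨hx, hz, hy, T5⟩ : T3 X kd x z y) hs hr).1 h2 h1)
      | exact (tri3 hX (⟨hy, hx, hz, T4⟩ : T3 X kd y x z) ht hs).2.1 (rv_symm h1) h2
      | exact rv_symm ((tri3 hX (⟨hz, hx, hy, T2⟩ : T3 X kd z x y) hr hs).2.1 (rv_symm h2) h1)
      | exact (tri3 hX (⟨hy, hz, hx, T1⟩ : T3 X kd y z x) ht hr).2.2 (rv_symm h1) (rv_symm h2)
      | exact rv_symm ((tri3 hX (⟨hz, hy, hx, T6⟩ : T3 X kd z y x) hr ht).2.2 (rv_symm h2)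
          (rv_symm h1))

/-- the section -/
theorem exists_st (hX : LX X kd m) (hsc : X.SC) (ho : kd o = 0) : ∃ st : W → St W, st o = root o ∧
    (∀ x, Val X kd m o (st x)) ∧ (∀ x, (st x).lab = x) ∧ (∀ x, (st x).sk = kd x) ∧
    (∀ g e, kd g = 0 → kd e = 1 → X.Edge g e → st e = hst (st g) e) ∧
    (∀ x p, kd x ≤ 1 → kd p = 2 → X.Edge x p → st p = pp X (st x) p) := by
  obtain ⟨st, h1, h2, h3⟩ := (cvr (o := o) hX).exists_section hsc o (root o) ⟨Val.vroot ho, rfl⟩
  refine ⟨st, h1, fun x => (h2 x).1, fun x => (h2 x).2, fun x => (h2 x).sk_eq, ?_, ?_⟩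
  · intro g e hg he hge
    rcases h3 g e hge with ⟨_, h⟩ | ⟨h, _⟩
    · rw [h, nx, if_pos he]
    · omega
  · intro x p hx hp hxp
    rcases h3 x p hxp with ⟨_, h⟩ | ⟨h, _⟩
    · rw [h, nx, if_neg (by omega)]
    · omega

end Pool.Agent.H52.T2
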