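import Pool.Agent.H59.DE.Defs
import Pool.Agent.H59.DE.Sh

/-!
# Typed complexes with labels

The vertices of the complex have a kind: `0` for the chambers, `1` for the hyperedges and `2` for the points. Every triangle
consists of a chamber, a hyperedge of the chamber and a point of the hyperedge. The point `p` has the label
`m = μ (τ p) ≥ 2`, the triangle has the angles `π / 2 - π / (2 m)` (chamber), `π / 2` (hyperedge) and `π / (2 m)` (point). The
Deligne complex of a two-dimensional Artin group is the basic example: chambers are the elements, hyperedges the cosets of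
the cyclic subgroups of the generators, points the cosets of the dihedral parabolic subgroups.
-/

set_option autoImplicit false

namespace Pool.Agent.H52.T2

open Pool.Agent.H54.CX Pool.Agent.H98.FJ Pool.Agent.H59.DE

/-- the length of the side opposite to the chamber -/
noncomputable def Lc (m : ℕ) : ℝ := Real.cos (Real.pi / (2 * m)) / Real.sin (Real.pi / (2 * m))

/-- the length of the side opposite to the hyperedge -/
noncomputable def Ls (m : ℕ) : ℝ := 1 / Real.sin (Real.pi / (2 * m))

/-- the lengths of the sides of the triangles: kinds and labels of the two vertices -/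
noncomputable def L2 : ℕ → ℕ → ℕ → ℕ → ℝ
  | 0, 1, _, _ => 1
  | 1, 0, _, _ => 1
  | 0, 2, _, m => Ls m
  | 2, 0, m, _ => Ls m
  | 1, 2, _, m => Lc m
  | 2, 1, m, _ => Lc m
  | _, _, _, _ => 1

/-- a triangle: the chamber `g`, the hyperedge `e`, the point `p` -/
def T3 {W : Type} (X : Cpx W) (kd : W → ℕ) (g e p : W) : Prop :=
  kd g = 0 ∧ kd e = 1 ∧ kd p = 2 ∧ X.Tri g e p

/-- Galleries at the point `p`: `Gy n f e g g'` is a gallery with `n ≥ 1` hyperedges from the chamber `g` to the chamber `g'`
with the first hyperedge `f` and the last hyperedge `e`; consecutive chambers are different, consecutive hyperedges are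
different. -/
inductive Gy {W : Type} (X : Cpx W) (kd : W → ℕ) (p : W) : ℕ → W → W → W → W → Prop
  | one (e g g' : W) : T3 X kd g e p → T3 X kd g' e p → g ≠ g' → Gy X kd p 1 e e g g'
  | step (n : ℕ) (f e g g' e' g'' : W) : Gy X kd p n f e g g' → e' ≠ e → T3 X kd g' e' p → T3 X kd g'' e' p →
      g' ≠ g'' → Gy X kd p (n + 1) f e' g g''

/-- Typed complexes with labels: `kd` is the kind, `τ` the type of a vertex, `μ` the label of a type. All conditions are
conditions on edges and triangles, so isolated vertices are allowed. -/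
structure TC2 {W T : Type} (X : Cpx W) (kd : W → ℕ) (τ : W → T) (μ : T → ℕ) : Prop where
  kd_le : ∀ x, kd x ≤ 2
  kd_ne : ∀ x y, X.Edge x y → kd x ≠ kd y
  /-- the type determines the kind -/
  kd_τ : ∀ x y, τ x = τ y → kd x = kd y
  len : ∀ x y, X.Edge x y → X.len x y = L2 (kd x) (kd y) (μ (τ x)) (μ (τ y))
  /-- the points of a hyperedge are points of all chambers around the hyperedge -/
  fill : ∀ g e p, kd g = 0 → kd e = 1 → kd p = 2 → X.Edge g e → X.Edge e p → X.Tri g e p
  /-- a hyperedge with a point is the hyperedge of a chamber -/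
  cell : ∀ e p, kd e = 1 → kd p = 2 → X.Edge e p → ∃ g, kd g = 0 ∧ X.Edge g e
  /-- the hyperedges and points of a chamber have different types -/
  inj : ∀ g x y, kd g = 0 → X.Edge g x → X.Edge g y → τ x = τ y → x = y
  /-- a point of a chamber is on exactly two hyperedges of the chamber -/
  two : ∀ g p, kd g = 0 → kd p = 2 → X.Edge g p → ∃ e e', e ≠ e' ∧ kd e = 1 ∧ kd e' = 1 ∧
    X.Tri g e p ∧ X.Tri g e' p ∧ ∀ x, X.Tri g x p → x = e ∨ x = e'
  /-- a hyperedge has at least two points -/
  pts : ∀ g e, kd g = 0 → kd e = 1 → X.Edge g e → ∃ p q, p ≠ q ∧ kd p = 2 ∧ kd q = 2 ∧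
    X.Tri g e p ∧ X.Tri g e q
  /-- two hyperedges of a chamber have at most one common point -/
  lg : ∀ g e e' p q, kd g = 0 → kd e = 1 → kd e' = 1 → kd p = 2 → kd q = 2 → e ≠ e' →
    X.Tri g e p → X.Tri g e' p → X.Tri g e q → X.Tri g e' q → p = q
  /-- the labels are at least two -/
  mu : ∀ p, kd p = 2 → 2 ≤ μ (τ p)
  /-- three hyperedges of a chamber with three common points -/
  k3 : ∀ g e₁ e₂ e₃ p₁ p₂ p₃, T3 X kd g e₁ p₁ → T3 X kd g e₂ p₁ → T3 X kd g e₂ p₂ → T3 X kd g e₃ p₂ →
    T3 X kd g e₃ p₃ → T3 X kd g e₁ p₃ → e₁ ≠ e₂ → e₂ ≠ e₃ → e₃ ≠ e₁ →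
    (1 : ℝ) / μ (τ p₁) + 1 / μ (τ p₂) + 1 / μ (τ p₃) ≤ 1
  /-- closed galleries at a point have at least `2 m` hyperedges -/
  gir : ∀ p n f e g, Gy X kd p n f e g g → f ≠ e → 2 * μ (τ p) ≤ n

/-- the graph of the hyperedges at the point `p` -/
def HGr {W : Type} (X : Cpx W) (kd : W → ℕ) (p : W) : SimpleGraph W where
  Adj e e' := e ≠ e' ∧ ∃ g, T3 X kd g e p ∧ T3 X kd g e' p
  symm := ⟨fun _ _ h => ⟨h.1.symm, h.2.imp fun _ h => ⟨h.2, h.1⟩⟩⟩
  loopless := ⟨fun _ h => h.1 rfl⟩

/-- the properties of the set `FX` of the points and hyperedges with nontrivial stabiliser: different fixed hyperedges at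
the point `p` have distance at least `m` -/
structure FixP2 {W : Type} (X : Cpx W) (kd : W → ℕ) (m : W → ℕ) (FX : W → Prop) : Prop where
  pt : ∀ e p, kd e = 1 → kd p = 2 → X.Edge e p → FX e → FX p
  far : ∀ e e' p, kd e = 1 → kd e' = 1 → kd p = 2 → X.Edge e p → X.Edge e' p → FX e → FX e' → e ≠ e' →
    ∀ w : (HGr X kd p).Walk e e', m p ≤ w.length

end Pool.Agent.H52.T2
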