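import Pool.Agent.H52.T2.Rt
import Pool.Agent.H54.AR2.Large
import Pool.Agent.H71.D2.Tc

/-!
# Two-dimensional Artin groups
-/

set_option autoImplicit false

namespace Pool.Agent.H52.T2

open Pool.Agent.H54.CX Pool.Agent.H98.FJ Pool.Agent.H59.DE Pool.Agent.H52.PAG Pool.Agent.H71.D2

/-- rooted descending links of all simply connected typed complexes with labels -/
theorem rootedAll : Pool.Agent.H54.AR2.RootedAll :=
  fun _ _ _ _ _ _ _ hT hsc hF hc => exists_rooted2 hT hsc hF hc

/-- two-dimensional Artin groups are in the class -/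
theorem two_dim_mem {C : (G : Type) → [Group G] → Prop} (hC : Inherits C) (hE : Extension C) (h2 : Cat2 C)
    (hGL : ∀ n : ℕ, C (GL (Fin n) ℤ)) (B : Type) (M : CoxeterMatrix B)
    (hM : Pool.Agent.H54.AR2.TwoDim M) : C (Art M) :=
  Pool.Agent.H54.AR2.two_dim_of hC hE h2 hGL rootedAll
    (fun _ _ M h hd => ⟨dcx2 M, mu M, ⟨dcx2_tc h hd, dcx2_sc M, dcx2_tact⟩, dcx2_fin⟩) B M hM

end Pool.Agent.H52.T2
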