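import Pool.Agent.H52.T2.Loc

/-!
# [H52 T2 GAL] galleries at a point

`Gy n f e g g'`: chambers `g = g_0, …, g_n = g'`, hyperedges `f = e_1, …, e_n = e`.
`cons`, `append`: induction on the second gallery (`cons` first; `append` by induction on the second gallery: `one` is `step`, `step` is `step`).
`rev`: induction, `rev (step) = cons`.
`gir'` (closed galleries, also with `f = e`): strong induction on `n`. If `f ≠ e`: `hX.gir`. If `f = e`: `n = 1` is impossible (`g ≠ g'`), `n = 2` is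
impossible (`e' ≠ e`), otherwise write the gallery as `g, f, g_1, (inner gallery), g_(n-1), f, g` with an inner gallery `Gy (n-2) f' e' g_1 g_(n-1)`, `f' ≠ f`, `e' ≠ f`
(lemma `unfst`: every gallery is `one` or a `cons`; by reversing or by induction). If `g_1 = g_(n-1)`: induction. If not: the inner gallery and `f` from `g_(n-1)` to `g_1` is closed at
`g_1` of length `n - 1` with the first hyperedge `f' ≠ f` (`hX.gir`).
`ne_end`: append the first gallery and the reverse of the second one, closed at `g` of length `n + n'` (`gir'`).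
`eq_end`: induction on `n`, generalizing. Both `one`: equal. `one` and `step` (`n' = k + 1`): the predecessor `c'` of `c` in the second gallery has `Gy k f' e1 g c'`, `e1 ≠ e`, and `g, c' ∈ e`:
if `c' = g` then `2 m ≤ k` by `gir'`, otherwise append `e` from `c'` to `g`: `2 m ≤ k + 1`, so `2 m + 1 ≤ 1 + n'`. Both `step`, predecessors `c1`, `c2`: if `c1 = c2` then compare the
last hyperedges `e1`, `e2` there: equal: induction; different: `2 m ≤ (n - 1) + (n' - 1)`. If `c1 ≠ c2`: `Gy (n-1) f e1 g c1`, then `e` from `c1` to `c2` is `Gy n f e g c2`, and `Gy (n'-1) f' e2 g c2` with `e2 ≠ e`: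
`ne_end` gives `2 m ≤ n + n' - 1`.
`pred_eq`: if `c1 ≠ c2` then `x` from `c1` to `c2` gives `Gy (n+1) f x g c2` and `ne_end`. `pred_base`: `x` from `c` to `g` closes the gallery.
-/

set_option autoImplicit false

namespace Pool.Agent.H52.T2

open Pool.Agent.H54.CX Pool.Agent.H98.FJ Pool.Agent.H59.DE

variable {W : Type} {X : Cpx W} {kd : W → ℕ} {m : W → ℕ} {p : W}

theorem Gy.pos {n : ℕ} {f e g g' : W} (h : Gy X kd p n f e g g') : 1 ≤ n := by
  cases h with
  | one => exact le_rfl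
  | step n => exact Nat.succ_le_succ (Nat.zero_le n)

theorem Gy.fst {n : ℕ} {f e g g' : W} (h : Gy X kd p n f e g g') : T3 X kd g f p := by
  induction h with
  | one e g g' t1 t2 hne => exact t1
  | step n f e g g' e' g'' h he t1 t2 hne ih => exact ih

theorem Gy.lst {n : ℕ} {f e g g' : W} (h : Gy X kd p n f e g g') : T3 X kd g' e p := by
  cases h with
  | one _ _ _ t1 t2 hne => exact t2
  | step n _ e1 _ c _ _ h he t1 t2 hne => exact t2

theorem Gy.cons {n : ℕ} {f e g g' f₀ g₀ : W} (h : Gy X kd p n f e g g') (h1 : T3 X kd g₀ f₀ p) (h2 : T3 X kd g f₀ p)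
    (h3 : g₀ ≠ g) (h4 : f₀ ≠ f) : Gy X kd p (n + 1) f₀ e g₀ g' := by
  induction h with
  | one e g g' t1 t2 hne =>
    exact Gy.step 1 f₀ f₀ g₀ g e g' (Gy.one f₀ g₀ g h1 h2 h3) h4.symm t1 t2 hne
  | step n f e g g' e' g'' h he t1 t2 hne ih =>
    exact Gy.step (n + 1) f₀ e g₀ g' e' g'' (ih h2 h3 h4) he t1 t2 hne

private theorem append' {n' : ℕ} {f' e' g' g'' : W} (h' : Gy X kd p n' f' e' g' g'') :
    ∀ {n : ℕ} {f e g : W}, Gy X kd p n f e g g' → e ≠ f' → Gy X kd p (n + n') f e' g g'' := by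
  induction h' with
  | one f' g' g'' t1 t2 hne =>
    intro n f e g h h1
    exact Gy.step n f e g g' f' g'' h h1.symm t1 t2 hne
  | step n' f' e1 g' c e' g'' h he t1 t2 hne ih =>
    intro n f e g h h1
    exact Gy.step (n + n') f e1 g c e' g'' (ih h h1) he t1 t2 hne

theorem Gy.append {n n' : ℕ} {f e g g' f' e' g'' : W} (h : Gy X kd p n f e g g') (h' : Gy X kd p n' f' e' g' g'')
    (h1 : e ≠ f') : Gy X kd p (n + n') f e' g g'' := append' h' h h1

theorem Gy.rev {n : ℕ} {f e g g' : W} (h : Gy X kd p n f e g g') : Gy X kd p n e f g' g := by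
  induction h with
  | one e g g' t1 t2 hne => exact Gy.one e g' g t2 t1 hne.symm
  | step n f e g g' e' g'' h he t1 t2 hne ih => exact ih.cons t2 t1 hne.symm he

/-- every gallery is one hyperedge or ends with a hyperedge -/
private theorem unlst' {n : ℕ} {f e g g' : W} (h : Gy X kd p n f e g g') :
    (n = 1 ∧ f = e ∧ T3 X kd g f p ∧ T3 X kd g' f p ∧ g ≠ g') ∨
      ∃ k e' g₁, n = k + 1 ∧ T3 X kd g₁ e p ∧ T3 X kd g' e p ∧ g₁ ≠ g' ∧ e' ≠ e ∧ Gy X kd p k f e' g g₁ := by
  cases h with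
  | one _ _ _ t1 t2 hne => exact Or.inl ⟨rfl, rfl, t1, t2, hne⟩
  | step k _ e1 _ c _ _ h he t1 t2 hne =>
    exact Or.inr ⟨k, e1, c, rfl, t1, t2, hne, he.symm, h⟩

/-- every gallery is one hyperedge or begins with a hyperedge -/
theorem Gy.unfst {n : ℕ} {f e g g' : W} (h : Gy X kd p n f e g g') :
    (n = 1 ∧ f = e ∧ T3 X kd g f p ∧ T3 X kd g' f p ∧ g ≠ g') ∨
      ∃ k f' g₁, n = k + 1 ∧ T3 X kd g f p ∧ T3 X kd g₁ f p ∧ g ≠ g₁ ∧ f' ≠ f ∧ Gy X kd p k f' e g₁ g' := by
  rcases unlst' h.rev with ⟨h1, h2, h3, h4, h5⟩ | ⟨k, e', g₁, h1, h2, h3, h4, h5, h6⟩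
  · subst h2
    exact Or.inl ⟨h1, rfl, h4, h3, h5.symm⟩
  · exact Or.inr ⟨k, e', g₁, h1, h3, h2, h4.symm, h5, h6.rev⟩

/-- every gallery is one hyperedge or ends with a hyperedge -/
theorem Gy.unlst {n : ℕ} {f e g g' : W} (h : Gy X kd p n f e g g') :
    (n = 1 ∧ f = e ∧ T3 X kd g f p ∧ T3 X kd g' f p ∧ g ≠ g') ∨
      ∃ k e' g₁, n = k + 1 ∧ T3 X kd g₁ e p ∧ T3 X kd g' e p ∧ g₁ ≠ g' ∧ e' ≠ e ∧ Gy X kd p k f e' g g₁ :=
  unlst' h

/-- closed galleries -/
theorem gir' (hX : LX X kd m) {n : ℕ} {f e g : W} (h : Gy X kd p n f e g g) : 2 * m p ≤ n := by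
  induction n using Nat.strong_induction_on generalizing f e g with
  | _ n ih =>
    by_cases hfe : f = e
    · subst hfe
      rcases h.unfst with ⟨_, _, _, _, h5⟩ | ⟨k, f', g₁, hn, h2, h3, h4, h5, h6⟩
      · exact (h5 rfl).elim
      · rcases h6.unlst with ⟨_, h7, _, _, _⟩ | ⟨k', e', g₂, hk, h7, h8, h9, h10, h11⟩
        · exact (h5 h7).elim
        · by_cases h12 : g₁ = g₂
          · subst h12
            have := ih k' (by omega) h11
            omega
          · have h13 : Gy X kd p (k' + 1) f' f g₁ g₁ :=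
              Gy.step k' f' e' g₁ g₂ f g₁ h11 h10.symm h7 h3 (Ne.symm h12)
            have := hX.gir p (k' + 1) f' f g₁ h13 h5
            omega
    · exact hX.gir p n f e g h hfe

theorem Gy.ne_end (hX : LX X kd m) {n n' : ℕ} {f e f' e' g c : W} (h : Gy X kd p n f e g c)
    (h' : Gy X kd p n' f' e' g c) (h1 : e ≠ e') : 2 * m p ≤ n + n' :=
  gir' hX (h.append h'.rev h1)

private theorem one_end (hX : LX X kd m) {k : ℕ} {e f' e1 g c c' : W} (h3 : T3 X kd g e p)
    (h5 : T3 X kd c' e p) (_h6 : T3 X kd c e p) (h8 : e1 ≠ e) (h9 : Gy X kd p k f' e1 g c') :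
    2 * m p ≤ k + 1 := by
  by_cases hc : c' = g
  · subst hc
    have := gir' hX h9
    omega
  · exact gir' hX (Gy.step k f' e1 g c' e g h9 h8.symm h5 h3 hc)

theorem Gy.eq_end (hX : LX X kd m) {n n' : ℕ} {f e f' g c : W} (h : Gy X kd p n f e g c)
    (h' : Gy X kd p n' f' e g c) : (n = n' ∧ f = f') ∨ 2 * m p + 1 ≤ n + n' := by
  induction n using Nat.strong_induction_on generalizing n' f f' e c with
  | _ n ih =>
    rcases h.unlst with ⟨a1, a2, a3, a4, a5⟩ | ⟨a, e1, c1, a1, a2, a3, a4, a5, a6⟩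
    · rcases h'.unlst with ⟨b1, b2, b3, b4, b5⟩ | ⟨b, e2, c2, b1, b2, b3, b4, b5, b6⟩
      · exact Or.inl ⟨by omega, a2.trans b2.symm⟩
      · subst a2
        have := one_end hX a3 b2 b3 b5 b6
        right
        omega
    · rcases h'.unlst with ⟨b1, b2, b3, b4, b5⟩ | ⟨b, e2, c2, b1, b2, b3, b4, b5, b6⟩
      · subst b2
        have := one_end hX b3 a2 a3 a5 a6
        right
        omega
      · by_cases hc : c1 = c2
        · subst hc
          by_cases he : e1 = e2
          · subst he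
            rcases ih a (by omega) a6 b6 with ⟨h1, h2⟩ | h1
            · exact Or.inl ⟨by omega, h2⟩
            · right
              omega
          · have := a6.ne_end hX b6 he
            right
            omega
        · have h1 : Gy X kd p (a + 1) f e g c2 :=
            Gy.step a f e1 g c1 e c2 a6 a5.symm a2 b2 hc
          have := h1.ne_end hX b6 b5.symm
          right
          omega

/-- two chambers of the hyperedge `x` -/
theorem Gy.pred_eq (hX : LX X kd m) {n n' : ℕ} {f e f' e' g c₁ c₂ x : W} (h : Gy X kd p n f e g c₁)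
    (h' : Gy X kd p n' f' e' g c₂) (h1 : x ≠ e) (h2 : x ≠ e') (h3 : T3 X kd c₁ x p) (h4 : T3 X kd c₂ x p) :
    c₁ = c₂ ∨ 2 * m p ≤ n + n' + 1 := by
  by_cases hc : c₁ = c₂
  · exact Or.inl hc
  · have h5 : Gy X kd p (n + 1) f x g c₂ := Gy.step n f e g c₁ x c₂ h h1 h3 h4 hc
    have := h5.ne_end hX h' h2
    right
    omega

theorem Gy.pred_base (hX : LX X kd m) {n : ℕ} {f e g c x : W} (h : Gy X kd p n f e g c)
    (h1 : x ≠ e) (h3 : T3 X kd c x p) (h4 : T3 X kd g x p) : 2 * m p ≤ n + 1 := by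
  by_cases hc : c = g
  · subst hc
    have := gir' hX h
    omega
  · exact gir' hX (Gy.step n f e g c x g h h1 h3 h4 hc)

end Pool.Agent.H52.T2
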