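import Pool.Agent.H52.T2.Rk
import Pool.Agent.H52.FR.Dlk

/-!
# [H52 T2 GDC] descending links of the chambers and of the hyperedges

Let `R = rk2 ..`, `G = DG X R x`. A vertex `y` of the descending link: `X.Edge x y`, `R y < R x`.
`good_ch` (`x = g` a chamber). Vertices: hyperedges `e` with `ds g e` (`ge_iff`), points `p` with `m p < 2 dp g p` (`gp_iff`); then `dp g p > 0`, so by `new_p` some `e` with `T3 g e p`, `ds g e`. Adjacent vertices are a hyperedge and a point of it (`hX.kd_ne`, `hX.kd_le`). `acy`: `acyclic_of_height'`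
with `h y = 1` for a hyperedge, `0` for a point with `dp g y = m y`, `2` for the other points. `h1`: clear. `h2`: `y`, `z` below a hyperedge `x'`: points with `dp g = m`; then all hyperedges of `g` at `y` and at `z` are descending (`full`): `x'` and another one `a` at `y` (`oth_spec`), `x'` and another one `b` at `z`; `ds2` for `x'`, `a`: all descending ones are `x'`, `a`,
so `b = a`, `y = z` by `hX.lg_of`. `y`, `z` below a point `x'` with `dp g x' ≠ m x'`: hyperedges at `x'`, descending: equal by `Lv2.near`. `con`: it is sufficient to connect two hyperedges `e ≠ e'` (a point is adjacent to a hyperedge): `ds2` gives a point `p` of both with `dp g p = m p`, `m p < 2 m p`.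
`uni`: `Crit` is false for a chamber.
`good_hy` (`x = e` a hyperedge). Vertices: chambers `g` with `¬ ds g e`, points `p` with `m p < 2 dp e p + 1` or (`KE e p`, `dst p < dst e`) (`ep_iff`). `e` not folded: the gate `g` (`gate_of`), it is the only chamber (`gate_u`), every point is adjacent to it (`hX.t3`): star. `acy`: `acyclic_of_height'` with
`h = 0` for chambers, `1` for points. `e` folded: there are no chambers, so `G` has no edges; the points: `fold` gives `P`; a point `q ≠ P` has `dp e q = 0`, so `m q < 1` or `KE`: `1 = m q`: false (`m q ≥ 2`). `uni`: points `y`, `z` below `e`, `FX e`. Both with `m < 2 dp + 1`: `high_uniq`. `y` with `m y ≤ 2 dp e y`, `KE e z`: `Ext e`, so `dst e = 0` (`Dst.ext`):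
contradiction to `dst z < dst e`. Both `KE`: `Dst.hyp`.
`down_ch` (a chamber `g ≠ o` has a lower neighbour): `Lv2.root`. `down_hy` (a hyperedge has a lower neighbour): the gate, or the point `P` of `fold` with `2 (m - 1) + 1 > m`.
-/

set_option autoImplicit false

namespace Pool.Agent.H52.T2

open Pool.Agent.H54.CX Pool.Agent.H98.FJ Pool.Agent.H59.DE
open Pool.Agent.H52.FR (DV DG Crit Good)

variable {W : Type} {X : Cpx W} {kd : W → ℕ} {m : W → ℕ} {o : W} {lv : W → ℕ} {dp : W → W → ℕ}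
  {ds : W → W → Prop} {an : W → W → ℝ} {FX : W → Prop} {dst : W → ℕ}

private theorem gdc_dsR (hL : Lv2 X kd m lv dp ds an o) {g e : W} (h : ds g e) :
    X.Edge g e ∧ rk2 X kd m lv dp FX dst e < rk2 X kd m lv dp FX dst g := by
  obtain ⟨hg, he, h1⟩ := hL.ds_kd g e h
  exact ⟨h1, (ge_iff (FX := FX) (dst := dst) hL hg he h1).1.2 h⟩

/-- a triangle of a chamber: a hyperedge and a point -/
private theorem gdc_tri (hX : LX X kd m) {g y z : W} (hg : kd g = 0) (h : X.Tri g y z) :
    (kd y = 1 ∧ kd z = 2 ∧ T3 X kd g y z) ∨ (kd y = 2 ∧ kd z = 1 ∧ T3 X kd g z y) := by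
  have e1 := X.edge _ _ _ h
  have e2 := X.edge _ _ _ (X.rot _ _ _ h)
  have e3 := X.symm _ _ (X.edge _ _ _ (X.rot _ _ _ (X.rot _ _ _ h)))
  have a1 := hX.kd_ne _ _ e1
  have a2 := hX.kd_ne _ _ e2
  have a3 := hX.kd_ne _ _ e3
  have b1 := hX.kd_le y
  have b2 := hX.kd_le z
  have hsw : X.Tri g z y := X.swap _ _ _ (X.rot _ _ _ (X.rot _ _ _ h))
  rcases (by omega : (kd y = 1 ∧ kd z = 2) ∨ (kd y = 2 ∧ kd z = 1)) with ⟨h1, h2⟩ | ⟨h1, h2⟩
  · exact Or.inl ⟨h1, h2, hg, h1, h2, h⟩
  · exact Or.inr ⟨h1, h2, hg, h2, h1, hsw⟩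

theorem good_ch (hX : LX X kd m) (hL : Lv2 X kd m lv dp ds an o) (hF : FixP2 X kd m FX)
    (hD : Dst X kd m dp FX dst) {g : W} (hg : kd g = 0) : Good X kd (rk2 X kd m lv dp FX dst) FX g := by
  classical
  obtain ⟨R, hR⟩ : ∃ R, R = rk2 X kd m lv dp FX dst := ⟨_, rfl⟩
  rw [← hR]
  have hds : ∀ y, X.Edge g y → kd y = 1 → R y < R g → ds g y := by
    intro y h1 h2 h3
    rw [hR] at h3
    exact (ge_iff hL hg h2 h1).1.1 h3
  have hds' : ∀ y, ds g y → X.Edge g y ∧ R y < R g := by
    intro y h1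
    rw [hR]
    exact gdc_dsR hL h1
  have hpt : ∀ y, X.Edge g y → kd y = 2 → (R y < R g ↔ m y < 2 * dp g y) := by
    intro y h1 h2
    rw [hR]
    exact (gp_iff hL hg h2 h1).1
  -- a point of the link is on a descending hyperedge
  have hA : ∀ y, DV X R g y → kd y = 2 → ∃ e, ds g e ∧ (DG X R g).Adj y e := by
    intro y hy h2
    have h3 := (hpt y hy.1 h2).1 hy.2
    have h4 : dp g y ≠ 0 := by omega
    have h5 := (hL.new_p g y hg h2 hy.1).not.1 h4
    push Not at h5
    obtain ⟨e, he, he1⟩ := h5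
    have h6 := hds' e he1
    exact ⟨e, he1, X.swap _ _ _ (X.rot _ _ _ (X.rot _ _ _ he.2.2.2)), hy.2, h6.2⟩
  -- two descending hyperedges are joined
  have hB : ∀ e e', ds g e → ds g e' → (DG X R g).Reachable e e' := by
    intro e e' h1 h2
    by_cases hne : e = e'
    · subst hne
      exact SimpleGraph.Reachable.refl _
    · obtain ⟨p, hp, hp', hm, -⟩ := hL.ds2 g e e' h1 h2 hne
      have hmu := hX.mu p hp.2.2.1
      have h3 : R p < R g := (hpt p hp.gp hp.2.2.1).2 (by omega)
      have a1 : (DG X R g).Adj e p := ⟨hp.2.2.2, (hds' e h1).2, h3⟩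
      have a2 : (DG X R g).Adj e' p := ⟨hp'.2.2.2, (hds' e' h2).2, h3⟩
      exact a1.reachable.trans a2.symm.reachable
  have hC : ∀ y, DV X R g y → ∃ e, ds g e ∧ (DG X R g).Reachable y e := by
    intro y hy
    have a1 := hX.kd_ne _ _ hy.1
    have b1 := hX.kd_le y
    rcases (by omega : kd y = 1 ∨ kd y = 2) with h1 | h1
    · exact ⟨y, hds y hy.1 h1 hy.2, SimpleGraph.Reachable.refl _⟩
    · obtain ⟨e, he, ha⟩ := hA y hy h1
      exact ⟨e, he, ha.reachable⟩
  refine ⟨?_, ?_, ?_⟩
  · refine acyclic_of_height' (DG X R g)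
      (fun y => if kd y = 1 then 1 else if dp g y = m y then 0 else 2) ?_ ?_
    · intro y z hyz
      rcases gdc_tri hX hg hyz.1 with ⟨h1, h2, -⟩ | ⟨h1, h2, -⟩
      · have h3 : ¬ kd z = 1 := by omega
        simp only [h1, h3, if_true, if_false]
        split_ifs <;> norm_num
      · have h3 : ¬ kd y = 1 := by omega
        simp only [h2, h3, if_true, if_false]
        split_ifs <;> norm_num
    · intro x y z hxy hxz hy hz
      rcases gdc_tri hX hg hxy.1 with ⟨hx1, hy2, t1⟩ | ⟨hx2, hy1, t1⟩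
      · rcases gdc_tri hX hg hxz.1 with ⟨-, hz2, t2⟩ | ⟨hx2, -, -⟩
        · have hy3 : ¬ kd y = 1 := by omega
          have hz3 : ¬ kd z = 1 := by omega
          simp only [hx1, hy3, if_true, if_false] at hy
          simp only [hx1, hz3, if_true, if_false] at hz
          have hym : dp g y = m y := by
            by_contra hcon
            rw [if_neg hcon] at hy
            omega
          have hzm : dp g z = m z := by
            by_contra hcon
            rw [if_neg hcon] at hz
            omega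
          have hx : ds g x := hL.full g x y t1 hym
          obtain ⟨ta, hane, -, -⟩ := oth_spec hX t1
          obtain ⟨tb, hbne, -, -⟩ := oth_spec hX t2
          have ha := hL.full g _ y ta hym
          have hb := hL.full g _ z tb hzm
          obtain ⟨-, -, -, -, hall⟩ := hL.ds2 g x _ hx ha (Ne.symm hane)
          rcases hall _ hb with h5 | h5
          · exact absurd h5 hbne
          · rw [h5] at tb
            exact hX.lg_of t1 ta t2 tb (Ne.symm hane)
        · omega
      · rcases gdc_tri hX hg hxz.1 with ⟨hx1, -, -⟩ | ⟨-, hz1, t2⟩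
        · omega
        · have hx3 : ¬ kd x = 1 := by omega
          simp only [hy1, hx3, if_true, if_false] at hy
          have hxm : dp g x ≠ m x := by
            intro hcon
            rw [if_pos hcon] at hy
            omega
          by_contra hne
          exact hxm (hL.near hX t1 t2 (hds y t1.ge hy1 hxy.2.2) (hds z t2.ge hz1 hxz.2.2) hne)
  · intro y z hy hz
    obtain ⟨e, he, h1⟩ := hC y hy
    obtain ⟨e', he', h2⟩ := hC z hz
    exact h1.trans ((hB e e' he he').trans h2.symm)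
  · intro y z _ _ hy
    rcases hy with ⟨h, -, -⟩ | ⟨h, -, -⟩ <;> omega

/-- a triangle of a hyperedge: a chamber and a point -/
private theorem gdc_trh (hX : LX X kd m) {e y z : W} (he : kd e = 1) (h : X.Tri e y z) :
    (kd y = 0 ∧ kd z = 2 ∧ T3 X kd y e z) ∨ (kd y = 2 ∧ kd z = 0 ∧ T3 X kd z e y) := by
  have e1 := X.edge _ _ _ h
  have e2 := X.edge _ _ _ (X.rot _ _ _ h)
  have e3 := X.symm _ _ (X.edge _ _ _ (X.rot _ _ _ (X.rot _ _ _ h)))
  have a1 := hX.kd_ne _ _ e1
  have a2 := hX.kd_ne _ _ e2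
  have a3 := hX.kd_ne _ _ e3
  have b1 := hX.kd_le y
  have b2 := hX.kd_le z
  rcases (by omega : (kd y = 0 ∧ kd z = 2) ∨ (kd y = 2 ∧ kd z = 0)) with ⟨h1, h2⟩ | ⟨h1, h2⟩
  · exact Or.inl ⟨h1, h2, h1, he, h2, X.swap _ _ _ h⟩
  · exact Or.inr ⟨h1, h2, h2, he, h1, X.rot _ _ _ (X.rot _ _ _ h)⟩

/-- the vertices of the descending link of a hyperedge -/
private theorem gdc_hv (hX : LX X kd m) (hL : Lv2 X kd m lv dp ds an o) (hF : FixP2 X kd m FX)
    (hD : Dst X kd m dp FX dst) {e y : W} (he : kd e = 1)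
    (hy : DV X (rk2 X kd m lv dp FX dst) e y) :
    (kd y = 0 ∧ X.Edge y e ∧ ¬ ds y e) ∨
      (kd y = 2 ∧ X.Edge e y ∧ (m y < 2 * dp e y + 1 ∨ (KE X kd m dp FX e y ∧ dst y < dst e))) := by
  have a1 := hX.kd_ne _ _ hy.1
  have b1 := hX.kd_le y
  rcases (by omega : kd y = 0 ∨ kd y = 2) with h1 | h1
  · exact Or.inl ⟨h1, X.symm _ _ hy.1, (ge_iff hL h1 he (X.symm _ _ hy.1)).2.1 hy.2⟩
  · exact Or.inr ⟨h1, hy.1, (ep_iff hL hF hD he h1 hy.1).2.1 hy.2⟩

theorem good_hy (hX : LX X kd m) (hL : Lv2 X kd m lv dp ds an o) (hF : FixP2 X kd m FX)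
    (hD : Dst X kd m dp FX dst) {e : W} (he : kd e = 1) : Good X kd (rk2 X kd m lv dp FX dst) FX e := by
  classical
  refine ⟨?_, ?_, ?_⟩
  · refine acyclic_of_height' (DG X (rk2 X kd m lv dp FX dst) e)
      (fun y => if kd y = 0 then 0 else 1) ?_ ?_
    · intro y z hyz
      rcases gdc_trh hX he hyz.1 with ⟨h1, h2, -⟩ | ⟨h1, h2, -⟩
      · have h3 : ¬ kd z = 0 := by omega
        simp only [h1, h3, if_true, if_false]
        norm_num
      · have h3 : ¬ kd y = 0 := by omega
        simp only [h2, h3, if_true, if_false]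
        norm_num
    · intro x y z hxy hxz hy hz
      rcases gdc_trh hX he hxy.1 with ⟨hx1, -, -⟩ | ⟨hx2, hy1, t1⟩
      · simp only [hx1, if_true] at hy
        split_ifs at hy <;> omega
      · rcases gdc_trh hX he hxz.1 with ⟨hx1, -, -⟩ | ⟨-, hz1, t2⟩
        · omega
        · have h1 : ¬ ds y e := (ge_iff hL hy1 he t1.ge).2.1 hxy.2.2
          have h2 : ¬ ds z e := (ge_iff hL hz1 he t2.ge).2.1 hxz.2.2
          exact hL.gate_u y z e hy1 hz1 he t1.ge t2.ge h1 h2
  · intro y z hy hz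
    by_cases hfd : Fd X kd ds e
    · obtain ⟨P, hP2, hPe, hPm, hPu⟩ := hL.fold e hfd
      have key : ∀ y, DV X (rk2 X kd m lv dp FX dst) e y → y = P := by
        intro y hy
        rcases gdc_hv hX hL hF hD he hy with ⟨h1, h2, h3⟩ | ⟨h1, h2, h3⟩
        · exact absurd (hfd.2 y h1 h2) h3
        · by_contra hne
          have h4 := hPu y h1 h2 hne
          have h5 := hX.mu y h1
          rcases h3 with h3 | ⟨h3, -⟩
          · omega
          · have h6 := h3.tie
            omega
      rw [key y hy, key z hz]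
    · obtain ⟨g, hg, hge, hgd⟩ := Lv2.gate_of he hfd
      have hgR : rk2 X kd m lv dp FX dst g < rk2 X kd m lv dp FX dst e :=
        (ge_iff hL hg he hge).2.2 hgd
      have key : ∀ y, DV X (rk2 X kd m lv dp FX dst) e y →
          (DG X (rk2 X kd m lv dp FX dst) e).Reachable y g := by
        intro y hy
        rcases gdc_hv hX hL hF hD he hy with ⟨h1, h2, h3⟩ | ⟨h1, h2, h3⟩
        · rw [hL.gate_u y g e h1 hg he h2 hge h3 hgd]
        · have t := hX.t3 hg he h1 hge h2
          have a : (DG X (rk2 X kd m lv dp FX dst) e).Adj y g :=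
            ⟨X.rot _ _ _ t.2.2.2, hy.2, hgR⟩
          exact a.reachable
      exact (key y hy).trans (key z hz).symm
  · intro y z hy hz hcy hcz
    have hcy' : kd y = 2 ∧ FX e := by
      rcases hcy with ⟨h, -, -⟩ | ⟨-, h1, h2⟩
      · omega
      · exact ⟨h1, h2⟩
    have hcz' : kd z = 2 ∧ FX e := by
      rcases hcz with ⟨h, -, -⟩ | ⟨-, h1, h2⟩
      · omega
      · exact ⟨h1, h2⟩
    obtain ⟨hy2, hfx⟩ := hcy'
    have hz2 := hcz'.1
    rcases gdc_hv hX hL hF hD he hy with ⟨h1, -, -⟩ | ⟨-, hye, hy3⟩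
    · omega
    rcases gdc_hv hX hL hF hD he hz with ⟨h1, -, -⟩ | ⟨-, hze, hz3⟩
    · omega
    rcases hy3 with hy3 | ⟨hy3, hy4⟩
    · rcases hz3 with hz3 | ⟨hz3, hz4⟩
      · exact hL.high_uniq hX he hy2 hz2 hye hze (by omega) (by omega)
      · have h5 := hD.ext e ⟨he, hfx, y, hy2, hye, by omega⟩
        omega
    · rcases hz3 with hz3 | ⟨hz3, hz4⟩
      · have h5 := hD.ext e ⟨he, hfx, z, hz2, hze, by omega⟩
        omega
      · exact hD.hyp e y z hy3 hz3 hy4 hz4

theorem down_ch (hL : Lv2 X kd m lv dp ds an o) {g : W} (hg : kd g = 0) (h : g ≠ o) :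
    ∃ y, DV X (rk2 X kd m lv dp FX dst) g y := by
  by_contra hcon
  push Not at hcon
  apply h
  refine hL.root g hg fun e he => ?_
  exact hcon e (gdc_dsR hL he)

theorem down_hy (hX : LX X kd m) (hL : Lv2 X kd m lv dp ds an o) (hF : FixP2 X kd m FX)
    (hD : Dst X kd m dp FX dst) {e : W} (he : kd e = 1) : ∃ y, DV X (rk2 X kd m lv dp FX dst) e y := by
  by_cases hfd : Fd X kd ds e
  · obtain ⟨P, hP2, hPe, hPm, -⟩ := hL.fold e hfd
    have h5 := hX.mu P hP2
    exact ⟨P, hPe, (ep_iff hL hF hD he hP2 hPe).2.2 (Or.inl (by omega))⟩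
  · obtain ⟨g, hg, hge, hgd⟩ := Lv2.gate_of he hfd
    exact ⟨g, X.symm _ _ hge, (ge_iff hL hg he hge).2.2 hgd⟩

end Pool.Agent.H52.T2
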