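import Pool.Agent.H52.FR.Gr

/-!
# Forests with heights in a linear order, roots of the components
-/

set_option autoImplicit false

namespace Pool.Agent.H52.T2

open Pool.Agent.H52.FR

variable {V : Type*} {α : Type*} [LinearOrder α]

theorem acyclic_of_height' (G : SimpleGraph V) (h : V → α) (h1 : ∀ x y, G.Adj x y → h x ≠ h y)
    (h2 : ∀ x y z, G.Adj x y → G.Adj x z → h y < h x → h z < h x → y = z) : G.IsAcyclic := by
  intro v p hp
  obtain ⟨i, hi, hmax⟩ := Finset.exists_max_image (Finset.range (p.length + 1)) (fun i => h (p.getVert i))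
    ⟨0, by simp⟩
  have hi' : i ≤ p.length := by
    have := Finset.mem_range.1 hi
    omega
  have hm : ∀ j, j ≤ p.length → h (p.getVert j) ≤ h (p.getVert i) := fun j hj =>
    hmax j (Finset.mem_range.2 (by omega))
  have h3 := hp.three_le_length
  have key : ∀ y z, G.Adj (p.getVert i) y → G.Adj (p.getVert i) z → h y ≤ h (p.getVert i) → h z ≤ h (p.getVert i) →
      y = z := fun y z hy hz h4 h5 =>
    h2 _ _ _ hy hz (lt_of_le_of_ne h4 (h1 _ _ hy).symm) (lt_of_le_of_ne h5 (h1 _ _ hz).symm)
  by_cases h0 : i = 0 ∨ i = p.length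
  · have hv : p.getVert i = v := by
      rcases h0 with rfl | rfl
      · exact p.getVert_zero
      · exact p.getVert_length
    apply hp.snd_ne_penultimate
    apply key
    · rw [hv]
      exact p.adj_snd hp.not_nil
    · rw [hv]
      exact (p.adj_penultimate hp.not_nil).symm
    · exact hm 1 (by omega)
    · exact hm (p.length - 1) (by omega)
  · push Not at h0
    have h4 := p.adj_getVert_succ (i := i) (by omega)
    have h5 := p.adj_getVert_succ (i := i - 1) (by omega)
    have e : i - 1 + 1 = i := by omega
    rw [e] at h5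
    exact hp.getVert_sub_one_ne_getVert_add_one hi' (key _ _ h5.symm h4 (hm _ (by omega)) (hm _ (by omega)))

/-- two connected vertices without lower neighbours are equal -/
theorem bottom_uniq (G : SimpleGraph V) (h : V → α) (h1 : ∀ x y, G.Adj x y → h x ≠ h y)
    (h2 : ∀ x y z, G.Adj x y → G.Adj x z → h y < h x → h z < h x → y = z) {x y : V} (hr : G.Reachable x y)
    (hx : ∀ z, G.Adj x z → h x < h z) (hy : ∀ z, G.Adj y z → h y < h z) : x = y := by
  by_contra hne
  obtain ⟨p, hp, -⟩ := hr.exists_path_of_dist
  have hn : 0 < p.length := by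
    rw [Nat.pos_iff_ne_zero]
    exact fun h0 => hne (SimpleGraph.Walk.eq_of_length_eq_zero h0)
  obtain ⟨i, hi, hmax⟩ := Finset.exists_max_image (Finset.range (p.length + 1)) (fun i => h (p.getVert i))
    ⟨0, by simp⟩
  have hi' : i ≤ p.length := by
    have := Finset.mem_range.1 hi
    omega
  have hm : ∀ j, j ≤ p.length → h (p.getVert j) ≤ h (p.getVert i) := fun j hj =>
    hmax j (Finset.mem_range.2 (by omega))
  have hi0 : i ≠ 0 := by
    rintro rfl
    have h3 := hm 1 hn
    rw [p.getVert_zero] at h3
    have h4 := p.adj_getVert_succ (i := 0) hn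
    rw [p.getVert_zero] at h4
    exact absurd (hx _ h4) (not_lt.2 h3)
  have hi1 : i ≠ p.length := by
    rintro rfl
    have h3 := hm (p.length - 1) (by omega)
    rw [p.getVert_length] at h3
    have h4 := p.adj_getVert_succ (i := p.length - 1) (by omega)
    have e : p.length - 1 + 1 = p.length := by omega
    rw [e, p.getVert_length] at h4
    exact absurd (hy _ h4.symm) (not_lt.2 h3)
  have h4 := p.adj_getVert_succ (i := i) (by omega)
  have h5 := p.adj_getVert_succ (i := i - 1) (by omega)
  have e : i - 1 + 1 = i := by omega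
  rw [e] at h5
  have h6 : p.getVert (i - 1) = p.getVert (i + 1) :=
    h2 _ _ _ h5.symm h4 (lt_of_le_of_ne (hm _ (by omega)) (h1 _ _ h5)) (lt_of_le_of_ne (hm _ (by omega)) (h1 _ _ h4).symm)
  have h7 := hp.getVert_injOn (Set.mem_ofPred_eq ▸ (show i - 1 ≤ p.length by omega))
    (Set.mem_ofPred_eq ▸ (show i + 1 ≤ p.length by omega)) h6
  omega

open Classical in
/-- distance to a root, which is the special vertex of the component if there is one -/
theorem exists_dst {G : SimpleGraph V} (hG : G.IsAcyclic) (E : V → Prop)
    (hE : ∀ x y, E x → E y → G.Reachable x y → x = y) : ∃ d : V → ℕ, (∀ x y, G.Adj x y → d x ≠ d y) ∧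
    (∀ x y z, G.Adj x y → G.Adj x z → d y < d x → d z < d x → y = z) ∧ ∀ x, E x → d x = 0 := by
  let r : G.ConnectedComponent → V := fun c => if h : ∃ x, E x ∧ G.connectedComponentMk x = c then h.choose else c.out
  have hr0 : ∀ c, G.connectedComponentMk (r c) = c := by
    intro c
    by_cases h : ∃ x, E x ∧ G.connectedComponentMk x = c
    · simp only [r, dif_pos h]
      exact h.choose_spec.2
    · simp only [r, dif_neg h]
      exact Quot.out_eq c
  have hr : ∀ x, G.Reachable (r (G.connectedComponentMk x)) x := fun x =>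
    SimpleGraph.ConnectedComponent.exact (hr0 _)
  have he : ∀ x y, G.Adj x y → G.connectedComponentMk y = G.connectedComponentMk x := fun x y hxy =>
    SimpleGraph.ConnectedComponent.sound hxy.symm.reachable
  refine ⟨fun x => G.dist (r (G.connectedComponentMk x)) x, fun x y hxy => ?_, fun x y z hxy hxz hy hz => ?_,
    fun x hx => ?_⟩
  · change G.dist (r (G.connectedComponentMk x)) x ≠ G.dist (r (G.connectedComponentMk y)) y
    rw [he x y hxy]
    exact dist_ne hG (hr x) hxy
  · change G.dist (r (G.connectedComponentMk y)) y < G.dist (r (G.connectedComponentMk x)) x at hy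
    change G.dist (r (G.connectedComponentMk z)) z < G.dist (r (G.connectedComponentMk x)) x at hz
    rw [he x y hxy] at hy
    rw [he x z hxz] at hz
    exact dist_unique hG (hr x) hxy hxz hy hz
  · have h : ∃ y, E y ∧ G.connectedComponentMk y = G.connectedComponentMk x := ⟨x, hx, rfl⟩
    have h1 : r (G.connectedComponentMk x) = h.choose := by simp only [r, dif_pos h]
    have h2 : h.choose = x := hE _ _ h.choose_spec.1 hx (SimpleGraph.ConnectedComponent.exact h.choose_spec.2)
    change G.dist (r (G.connectedComponentMk x)) x = 0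
    rw [h1, h2, SimpleGraph.dist_self]

end Pool.Agent.H52.T2
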