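import Pool.Agent.H52.T2.IvD

/-!
# [H52 T2 INC] the positions of the chamber states

`invC_st` (`s = st (gt σ e) c`): at a point `p ∉ e`: `NewP` (the only descending hyperedge is `e`). `p ∈ e`: `pp s p = pp σ p`, `dd s p = dd σ p + 1 < m p` (`vst`), `hst s e = gt σ e`; `InvC σ` at `p`
(`T3 σ.lab e p`): (1) `NewP σ p`: `Val.pp_new`: `pp σ p = pc σ p`, gate `σ.lab`: `Ps.ce e c` (`σ.lab ≠ c`), `f = e`; `pp s p = pc σ₀ p` gives `σ₀ = σ` and `an (gt σ e) p = th σ e p = 0 / m + th σ e p`.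
(2) `f, e₁` with `dsc e₁`, `e₁ ≠ e` (`e` is ascending at `σ`): `Ps.step`; `an (gt σ e) p = th σ e p = an (hst σ e₁) p + 1 / m` (`Val.th_old`). (3) `dd σ p = m p`: contradiction.
`at_fd`: if `At π (fd π' a)` then `π'.lab = π.lab` (else `dd = 0`, `m = 1`) and `π' = π`.
`near_gate`: `η = gt σ a`, `At π η`: `InvC σ` at `P = π.lab` is in the second case: `NewP` gives `dd = 0`, `m = 1`; the third case gives `dd = m`. So `Ps P π.gte (m - 1) f e₁ σ.lab`, `e₁ ≠ a` (`e₁` is descending, `a` is not) and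
`an η P = (m - 1) / m + th σ₀ f P` if `π = pc σ₀ P` (`Val.th_old`). `c ≠ σ.lab` by `FarC`. So `Ps P π.gte (m P) f a c` (`Ps.step`).
`side` (a point `p ≠ P` of `η.lab`, where `η = α` or `η = β`): `fd`: `at_fd`, `pp η p = ph η p`, `dd = 0`, position `Ps.hy` (gate `a`), no `σ₀`. `gt σ a`: `InvC σ` at `p`: (1) `NewP`: `Ps.ce a c` (`c ≠ σ.lab` by `near_gate`), (2) `Ps.step`, (3) `dd σ p = m p`
contradicts `dd η p + 2 ≤ m p` (`dd_two`). As in `invC_st`.
`dd_two`: `an η p < 1 - an η P ≤ 1 - (m P - 1) / m P = 1 / m P ≤ 1 / 2` and `dd η p / m p ≤ an η p`, so `2 dd < m p`, `dd + 2 ≤ m p`.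
`invC_far`: `p = P`: third case. `p ∈ α.lab`, `p ≠ P`: `pp s p = pp α p`, `dd s p = dd α p + 1`, `e = α.lab`; another hyperedge at `p` is not `β.lab` (`hX.lg'`). `p ∈ β.lab` only: same. Otherwise `NewP`.
`sum_far`: one of `α`, `β` is folded (`at_fd`): its angle at the other points is `0`, and the other angle is `< 1 - an .. P ≤ 1 / m P`. Both gated: two positions `Ps (m P) f α.lab c`, `Ps (m P) f' β.lab c`, `Ps.pu_ne`: `f ≠ f'`, and a gate hyperedge is impossible (then
`f = v = f'` by `Ps.toH`); `π` is `pc σ₀ P` or `ph ..` (gate kind: `Val.kd_lab`); so `π = pc σ₀ P`, `th σ₀ f P + th σ₀ f' P = 1 / m P` (`Val.th_add`, `Ps.fst`; `NewP σ₀ P` from `vpc`), so `an α P + an β P = 2 - 1 / m P`, and both sums are `< 1`.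
-/

set_option autoImplicit false

namespace Pool.Agent.H52.T2

open Pool.Agent.H54.CX Pool.Agent.H98.FJ Pool.Agent.H59.DE St

variable {W : Type} {X : Cpx W} {kd : W → ℕ} {m : W → ℕ} {o : W}

private theorem pp_gt (σ : St W) (e p : W) : pp X (gt σ e) p = pp X σ p := by
  simp only [pp]

private theorem pp_fd1 (π : St W) (e p : W) (h : p = π.lab) : pp X (fd π e) p = π := by
  simp only [pp]
  rw [if_pos h]

private theorem pp_fd2 (π : St W) (e p : W) (h : p ≠ π.lab) : pp X (fd π e) p = ph (fd π e) p := by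
  simp only [pp]
  rw [if_neg h]

private theorem pp_st1 (η : St W) (c p : W) (h : X.Edge η.lab p) : pp X (st η c) p = pp X η p := by
  simp only [pp]
  rw [if_pos h]

private theorem pp_far1 (π α β : St W) (c p : W) (h : p = π.lab) :
    pp X (far π α β c) p = π := by
  simp only [pp]
  rw [if_pos h]

private theorem pp_far2 (π α β : St W) (c p : W) (h : p ≠ π.lab) (h1 : X.Edge α.lab p) :
    pp X (far π α β c) p = pp X α p := by
  simp only [pp]
  rw [if_neg h, if_pos h1]

private theorem pp_far3 (π α β : St W) (c p : W) (h : p ≠ π.lab) (h1 : ¬ X.Edge α.lab p)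
    (h2 : X.Edge β.lab p) : pp X (far π α β c) p = pp X β p := by
  simp only [pp]
  rw [if_neg h, if_neg h1, if_pos h2]

private theorem dd_gt (σ : St W) (e p : W) : dd X m (gt σ e) p = dd X m σ p := by
  simp only [dd]

private theorem dd_fd2 (π : St W) (e p : W) (h : p ≠ π.lab) : dd X m (fd π e) p = 0 := by
  simp only [dd]
  rw [if_neg h]

private theorem dd_st1 (η : St W) (c p : W) (h : X.Edge η.lab p) :
    dd X m (st η c) p = dd X m η p + 1 := by
  simp only [dd]
  rw [if_pos h]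

private theorem dd_far1 (π α β : St W) (c p : W) (h : p = π.lab) :
    dd X m (far π α β c) p = m p := by
  simp only [dd]
  rw [if_pos h]

private theorem dd_far2 (π α β : St W) (c p : W) (h : p ≠ π.lab) (h1 : X.Edge α.lab p) :
    dd X m (far π α β c) p = dd X m α p + 1 := by
  simp only [dd]
  rw [if_neg h, if_pos h1]

private theorem dd_far3 (π α β : St W) (c p : W) (h : p ≠ π.lab) (h1 : ¬ X.Edge α.lab p)
    (h2 : X.Edge β.lab p) : dd X m (far π α β c) p = dd X m β p + 1 := by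
  simp only [dd]
  rw [if_neg h, if_neg h1, if_pos h2]

private theorem hst_st (η : St W) (c e : W) (h : e = η.lab) : hst (st η c) e = η := by
  simp only [hst]
  rw [if_pos h]

private theorem hst_far1 (π α β : St W) (c : W) : hst (far π α β c) α.lab = α := by
  simp only [hst]
  rw [if_pos trivial]

private theorem hst_far2 (π α β : St W) (c : W) (h : β.lab ≠ α.lab) :
    hst (far π α β c) β.lab = β := by
  simp only [hst]
  rw [if_neg h, if_pos trivial]

private theorem an_gt (σ : St W) (e p : W) : an X kd m (gt σ e) p = th X kd m σ e p := rfl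

private theorem gt_inv {σ : St W} {e : W} (h : Val X kd m o (gt σ e)) :
    Val X kd m o σ ∧ σ.sk = 0 ∧ kd e = 1 ∧ X.Edge σ.lab e ∧ ¬ σ.dsc e := by
  cases h with
  | vgt _ _ h1 h2 h3 h4 h5 => exact ⟨h1, h2, h3, h4, h5⟩

theorem Val.invC_root (hX : LX X kd m) {c : W} : InvC X kd m (root c) :=
  fun _ _ _ => Or.inl fun _ hx => (hx : False).elim

/-- one more step from the chamber `σ.lab` across the ascending hyperedge `e` to the chamber `c` -/
private theorem stp (hX : LX X kd m) {σ : St W} {e c p : W} (h : Val X kd m o (gt σ e))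
    (hC : InvC X kd m σ) (hp : kd p = 2) (hc : T3 X kd c e p) (hne : c ≠ σ.lab)
    (hd : dd X m σ p ≠ m p) :
    ∃ f, Ps X kd p (pp X σ p).gte (dd X m σ p + 1) f e c ∧
      ∀ σ₀, pp X σ p = pc σ₀ p → an X kd m (gt σ e) p = (dd X m σ p : ℝ) / m p + th X kd m σ₀ f p := by
  obtain ⟨hσ, hs, he1, he2, hna⟩ := gt_inv h
  have t1 : T3 X kd σ.lab e p := hX.t3 (hσ.kd_lab.trans hs) he1 hp he2 hc.ep
  rcases hC p hp t1.gp with h1 | ⟨f, e₁, h1, h2, h3, h4, h5, h6⟩ | h1
  · obtain ⟨h2, h3⟩ := hσ.pp_new hX hs h1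
    refine ⟨e, ?_, ?_⟩
    · rw [h2, h3]
      exact Ps.ce e c t1 hc (Ne.symm hne)
    · intro σ₀ h4
      rw [h2] at h4
      have h5 : σ = σ₀ := by
        injection h4
      rw [h3, ← h5, an_gt, Nat.cast_zero, zero_div, zero_add]
  · have hee : e ≠ e₁ := fun h7 => hna (h7 ▸ h1)
    refine ⟨f, Ps.step _ f e₁ σ.lab e c h4 hee t1 hc (Ne.symm hne), ?_⟩
    intro σ₀ h7
    have h8 := h6 σ₀ h7
    have t2 : T3 X kd σ.lab e₁ p := h4.lst
    rw [an_gt, hσ.th_old hX h1 hna t2 t1, h8]
    ring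
  · exact absurd h1.1 hd

theorem Val.invC_st (hX : LX X kd m) {σ : St W} {e c : W} (h : Val X kd m o (st (gt σ e) c))
    (hC : InvC X kd m σ) : InvC X kd m (st (gt σ e) c) := by
  cases h with
  | vst _ _ _ hη hkc hce hne hdd =>
    obtain ⟨hσ, hs, he1, he2, hna⟩ := gt_inv hη
    intro p hp hcp
    by_cases hpe : X.Edge e p
    · right
      left
      have tc : T3 X kd c e p := hX.t3 hkc he1 hp hce hpe
      have h1 := hdd p hp hpe
      obtain ⟨f, h2, h3⟩ := stp hX hη hC hp tc hne (by omega)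
      have e1 : pp X (st (gt σ e) c) p = pp X σ p := by
        rw [pp_st1 _ _ _ hpe, pp_gt]
      have e2 : dd X m (st (gt σ e) c) p = dd X m σ p + 1 := by
        rw [dd_st1 _ _ _ hpe, dd_gt]
      refine ⟨f, e, rfl, hpe, by rw [e2]; omega, ?_, ?_, ?_⟩
      · rw [e1, e2]
        exact h2
      · intro e' _ h4 h5
        exact h4 h5
      · intro σ₀ h4
        rw [e1] at h4
        have e3 : hst (st (gt σ e) c) e = gt σ e := hst_st _ _ _ rfl
        rw [e3, e2, h3 σ₀ h4]
        push_cast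
        ring
    · left
      intro x hx
      have hx' : x = e := hx
      rw [hx']
      exact hpe

theorem Val.at_fd (hX : LX X kd m) {π π' : St W} {a : W} (h : Val X kd m o (fd π' a)) (hp : kd π.lab = 2)
    (hA : At X m π (fd π' a)) : π' = π := by
  obtain ⟨_, h1, h2⟩ := hA
  by_cases h3 : π.lab = π'.lab
  · rw [pp_fd1 _ _ _ h3] at h1
    exact h1
  · rw [dd_fd2 _ _ _ h3] at h2
    have := hX.mu _ hp
    omega

/-- the angle at the point of largest depth -/
private theorem an_ge (hX : LX X kd m) {π η : St W} (hA : At X m π η) (hH : InvH X kd m η) (hP : kd π.lab = 2)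
    (h1 : X.Edge η.lab π.lab) : 1 - 1 / (m π.lab : ℝ) ≤ an X kd m η π.lab := by
  have h3 := (hH _ hP h1).1
  have hm := hX.m_pos hP
  have h4 : (dd X m η π.lab : ℝ) + 1 = m π.lab := by exact_mod_cast hA.2.2
  have h5 : (dd X m η π.lab : ℝ) / m π.lab = 1 - 1 / m π.lab := by
    rw [eq_sub_iff_add_eq, ← add_div, h4, div_self hm.ne']
  rw [h5] at h3
  exact h3

theorem Val.dd_two (hX : LX X kd m) {π η : St W} {p : W} (hA : At X m π η) (hH : InvH X kd m η) (hP : kd π.lab = 2)
    (h1 : X.Edge η.lab π.lab) (hp : kd p = 2) (h2 : X.Edge η.lab p) (hne : p ≠ π.lab) : dd X m η p + 2 ≤ m p := by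
  obtain ⟨h3, _, h4⟩ := hH p hp h2
  have h5 := h4 _ hP h1 hne
  have h6 := an_ge hX hA hH hP h1
  have h7 := hX.inv_le hP
  have hm := hX.m_pos hp
  have h8 : (dd X m η p : ℝ) / m p < 1 / 2 := by linarith
  rw [div_lt_iff₀ hm] at h8
  have h9 : (2 : ℝ) * dd X m η p < m p := by linarith
  have h10 : 2 * dd X m η p < m p := by exact_mod_cast h9
  have := hX.mu p hp
  omega

theorem Val.near_gate (hX : LX X kd m) {π σ : St W} {a : W} (hπ : Val X kd m o π) (hπ2 : π.sk = 2)
    (h : Val X kd m o (gt σ a)) (hA : At X m π (gt σ a)) (h1 : X.Edge a π.lab) (hC : InvC X kd m σ) :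
    ∃ f e₁, e₁ ≠ a ∧ Ps X kd π.lab π.gte (m π.lab - 1) f e₁ σ.lab ∧
      ∀ σ₀, π = pc σ₀ π.lab → an X kd m (gt σ a) π.lab = ((m π.lab : ℝ) - 1) / m π.lab + th X kd m σ₀ f π.lab := by
  obtain ⟨hσ, hs, he1, he2, hna⟩ := gt_inv h
  obtain ⟨_, h2, h3⟩ := hA
  rw [pp_gt] at h2
  rw [dd_gt] at h3
  have hP : kd π.lab = 2 := hπ.kd_lab.trans hπ2
  have hmu := hX.mu _ hP
  have t1 : T3 X kd σ.lab a π.lab := hX.t3 (hσ.kd_lab.trans hs) he1 hP he2 h1
  rcases hC π.lab hP t1.gp with h4 | ⟨f, e₁, h4, h5, h6, h7, h8, h9⟩ | h4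
  · have h5 := (hσ.pp_new hX hs h4).2
    omega
  · have hee : e₁ ≠ a := fun h10 => hna (h10 ▸ h4)
    have h10 : m π.lab - 1 = dd X m σ π.lab := by omega
    refine ⟨f, e₁, hee, ?_, ?_⟩
    · rw [h10]
      rw [h2] at h7
      exact h7
    · intro σ₀ h11
      have h12 := h9 σ₀ (h2.trans h11)
      have t2 : T3 X kd σ.lab e₁ π.lab := h7.lst
      have h13 : (m π.lab : ℝ) = (dd X m σ π.lab : ℝ) + 1 := by exact_mod_cast h3.symm
      rw [an_gt, hσ.th_old hX h4 hna t2 t1, h12]
      rw [show ((m π.lab : ℝ) - 1) = (dd X m σ π.lab : ℝ) by rw [h13]; ring]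
      ring
  · omega

/-- the gate chamber is not far -/
private theorem c_ne (hX : LX X kd m) {π σ : St W} {a c : W} (hπ : Val X kd m o π) (hπ2 : π.sk = 2)
    (h : Val X kd m o (gt σ a)) (hA : At X m π (gt σ a)) (h1 : X.Edge a π.lab) (hC : InvC X kd m σ)
    (hF : FarC X kd m π.lab π.gte c) : c ≠ σ.lab := by
  obtain ⟨f, e₁, _, h2, _⟩ := Val.near_gate hX hπ hπ2 h hA h1 hC
  intro h3
  rw [← h3] at h2
  have h4 := hF.2 _ _ _ h2
  have := hX.mu _ (hπ.kd_lab.trans hπ2)
  omega

/-- the position of a chamber at another point of the hyperedge below it -/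
private theorem side (hX : LX X kd m) {π η : St W} {c p : W} (hπ : Val X kd m o π) (hπ2 : π.sk = 2)
    (hη : Val X kd m o η) (hA : At X m π η) (hH : InvH X kd m η)
    (hC : ∀ σ e, η = gt σ e → InvC X kd m σ) (hF : FarC X kd m π.lab π.gte c)
    (tP : T3 X kd c η.lab π.lab) (hp : kd p = 2) (h1 : X.Edge η.lab p) (hne : p ≠ π.lab) :
    ∃ f, Ps X kd p (pp X η p).gte (dd X m η p + 1) f η.lab c ∧
      ∀ σ₀, pp X η p = pc σ₀ p → an X kd m η p = (dd X m η p : ℝ) / m p + th X kd m σ₀ f p := by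
  have hP : kd π.lab = 2 := hπ.kd_lab.trans hπ2
  have h2 := Val.dd_two hX hA hH hP tP.ep hp h1 hne
  have tp : T3 X kd c η.lab p := hX.t3' tP hp h1
  cases hη with
  | vroot _ => exact absurd hA.1 (by simp [sk])
  | vgt σ a h3 h4 h5 h6 h7 =>
    have hη' : Val X kd m o (gt σ a) := Val.vgt σ a h3 h4 h5 h6 h7
    have hCσ := hC σ a rfl
    have hcn := c_ne hX hπ hπ2 hη' hA tP.ep hCσ hF
    rw [dd_gt] at h2
    rw [pp_gt, dd_gt]
    exact stp hX hη' hCσ hp tp hcn (by omega)
  | vfd π' a h3 h4 h5 h6 h7 =>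
    have hη' : Val X kd m o (fd π' a) := Val.vfd π' a h3 h4 h5 h6 h7
    have h8 : π' = π := Val.at_fd hX hη' hP hA
    subst h8
    refine ⟨a, ?_, ?_⟩
    · rw [pp_fd2 _ _ _ hne, dd_fd2 _ _ _ hne]
      exact Ps.hy c tp
    · intro σ₀ h9
      rw [pp_fd2 _ _ _ hne] at h9
      exact absurd h9 (by simp)
  | vst σ e c' _ _ _ _ _ => exact absurd hA.1 (by simp [sk])
  | vfar π α β c' _ _ _ _ _ _ _ _ _ _ _ => exact absurd hA.1 (by simp [sk])
  | vpc σ q _ _ _ _ _ => exact absurd hA.1 (by simp [sk])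
  | vph π e q _ _ _ _ => exact absurd hA.1 (by simp [sk])

theorem Val.invC_far (hX : LX X kd m) {π α β : St W} {c : W} (h : Val X kd m o (far π α β c))
    (hα : InvH X kd m α) (hβ : InvH X kd m β) (hαC : ∀ σ e, α = gt σ e → InvC X kd m σ)
    (hβC : ∀ σ e, β = gt σ e → InvC X kd m σ) : InvC X kd m (far π α β c) := by
  cases h with
  | vfar _ _ _ _ vπ vα vβ hπ2 hkc hcπ hF hA hB hlα hlβ =>
    have hP : kd π.lab = 2 := vπ.kd_lab.trans hπ2
    obtain ⟨hne, t1, t2, _⟩ := hpr_spec hX hkc hP hcπ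
    rw [← hlα] at t1
    rw [← hlβ] at t2
    rw [← hlα, ← hlβ] at hne
    intro p hp hcp
    by_cases hpl : p = π.lab
    · right
      right
      rw [pp_far1 π α β c p hpl, dd_far1 π α β c p hpl]
      exact ⟨rfl, hpl.symm, α, β, rfl⟩
    · by_cases hpa : X.Edge α.lab p
      · right
        left
        obtain ⟨f, h1, h2⟩ := side hX vπ hπ2 vα hA hα hαC hF t1 hp hpa hpl
        have h3 := Val.dd_two hX hA hα hP t1.ep hp hpa hpl
        refine ⟨f, α.lab, Or.inl rfl, hpa, ?_, ?_, ?_, ?_⟩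
        · rw [dd_far2 π α β c p hpl hpa]
          omega
        · rw [pp_far2 π α β c p hpl hpa, dd_far2 π α β c p hpl hpa]
          exact h1
        · intro e' te hee hd
          rcases hd with hd | hd
          · exact hee hd
          · subst hd
            exact hpl (hX.lg_of t1 t2 (hX.t3' t1 hp hpa) te hne).symm
        · intro σ₀ h4
          rw [pp_far2 π α β c p hpl hpa] at h4
          rw [hst_far1, dd_far2 π α β c p hpl hpa, h2 σ₀ h4]
          push_cast
          ring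
      · by_cases hpb : X.Edge β.lab p
        · right
          left
          obtain ⟨f, h1, h2⟩ := side hX vπ hπ2 vβ hB hβ hβC hF t2 hp hpb hpl
          have h3 := Val.dd_two hX hB hβ hP t2.ep hp hpb hpl
          refine ⟨f, β.lab, Or.inr rfl, hpb, ?_, ?_, ?_, ?_⟩
          · rw [dd_far3 π α β c p hpl hpa hpb]
            omega
          · rw [pp_far3 π α β c p hpl hpa hpb, dd_far3 π α β c p hpl hpa hpb]
            exact h1
          · intro e' te hee hd
            rcases hd with hd | hd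
            · subst hd
              exact hpa te.ep
            · exact hee hd
          · intro σ₀ h4
            rw [pp_far3 π α β c p hpl hpa hpb] at h4
            rw [hst_far2 _ _ _ _ (Ne.symm hne), dd_far3 π α β c p hpl hpa hpb, h2 σ₀ h4]
            push_cast
            ring
        · left
          intro x hx
          rcases hx with hx | hx
          · rw [hx]
            exact hpa
          · rw [hx]
            exact hpb

theorem Val.dsb_root {c : W} : Dsb X kd m (root c) :=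
  ⟨fun _ hx => (hx : False).elim, fun _ _ _ hx => (hx : False).elim,
    fun _ _ _ _ _ hx => (hx : False).elim, fun _ _ hx => (hx : False).elim⟩

theorem Val.dsb_st (hX : LX X kd m) {σ : St W} {e c : W} (h : Val X kd m o (st (gt σ e) c))
    (hH : InvH X kd m (gt σ e)) : Dsb X kd m (st (gt σ e) c) := by
  cases h with
  | vst _ _ _ hη hkc hce hne hdd =>
    refine ⟨?_, ?_, ?_, ?_⟩
    · intro x hx
      rw [hst_st _ _ _ hx]
      exact hH
    · intro x e' q hx _ t1 _
      rw [hst_st _ _ _ hx, dd_gt]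
      have hx' : x = e := hx
      exact hdd q t1.2.2.1 (hx' ▸ t1.ep)
    · intro x x' q q' p hx hx' hxx
      have h1 : x = e := hx
      have h2 : x' = e := hx'
      exact absurd (h1.trans h2.symm) hxx
    · intro x x' hx hx' hxx
      have h1 : x = e := hx
      have h2 : x' = e := hx'
      exact absurd (h1.trans h2.symm) hxx

/-- the two hyperedges of a far chamber: one of them is folded -/
private theorem sum_fd (hX : LX X kd m) {π π' β : St W} {a q q' : W} (hP : kd π.lab = 2)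
    (hα : Val X kd m o (fd π' a)) (hA : At X m π (fd π' a)) (hB : At X m π β) (hH : InvH X kd m β)
    (hne : q ≠ π.lab) (h1 : X.Edge β.lab π.lab) (h2 : X.Edge β.lab q') (hq' : kd q' = 2)
    (hne' : q' ≠ π.lab) : an X kd m (fd π' a) q + an X kd m β q' < 1 / m π.lab := by
  have h3 : π' = π := Val.at_fd hX hα hP hA
  subst h3
  have h4 : an X kd m (fd π' a) q = 0 := if_neg hne
  have h5 := (hH q' hq' h2).2.2 _ hP h1 hne'
  have h6 := an_ge hX hB hH hP h1
  rw [h4]
  linarith

/-- the two hyperedges of a far chamber -/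
private theorem sum_far (hX : LX X kd m) {π α β : St W} {c q q' : W} (vπ : Val X kd m o π)
    (vα : Val X kd m o α) (vβ : Val X kd m o β) (hπ2 : π.sk = 2) (hF : FarC X kd m π.lab π.gte c)
    (hA : At X m π α) (hB : At X m π β) (t1 : T3 X kd c α.lab π.lab) (t2 : T3 X kd c β.lab π.lab)
    (hne : α.lab ≠ β.lab) (hα : InvH X kd m α) (hβ : InvH X kd m β)
    (hαC : ∀ σ e, α = gt σ e → InvC X kd m σ) (hβC : ∀ σ e, β = gt σ e → InvC X kd m σ)
    (h1 : T3 X kd c α.lab q) (h2 : T3 X kd c β.lab q') (h3 : q ≠ π.lab) (h4 : q' ≠ π.lab) :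
    an X kd m α q + an X kd m β q' < 1 / m π.lab := by
  have hP : kd π.lab = 2 := vπ.kd_lab.trans hπ2
  have key : ∀ η : St W, Val X kd m o η → η.sk = 1 → (∃ σ e, η = gt σ e) ∨ ∃ π' e, η = fd π' e := by
    intro η hη hs
    cases η with
    | root c => exact absurd hs (by simp [sk])
    | gt σ e => exact Or.inl ⟨σ, e, rfl⟩
    | fd π e => exact Or.inr ⟨π, e, rfl⟩
    | st η c => exact absurd hs (by simp [sk])
    | far π α β c => exact absurd hs (by simp [sk])
    | pc σ p => exact absurd hs (by simp [sk])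
    | ph η q => exact absurd hs (by simp [sk])
  rcases key α vα hA.1 with ⟨σ, a, rfl⟩ | ⟨π', a, rfl⟩
  · rcases key β vβ hB.1 with ⟨σ', b, rfl⟩ | ⟨π', b, rfl⟩
    · have hCσ := hαC σ a rfl
      have hCσ' := hβC σ' b rfl
      have n1 := c_ne hX vπ hπ2 vα hA t1.ep hCσ hF
      have n2 := c_ne hX vπ hπ2 vβ hB t2.ep hCσ' hF
      obtain ⟨f, e₁, g1, g2, g3⟩ := Val.near_gate hX vπ hπ2 vα hA t1.ep hCσ
      obtain ⟨f', e₁', g1', g2', g3'⟩ := Val.near_gate hX vπ hπ2 vβ hB t2.ep hCσ'
      obtain ⟨hσ, hs, he1, he2, hna⟩ := gt_inv vα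
      obtain ⟨hσ', hs', he1', he2', hna'⟩ := gt_inv vβ
      have ta : T3 X kd σ.lab a π.lab := hX.t3 (hσ.kd_lab.trans hs) he1 hP he2 t1.ep
      have tb : T3 X kd σ'.lab b π.lab := hX.t3 (hσ'.kd_lab.trans hs') he1' hP he2' t2.ep
      have p1 := Ps.step _ f e₁ σ.lab a c g2 (Ne.symm g1) ta t1 (Ne.symm n1)
      have p2 := Ps.step _ f' e₁' σ'.lab b c g2' (Ne.symm g1') tb t2 (Ne.symm n2)
      have hmu := hX.mu _ hP
      have hff : f ≠ f' := by
        intro h5
        have h6 := (Ps.pu_ne hX p1 p2 hne).2 h5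
        omega
      cases vπ with
      | vroot _ => exact absurd hπ2 (by simp [sk])
      | vgt _ _ _ _ _ _ _ => exact absurd hπ2 (by simp [sk])
      | vfd _ _ _ _ _ _ _ => exact absurd hπ2 (by simp [sk])
      | vst _ _ _ _ _ _ _ _ => exact absurd hπ2 (by simp [sk])
      | vfar _ _ _ _ _ _ _ _ _ _ _ _ _ _ _ => exact absurd hπ2 (by simp [sk])
      | vpc σ₀ p hσ₀ hs₀ hp₀ he₀ hn₀ =>
        have hk0 : kd σ₀.lab = 0 := hσ₀.kd_lab.trans hs₀
        have hnew : NewP X σ₀ p := by
          intro x hx hxp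
          obtain ⟨_, hx1, hx2⟩ := hσ₀.dsc_spec hX hx
          exact hn₀ x (hX.t3 hk0 hx1 hp₀ hx2 hxp) hx
        have tf : T3 X kd σ₀.lab f p := Ps.fst g2 hk0
        have tf' : T3 X kd σ₀.lab f' p := Ps.fst g2' hk0
        have a1 := hσ₀.th_add hX hs₀ hnew tf tf' hff
        have a2 := g3 σ₀ rfl
        have a3 := g3' σ₀ rfl
        have b1 := (hα q h1.2.2.1 h1.ep).2.2 _ hP t1.ep h3
        have b2 := (hβ q' h2.2.2.1 h2.ep).2.2 _ hP t2.ep h4
        have hm := hX.m_pos hP
        have a4 : ((m (pc σ₀ p).lab : ℝ) - 1) / m (pc σ₀ p).lab = 1 - 1 / m (pc σ₀ p).lab := by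
          rw [sub_div, div_self hm.ne']
        rw [a4] at a2 a3
        have a5 : th X kd m σ₀ f (pc σ₀ p).lab + th X kd m σ₀ f' (pc σ₀ p).lab =
            1 / (m (pc σ₀ p).lab : ℝ) := a1
        linarith
      | vph π₁ e p hv _ _ _ =>
        have hk1 : kd e = 1 := hv.kd_lab
        exact absurd (((Ps.toH g2 hk1).1).trans ((Ps.toH g2' hk1).1).symm) hff
    · rw [add_comm]
      exact sum_fd hX hP vβ hB hA hα h4 t1.ep h1.ep h1.2.2.1 h3
  · exact sum_fd hX hP vα hA hB hβ h3 t2.ep h2.ep h2.2.2.1 h4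

theorem Val.dsb_far (hX : LX X kd m) {π α β : St W} {c : W} (h : Val X kd m o (far π α β c))
    (hα : InvH X kd m α) (hβ : InvH X kd m β) (hαC : ∀ σ e, α = gt σ e → InvC X kd m σ)
    (hβC : ∀ σ e, β = gt σ e → InvC X kd m σ) : Dsb X kd m (far π α β c) := by
  cases h with
  | vfar _ _ _ _ vπ vα vβ hπ2 hkc hcπ hF hA hB hlα hlβ =>
    have hP : kd π.lab = 2 := vπ.kd_lab.trans hπ2
    obtain ⟨hne, t1, t2, _⟩ := hpr_spec hX hkc hP hcπ
    rw [← hlα] at t1
    rw [← hlβ] at t2
    rw [← hlα, ← hlβ] at hne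
    refine ⟨?_, ?_, ?_, ?_⟩
    · intro x hx
      rcases hx with hx | hx
      · rw [hx, hst_far1]
        exact hα
      · rw [hx, hst_far2 _ _ _ _ (Ne.symm hne)]
        exact hβ
    · intro x e q hx he h1 h2
      have hq : q ≠ π.lab := by
        intro h3
        rw [h3] at h2
        rcases hX.two_eq h2 t1 t2 with h4 | h4 | h4
        · exact he (Or.inl h4)
        · exact hne h4
        · exact he (Or.inr h4)
      rcases hx with hx | hx
      · rw [hx, hst_far1]
        rw [hx] at h1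
        exact Val.dd_two hX hA hα hP t1.ep h1.2.2.1 h1.ep hq
      · rw [hx, hst_far2 _ _ _ _ (Ne.symm hne)]
        rw [hx] at h1
        exact Val.dd_two hX hB hβ hP t2.ep h1.2.2.1 h1.ep hq
    · intro x x' q q' p hx hx' hxx u1 u2 u3 u4 hqp hqp'
      have u1' : T3 X kd c x p := u1
      have u2' : T3 X kd c x' p := u2
      have u3' : T3 X kd c x q := u3
      have u4' : T3 X kd c x' q' := u4
      rcases hx with hx | hx
      · rcases hx' with hx' | hx'
        · exact absurd (hx.trans hx'.symm) hxx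
        · subst hx
          subst hx'
          have hpP : p = π.lab := hX.lg_of u1' u2' t1 t2 hne
          rw [hst_far1, hst_far2 _ _ _ _ (Ne.symm hne), hpP]
          rw [hpP] at hqp hqp'
          exact sum_far hX vπ vα vβ hπ2 hF hA hB t1 t2 hne hα hβ hαC hβC u3' u4' hqp hqp'
      · rcases hx' with hx' | hx'
        · subst hx
          subst hx'
          have hpP : p = π.lab := hX.lg_of u2' u1' t1 t2 hne
          rw [hst_far1, hst_far2 _ _ _ _ (Ne.symm hne), hpP, add_comm]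
          rw [hpP] at hqp hqp'
          exact sum_far hX vπ vα vβ hπ2 hF hA hB t1 t2 hne hα hβ hαC hβC u4' u3' hqp' hqp
        · exact absurd (hx.trans hx'.symm) hxx
    · intro x x' hx hx' hxx
      rcases hx with hx | hx
      · rcases hx' with hx' | hx'
        · exact absurd (hx.trans hx'.symm) hxx
        · subst hx
          subst hx'
          exact ⟨π.lab, t1, t2⟩
      · rcases hx' with hx' | hx'
        · subst hx
          subst hx'
          exact ⟨π.lab, t2, t1⟩
        · exact absurd (hx.trans hx'.symm) hxx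

end Pool.Agent.H52.T2
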