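import Pool.Agent.H52.T2.IvD

/-!
# [H52 T2 INH] the angles of the ascending hyperedges of a chamber state

`an (gt σ e) p = th σ e p`, `dd (gt σ e) p = dd σ p`, `hst σ e = gt σ e`.
A descending `x` and an ascending `e` are different. For `p ∈ e` (`T3 σ.lab e p`): `NewP σ p` or some descending `x` contains `p` (`T3 σ.lab x p` by `Val.dsc_spec`, `hX.t3`).
`U_lt`: `Val.U_cases`: `0 < 1`, or `an x q + 1 / m q < (dd + 1) / m + 1 / m = (dd + 2) / m ≤ 1` (`Dsb.inv`, `Dsb.two`).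
`U_sum`: `e ≠ e'` ascending with the common point `p` and `NewP σ p`. `Val.U_cases` for both. If one of them is `0`: `U_lt` and `1 / m p ≤ 1 / 2`. Otherwise `x, q` for `e` and `x', q'` for `e'`.
`x = x'`: `q ≠ q'` (else `x, e, e'` at `q`: `hX.two_eq`), `an x q + an x q' < 1` (`Dsb.inv`) and `k3` for `e, x, e'` with the points `q, q', p`. `x ≠ x'`: `r` from `Dsb.meet`; `q ≠ r` (else `x, x', e` at `r`), `q' ≠ r`; `Dsb.sum`:
`an x q + an x' q' < 1 / m r`; all `1 / m ≤ 1 / 2`.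
`invH_gt`: new point: `Val.pp_new`, `Val.th_new`, `mm_spec` (with `e' = oth σ.lab e p`, ascending by `NewP`). Old point: `Val.th_old`, `Val.compat` (`dd σ p = dd (hst σ x) p + 1`), `Dsb.inv`. Sums: new, new: both `< 1 / m ≤ 1 / 2`.
New `p`, old `q`: `th p < 1 - U` by `mm_spec`, `th q ≤ U` by `Val.th_old`, `Val.le_U`. Old, old with `x`, `x'`: `x = x'` is impossible (`hX.lg'`); `x ≠ x'`: `r` from `Dsb.meet`, `Dsb.sum` and `k3` for `e, x, x'`.
-/

set_option autoImplicit false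

namespace Pool.Agent.H52.T2

open Pool.Agent.H54.CX Pool.Agent.H98.FJ Pool.Agent.H59.DE St

variable {W : Type} {X : Cpx W} {kd : W → ℕ} {m : W → ℕ} {o : W}

private theorem dsc_t3 (hX : LX X kd m) {σ : St W} (h : Val X kd m o σ) {x p : W} (hx : σ.dsc x)
    (hp : kd p = 2) (hxp : X.Edge x p) : T3 X kd σ.lab x p := by
  obtain ⟨hs, hx1, hx2⟩ := h.dsc_spec hX hx
  exact hX.t3 (h.kd_lab.trans hs) hx1 hp hx2 hxp

private theorem dsc_inv (hX : LX X kd m) {σ : St W} (h : Val X kd m o σ) (hD : Dsb X kd m σ)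
    {x q : W} (hx : σ.dsc x) (h1 : T3 X kd σ.lab x q) :
    (dd X m (hst σ x) q : ℝ) / m q ≤ an X kd m (hst σ x) q ∧
    an X kd m (hst σ x) q < ((dd X m (hst σ x) q : ℝ) + 1) / m q ∧
    ∀ q', T3 X kd σ.lab x q' → q ≠ q' →
      an X kd m (hst σ x) q + an X kd m (hst σ x) q' < 1 := by
  obtain ⟨hs, hx1, hx2⟩ := h.dsc_spec hX hx
  have hl : (hst σ x).lab = x := (h.hst_val hX hs hx1 hx2).2.2
  obtain ⟨h2, h3, h4⟩ := hD.inv x hx q h1.2.2.1 (by rw [hl]; exact h1.ep)
  exact ⟨h2, h3, fun q' hq' hne => h4 q' hq'.2.2.1 (by rw [hl]; exact hq'.ep) hne⟩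

private theorem asc_of_new {σ : St W} {e p : W} (hn : NewP X σ p) (h1 : T3 X kd σ.lab e p) :
    ¬ σ.dsc e := fun hd => hn e hd h1.ep

theorem Val.U_lt (hX : LX X kd m) {σ : St W} (h : Val X kd m o σ) (hs : σ.sk = 0) (hD : Dsb X kd m σ) {e : W}
    (he : ¬ σ.dsc e) (he1 : kd e = 1) (he2 : X.Edge σ.lab e) : St.U X kd m σ e < 1 := by
  rcases h.U_cases hX hs he he1 he2 with h0 | ⟨x, q, hx, h1, h2, h3⟩
  · rw [h0]
    exact one_pos
  · rw [h3]
    obtain ⟨-, h4, -⟩ := dsc_inv hX h hD hx h1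
    have h5 := hD.two x e q hx he h1 h2
    have hm : (0 : ℝ) < m q := hX.m_pos h1.2.2.1
    have h6 : ((dd X m (hst σ x) q : ℝ) + 2) ≤ m q := by exact_mod_cast h5
    have h7 : ((dd X m (hst σ x) q : ℝ) + 1) / m q + 1 / m q ≤ 1 := by
      rw [← add_div, div_le_one hm]
      linarith
    linarith

theorem Val.U_sum (hX : LX X kd m) {σ : St W} (h : Val X kd m o σ) (hs : σ.sk = 0) (hD : Dsb X kd m σ) {e e' p : W}
    (h1 : T3 X kd σ.lab e p) (h2 : T3 X kd σ.lab e' p) (hne : e ≠ e') (hn : NewP X σ p) :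
    St.U X kd m σ e + St.U X kd m σ e' + 1 / m p < 2 := by
  have he : ¬ σ.dsc e := asc_of_new hn h1
  have he' : ¬ σ.dsc e' := asc_of_new hn h2
  have hp := hX.inv_le h1.2.2.1
  rcases h.U_cases hX hs he h1.2.1 h1.ge with h0 | ⟨x, q, hx, h3, h4, h5⟩
  · have h6 := h.U_lt hX hs hD he' h2.2.1 h2.ge
    rw [h0]
    linarith
  rcases h.U_cases hX hs he' h2.2.1 h2.ge with h0 | ⟨x', q', hx', h3', h4', h5'⟩
  · have h6 := h.U_lt hX hs hD he h1.2.1 h1.ge
    rw [h0]
    linarith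
  rw [h5, h5']
  have hxe : ∀ {y z : W}, σ.dsc y → ¬ σ.dsc z → y ≠ z := fun hy hz hyz => hz (hyz ▸ hy)
  by_cases hxx : x = x'
  · subst hxx
    have hqq : q ≠ q' := by
      intro hqq
      subst hqq
      rcases hX.two_eq h3 h4 h4' with h7 | h7 | h7
      · exact hxe hx he h7
      · exact hne h7
      · exact hxe hx he' h7
    obtain ⟨-, -, h8⟩ := dsc_inv hX h hD hx h3
    have h9 := h8 q' h3' hqq
    have h10 := hX.k3 σ.lab e x e' q q' p h4 h3 h3' h4' h2 h1 (hxe hx he).symm (hxe hx he')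
      (Ne.symm hne)
    linarith
  · obtain ⟨r, hr1, hr2⟩ := hD.meet x x' hx hx' hxx
    have hqr : q ≠ r := by
      intro hqr
      subst hqr
      rcases hX.two_eq h3 hr2 h4 with h7 | h7 | h7
      · exact hxx h7
      · exact hxe hx' he h7
      · exact hxe hx he h7
    have hqr' : q' ≠ r := by
      intro hqr
      subst hqr
      rcases hX.two_eq hr1 h3' h4' with h7 | h7 | h7
      · exact hxx h7
      · exact hxe hx' he' h7
      · exact hxe hx he' h7
    have h8 := hD.sum x x' q q' r hx hx' hxx hr1 hr2 h3 h3' hqr hqr'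
    have h9 := hX.inv_le hr1.2.2.1
    have h10 := hX.inv_le h3.2.2.1
    have h11 := hX.inv_le h3'.2.2.1
    linarith

/-- the angle of an ascending hyperedge at a new point -/
private theorem new_pt (hX : LX X kd m) {σ : St W} (h : Val X kd m o σ) (hs : σ.sk = 0)
    (hD : Dsb X kd m σ) {e p : W} (he : ¬ σ.dsc e) (h1 : T3 X kd σ.lab e p) (hn : NewP X σ p) :
    0 < th X kd m σ e p ∧ th X kd m σ e p < 1 / m p ∧
      th X kd m σ e p < 1 - St.U X kd m σ e := by
  obtain ⟨h2, h3, -, -⟩ := oth_spec hX h1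
  rw [h.th_new hX hs hn]
  have he' : ¬ σ.dsc (oth X kd σ.lab e p) := asc_of_new hn h2
  refine mm_spec (hX.inv_pos h1.2.2.1) (h.U_lt hX hs hD he h1.2.1 h1.ge)
    (h.U_lt hX hs hD he' h2.2.1 h2.ge) ?_
  exact h.U_sum hX hs hD h1 h2 (Ne.symm h3) hn

/-- the angle of an ascending hyperedge at an old point -/
private theorem old_pt (hX : LX X kd m) {σ : St W} (h : Val X kd m o σ)
    (hD : Dsb X kd m σ) {e p : W} (he : ¬ σ.dsc e) (h1 : T3 X kd σ.lab e p) (hn : ¬ NewP X σ p) :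
    ∃ x, σ.dsc x ∧ T3 X kd σ.lab x p ∧
      th X kd m σ e p = an X kd m (hst σ x) p + 1 / m p ∧
      (dd X m σ p : ℝ) / m p ≤ th X kd m σ e p ∧
      th X kd m σ e p < ((dd X m σ p : ℝ) + 1) / m p ∧
      th X kd m σ e p ≤ St.U X kd m σ e := by
  unfold NewP at hn
  push Not at hn
  obtain ⟨x, hx, hxp⟩ := hn
  have h2 := dsc_t3 hX h hx h1.2.2.1 hxp
  have h3 := h.th_old hX hx he h2 h1
  obtain ⟨h4, h5, -⟩ := dsc_inv hX h hD hx h2
  obtain ⟨hs, hx1, hx2⟩ := h.dsc_spec hX hx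
  have h6 := (h.compat hX hs hx1 hx2 h1.2.2.1 hxp).2.1 hx
  have hm : (0 : ℝ) < m p := hX.m_pos h1.2.2.1
  have h7 : (dd X m σ p : ℝ) = (dd X m (hst σ x) p : ℝ) + 1 := by
    rw [h6]
    push_cast
    ring
  refine ⟨x, hx, h2, h3, ?_, ?_, ?_⟩
  · rw [h3, h7, add_div]
    linarith
  · rw [h3, h7, add_div]
    linarith
  · rw [h3]
    exact h.le_U hX hx he h2 h1

theorem Val.invH_gt (hX : LX X kd m) {σ : St W} (h : Val X kd m o σ) (hs : σ.sk = 0) (hD : Dsb X kd m σ) {e : W}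
    (he : ¬ σ.dsc e) (he1 : kd e = 1) (he2 : X.Edge σ.lab e) : InvH X kd m (gt σ e) := by
  have han : ∀ p, an X kd m (gt σ e) p = th X kd m σ e p := fun p => rfl
  have hdd : ∀ p, dd X m (gt σ e) p = dd X m σ p := fun p => rfl
  have ht : ∀ p, kd p = 2 → X.Edge e p → T3 X kd σ.lab e p := fun p hp hep =>
    hX.t3 (h.kd_lab.trans hs) he1 hp he2 hep
  have hxe : ∀ {y z : W}, σ.dsc y → ¬ σ.dsc z → y ≠ z := fun hy hz hyz => hz (hyz ▸ hy)
  intro p hp hep
  have hep' : X.Edge e p := hep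
  rw [han, hdd]
  have h1 := ht p hp hep'
  have hm : (0 : ℝ) < m p := hX.m_pos hp
  by_cases hn : NewP X σ p
  · obtain ⟨h2, h3, h4⟩ := new_pt hX h hs hD he h1 hn
    have h5 := (h.pp_new hX hs hn).2
    refine ⟨?_, ?_, ?_⟩
    · rw [h5, Nat.cast_zero, zero_div]
      exact h2.le
    · rw [h5, Nat.cast_zero, zero_add]
      exact h3
    · intro q hq heq hpq
      have heq' : X.Edge e q := heq
      rw [han]
      have h6 := ht q hq heq'
      by_cases hn' : NewP X σ q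
      · obtain ⟨-, h7, -⟩ := new_pt hX h hs hD he h6 hn'
        have h8 := hX.inv_le hp
        have h9 := hX.inv_le hq
        linarith
      · obtain ⟨-, -, -, -, -, -, h7⟩ := old_pt hX h hD he h6 hn'
        linarith
  · obtain ⟨x, hx, h2, h3, h4, h5, h6⟩ := old_pt hX h hD he h1 hn
    refine ⟨h4, h5, ?_⟩
    intro q hq heq hpq
    have heq' : X.Edge e q := heq
    rw [han]
    have h7 := ht q hq heq'
    by_cases hn' : NewP X σ q
    · obtain ⟨-, -, h8⟩ := new_pt hX h hs hD he h7 hn'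
      linarith
    · obtain ⟨x', hx', h2', h3', -, -, -⟩ := old_pt hX h hD he h7 hn'
      by_cases hxx : x = x'
      · subst hxx
        exact (hpq (hX.lg_of h2 h1 h2' h7 (hxe hx he))).elim
      · obtain ⟨r, hr1, hr2⟩ := hD.meet x x' hx hx' hxx
        have hqr : p ≠ r := by
          intro hqr
          subst hqr
          rcases hX.two_eq h2 hr2 h1 with h8 | h8 | h8
          · exact hxx h8
          · exact hxe hx' he h8
          · exact hxe hx he h8
        have hqr' : q ≠ r := by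
          intro hqr
          subst hqr
          rcases hX.two_eq hr1 h2' h7 with h8 | h8 | h8
          · exact hxx h8
          · exact hxe hx' he h8
          · exact hxe hx he h8
        have h8 := hD.sum x x' p q r hx hx' hxx hr1 hr2 h2 h2' hqr hqr'
        have h9 := hX.k3 σ.lab e x x' p r q h1 h2 hr1 hr2 h2' h7 (hxe hx he).symm hxx
          (hxe hx' he)
        rw [h3, h3']
        linarith

/-- folded hyperedges -/
theorem Val.invH_fd (hX : LX X kd m) {π : St W} {e : W} (h : Val X kd m o (fd π e)) : InvH X kd m (fd π e) := by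
  classical
  have hp1 : ∀ p, p = π.lab → an X kd m (fd π e) p = 1 - 1 / m p := fun p hp => if_pos hp
  have hp0 : ∀ p, p ≠ π.lab → an X kd m (fd π e) p = 0 := fun p hp => if_neg hp
  have hd1 : ∀ p, p = π.lab → dd X m (fd π e) p = m p - 1 := fun p hp => if_pos hp
  have hd0 : ∀ p, p ≠ π.lab → dd X m (fd π e) p = 0 := fun p hp => if_neg hp
  intro p hp _
  have hm : (0 : ℝ) < m p := hX.m_pos hp
  have hip : (0 : ℝ) < 1 / m p := hX.inv_pos hp
  by_cases hpl : p = π.lab
  · rw [hp1 p hpl, hd1 p hpl]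
    have h2 : 2 ≤ m p := hX.mu p hp
    have h3 : ((m p - 1 : ℕ) : ℝ) = (m p : ℝ) - 1 := by
      rw [Nat.cast_sub (by omega), Nat.cast_one]
    rw [h3]
    refine ⟨?_, ?_, ?_⟩
    · rw [sub_div, div_self hm.ne']
    · rw [sub_add_cancel, div_self hm.ne']
      linarith
    · intro q _ _ hpq
      rw [hp0 q (fun hq => hpq (hpl.trans hq.symm))]
      linarith
  · rw [hp0 p hpl, hd0 p hpl]
    refine ⟨?_, ?_, ?_⟩
    · rw [Nat.cast_zero, zero_div]
    · rw [Nat.cast_zero, zero_add]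
      exact hip
    · intro q hq _ hpq
      have hiq : (0 : ℝ) < 1 / m q := hX.inv_pos hq
      by_cases hql : q = π.lab
      · rw [hp1 q hql]
        linarith
      · rw [hp0 q hql]
        linarith

end Pool.Agent.H52.T2
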