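import Pool.Agent.H52.T2.Inh
import Pool.Agent.H52.T2.Inc

/-!
# [H52 T2 IV] the invariants hold for all valid states

Strong induction on the size `sz`, cases of `Val`: `gt σ e`: `Val.invH_gt` with the induction hypothesis for `σ`; `fd`: `Val.invH_fd`; `st (gt σ e) c`: the induction hypotheses for `gt σ e` and for `σ` (both are smaller);
`far π α β c`: for `α`, `β` and for `σ` if `α = gt σ e` (then `Val σ` by cases of `Val (gt σ e)`).
`dd_lt`: a second point `q` of the hyperedge (`hX.cell_of`, `hX.pts`): `an q ≥ 0`, so `dd p / m p ≤ an p < 1`. `dd_le`: `InvC` (`NewP`: `Val.pp_new`). `dd_max`: otherwise `an p, an q ≥ (m - 1) / m ≥ 1 / 2`.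
`far_pp`: `p = π.lab`, or `α.lab ∼ p` and `dd α p + 1 = m p` (`dd_max` for `α` with `π.lab`, `At`), the same for `β`, or `dd = 0`.
-/

set_option autoImplicit false

namespace Pool.Agent.H52.T2

open Pool.Agent.H54.CX Pool.Agent.H98.FJ Pool.Agent.H59.DE St

variable {W : Type} {X : Cpx W} {kd : W → ℕ} {m : W → ℕ} {o : W}

private theorem gt_inv {σ : St W} {e : W} (h : Val X kd m o (gt σ e)) : Val X kd m o σ ∧ σ.sk = 0 := by
  cases h with
  | vgt _ _ h1 h2 => exact ⟨h1, h2⟩

theorem Val.inv (hX : LX X kd m) {s : St W} (h : Val X kd m o s) : (s.sk = 1 → InvH X kd m s) ∧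
    (s.sk = 0 → InvC X kd m s ∧ Dsb X kd m s) := by
  induction hn : s.sz using Nat.strong_induction_on generalizing s with
  | _ n ih =>
    subst hn
    have IH : ∀ t : St W, t.sz < s.sz → Val X kd m o t → (t.sk = 1 → InvH X kd m t) ∧
        (t.sk = 0 → InvC X kd m t ∧ Dsb X kd m t) := fun t ht hv => ih t.sz ht hv rfl
    have h' := h
    cases h with
    | vroot h1 =>
      exact ⟨fun h2 => absurd h2 (by simp [sk]), fun _ => ⟨Val.invC_root hX, Val.dsb_root⟩⟩
    | vgt σ e h1 h2 h3 h4 h5 =>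
      refine ⟨fun _ => ?_, fun h6 => absurd h6 (by simp [sk])⟩
      exact Val.invH_gt hX h1 h2 ((IH σ (by simp [sz]) h1).2 h2).2 h5 h3 h4
    | vfd π e h1 h2 h3 h4 h5 =>
      exact ⟨fun _ => Val.invH_fd hX h', fun h6 => absurd h6 (by simp [sk])⟩
    | vst σ e c h1 h2 h3 h4 h5 =>
      refine ⟨fun h6 => absurd h6 (by simp [sk]), fun _ => ⟨?_, ?_⟩⟩
      · obtain ⟨h6, h7⟩ := gt_inv h1
        exact Val.invC_st hX h' ((IH σ (by simp only [sz]; omega) h6).2 h7).1
      · exact Val.dsb_st hX h' ((IH (gt σ e) (by simp [sz]) h1).1 rfl)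
    | vfar π α β c h1 h2 h3 h4 h5 h6 h7 h8 h9 h10 h11 =>
      have hα : InvH X kd m α := (IH α (by simp [sz]; omega) h2).1 h8.1
      have hβ : InvH X kd m β := (IH β (by simp only [sz]; omega) h3).1 h9.1
      have hαC : ∀ σ e, α = gt σ e → InvC X kd m σ := by
        rintro σ e rfl
        obtain ⟨h12, h13⟩ := gt_inv h2
        exact ((IH σ (by simp [sz]; omega) h12).2 h13).1
      have hβC : ∀ σ e, β = gt σ e → InvC X kd m σ := by
        rintro σ e rfl
        obtain ⟨h12, h13⟩ := gt_inv h3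
        exact ((IH σ (by simp [sz]; omega) h12).2 h13).1
      exact ⟨fun h12 => absurd h12 (by simp [sk]), fun _ => ⟨Val.invC_far hX h' hα hβ hαC hβC,
        Val.dsb_far hX h' hα hβ hαC hβC⟩⟩
    | vpc σ p h1 =>
      exact ⟨fun h2 => absurd h2 (by simp [sk]), fun h2 => absurd h2 (by simp [sk])⟩
    | vph π e q h1 =>
      exact ⟨fun h2 => absurd h2 (by simp [sk]), fun h2 => absurd h2 (by simp [sk])⟩

/-- the depth of a hyperedge state is less than `m` -/
theorem Val.dd_lt (hX : LX X kd m) {η : St W} (h : Val X kd m o η) (hs : η.sk = 1) {p : W} (hp : kd p = 2)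
    (h1 : X.Edge η.lab p) : dd X m η p < m p := by
  have hI := (h.inv hX).1 hs
  have he : kd η.lab = 1 := h.kd_lab.trans hs
  obtain ⟨g, hg⟩ := hX.cell_of he hp h1
  obtain ⟨q, hq, hqe, hpq⟩ : ∃ q, kd q = 2 ∧ X.Edge η.lab q ∧ p ≠ q := by
    obtain ⟨a, b, hab, ha, hb, h3, h4⟩ := hX.pts g η.lab hg.1 he hg.ge
    have ta : T3 X kd g η.lab a := ⟨hg.1, he, ha, h3⟩
    have tb : T3 X kd g η.lab b := ⟨hg.1, he, hb, h4⟩
    by_cases h5 : p = a
    · exact ⟨b, hb, tb.ep, fun h6 => hab (h5.symm.trans h6)⟩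
    · exact ⟨a, ha, ta.ep, h5⟩
  obtain ⟨h3, h4, h5⟩ := hI p hp h1
  obtain ⟨h6, _, _⟩ := hI q hq hqe
  have h7 := h5 q hq hqe hpq
  have hm := hX.m_pos hp
  have hmq := hX.m_pos hq
  have h8 : (0 : ℝ) ≤ (dd X m η q : ℝ) / m q := by positivity
  have h9 : (dd X m η p : ℝ) / m p < 1 := by linarith
  rw [div_lt_one hm] at h9
  exact_mod_cast h9

/-- the depth of a chamber state is at most `m` -/
theorem Val.dd_le (hX : LX X kd m) {σ : St W} (h : Val X kd m o σ) (hs : σ.sk = 0) {p : W} (hp : kd p = 2)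
    (h1 : X.Edge σ.lab p) : dd X m σ p ≤ m p := by
  rcases ((h.inv hX).2 hs).1 p hp h1 with h2 | ⟨f, e, h2, h3, h4, h5⟩ | ⟨h2, h3⟩
  · rw [(h.pp_new hX hs h2).2]
    exact Nat.zero_le _
  · exact h4.le
  · exact h2.le

/-- there is at most one point of a hyperedge state with the largest depth -/
theorem Val.dd_max (hX : LX X kd m) {η : St W} (h : Val X kd m o η) (hs : η.sk = 1) {p q : W} (hp : kd p = 2)
    (h1 : X.Edge η.lab p) (hq : kd q = 2) (h2 : X.Edge η.lab q) (hd : dd X m η p + 1 = m p)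
    (hd' : dd X m η q + 1 = m q) : p = q := by
  by_contra hne
  have hI := (h.inv hX).1 hs
  have key : ∀ r, kd r = 2 → X.Edge η.lab r → dd X m η r + 1 = m r →
      1 / 2 ≤ an X kd m η r := by
    intro r hr h3 h4
    refine le_trans ?_ (hI r hr h3).1
    have h5 : (dd X m η r : ℝ) = m r - 1 := by
      have h6 : (dd X m η r : ℝ) + 1 = m r := by exact_mod_cast h4
      linarith
    have hm := hX.m_pos hr
    have h7 := hX.inv_le hr
    rw [h5, sub_div, div_self hm.ne']
    linarith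
  have h3 := (hI p hp h1).2.2 q hq h2 hne
  have h4 := key p hp h1 hd
  have h5 := key q hq h2 hd'
  linarith

/-- the state `far` is determined by the point with depth `m` -/
theorem Val.far_pp (hX : LX X kd m) {π α β : St W} {c : W} (h : Val X kd m o (far π α β c)) {p : W} (hp : kd p = 2)
    (h1 : X.Edge c p) (hd : dd X m (far π α β c) p = m p) : p = π.lab := by
  cases h with
  | vfar _ _ _ _ hπ hα hβ hs hc hcπ hF hA hB hαl hβl =>
    by_contra hne
    have hπ2 : kd π.lab = 2 := hπ.kd_lab.trans hs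
    obtain ⟨hne12, t1, t2, _⟩ := hpr_spec hX hc hπ2 hcπ
    rw [← hαl] at t1
    rw [← hβl] at t2
    unfold dd at hd
    rw [if_neg hne] at hd
    by_cases h2 : X.Edge α.lab p
    · rw [if_pos h2] at hd
      exact hne (hα.dd_max hX hA.1 hp h2 hπ2 t1.ep hd hA.2.2)
    · rw [if_neg h2] at hd
      by_cases h3 : X.Edge β.lab p
      · rw [if_pos h3] at hd
        exact hne (hβ.dd_max hX hB.1 hp h3 hπ2 t2.ep hd hB.2.2)
      · rw [if_neg h3] at hd
        have := hX.mu p hp
        omega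

end Pool.Agent.H52.T2
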