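import Pool.Agent.H52.T2.Thl

/-!
# The invariants of the states: definitions
-/

set_option autoImplicit false

namespace Pool.Agent.H52.T2

open Pool.Agent.H54.CX Pool.Agent.H98.FJ Pool.Agent.H59.DE St

variable {W : Type}

/-- the angle of a hyperedge state at a point is between `dd / m` and `(dd + 1) / m`, the sum of two angles is less than one -/
def InvH (X : Cpx W) (kd m : W → ℕ) (η : St W) : Prop := ∀ p, kd p = 2 → X.Edge η.lab p →
  (dd X m η p : ℝ) / m p ≤ an X kd m η p ∧ an X kd m η p < ((dd X m η p : ℝ) + 1) / m p ∧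
    ∀ q, kd q = 2 → X.Edge η.lab q → p ≠ q → an X kd m η p + an X kd m η q < 1

/-- the positions of a chamber state -/
def InvC (X : Cpx W) (kd m : W → ℕ) (σ : St W) : Prop := ∀ p, kd p = 2 → X.Edge σ.lab p →
  NewP X σ p ∨
  (∃ f e, σ.dsc e ∧ X.Edge e p ∧ dd X m σ p < m p ∧ Ps X kd p (pp X σ p).gte (dd X m σ p) f e σ.lab ∧
    (∀ e', T3 X kd σ.lab e' p → e' ≠ e → ¬ σ.dsc e') ∧
    (∀ σ₀, pp X σ p = pc σ₀ p → an X kd m (hst σ e) p = ((dd X m σ p : ℝ) - 1) / m p + th X kd m σ₀ f p)) ∨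
  (dd X m σ p = m p ∧ (pp X σ p).lab = p ∧ ∃ α β, σ = far (pp X σ p) α β σ.lab)

/-- the descending hyperedges of a chamber state -/
structure Dsb (X : Cpx W) (kd m : W → ℕ) (σ : St W) : Prop where
  inv : ∀ x, σ.dsc x → InvH X kd m (hst σ x)
  two : ∀ x e q, σ.dsc x → ¬ σ.dsc e → T3 X kd σ.lab x q → T3 X kd σ.lab e q → dd X m (hst σ x) q + 2 ≤ m q
  sum : ∀ x x' q q' p, σ.dsc x → σ.dsc x' → x ≠ x' → T3 X kd σ.lab x p → T3 X kd σ.lab x' p →
    T3 X kd σ.lab x q → T3 X kd σ.lab x' q' → q ≠ p → q' ≠ p →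
    an X kd m (hst σ x) q + an X kd m (hst σ x') q' < 1 / m p
  meet : ∀ x x', σ.dsc x → σ.dsc x' → x ≠ x' → ∃ p, T3 X kd σ.lab x p ∧ T3 X kd σ.lab x' p

end Pool.Agent.H52.T2
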