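import Pool.Agent.H52.T2.Defs

/-!
# [H52 T2 LOC] the local structure of a typed complex with labels

`LX` collects the conditions which are used for the levels; `m p` is the label of the point `p`.
-/

set_option autoImplicit false

namespace Pool.Agent.H52.T2

open Pool.Agent.H54.CX Pool.Agent.H98.FJ Pool.Agent.H59.DE

variable {W T : Type} {X : Cpx W} {kd : W → ℕ} {m : W → ℕ}

theorem T3.ge {g e p : W} (h : T3 X kd g e p) : X.Edge g e := X.edge _ _ _ h.2.2.2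

theorem T3.ep {g e p : W} (h : T3 X kd g e p) : X.Edge e p := X.edge _ _ _ (X.rot _ _ _ h.2.2.2)

theorem T3.gp {g e p : W} (h : T3 X kd g e p) : X.Edge g p :=
  X.symm _ _ (X.edge _ _ _ (X.rot _ _ _ (X.rot _ _ _ h.2.2.2)))

/-- the local structure -/
structure LX (X : Cpx W) (kd m : W → ℕ) : Prop where
  kd_le : ∀ x, kd x ≤ 2
  kd_ne : ∀ x y, X.Edge x y → kd x ≠ kd y
  fill : ∀ g e p, kd g = 0 → kd e = 1 → kd p = 2 → X.Edge g e → X.Edge e p → X.Tri g e p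
  cell : ∀ e p, kd e = 1 → kd p = 2 → X.Edge e p → ∃ g, kd g = 0 ∧ X.Edge g e
  two : ∀ g p, kd g = 0 → kd p = 2 → X.Edge g p → ∃ e e', e ≠ e' ∧ kd e = 1 ∧ kd e' = 1 ∧
    X.Tri g e p ∧ X.Tri g e' p ∧ ∀ x, X.Tri g x p → x = e ∨ x = e'
  pts : ∀ g e, kd g = 0 → kd e = 1 → X.Edge g e → ∃ p q, p ≠ q ∧ kd p = 2 ∧ kd q = 2 ∧
    X.Tri g e p ∧ X.Tri g e q
  lg : ∀ g e e' p q, kd g = 0 → kd e = 1 → kd e' = 1 → kd p = 2 → kd q = 2 → e ≠ e' →
    X.Tri g e p → X.Tri g e' p → X.Tri g e q → X.Tri g e' q → p = q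
  mu : ∀ p, kd p = 2 → 2 ≤ m p
  k3 : ∀ g e₁ e₂ e₃ p₁ p₂ p₃, T3 X kd g e₁ p₁ → T3 X kd g e₂ p₁ → T3 X kd g e₂ p₂ → T3 X kd g e₃ p₂ →
    T3 X kd g e₃ p₃ → T3 X kd g e₁ p₃ → e₁ ≠ e₂ → e₂ ≠ e₃ → e₃ ≠ e₁ →
    (1 : ℝ) / m p₁ + 1 / m p₂ + 1 / m p₃ ≤ 1
  gir : ∀ p n f e g, Gy X kd p n f e g g → f ≠ e → 2 * m p ≤ n

theorem TC2.lx {τ : W → T} {μ : T → ℕ} (h : TC2 X kd τ μ) : LX X kd (fun p => μ (τ p)) :=
  ⟨h.kd_le, h.kd_ne, h.fill, h.cell, h.two, h.pts, h.lg, h.mu, h.k3, h.gir⟩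

namespace LX

variable (hX : LX X kd m)
include hX

theorem t3 {g e p : W} (hg : kd g = 0) (he : kd e = 1) (hp : kd p = 2) (h1 : X.Edge g e) (h2 : X.Edge e p) :
    T3 X kd g e p := ⟨hg, he, hp, hX.fill g e p hg he hp h1 h2⟩

theorem t3' {g e p q : W} (h : T3 X kd g e p) (hq : kd q = 2) (h2 : X.Edge e q) : T3 X kd g e q :=
  hX.t3 h.1 h.2.1 hq h.ge h2

theorem cell_of {e p : W} (he : kd e = 1) (hp : kd p = 2) (h : X.Edge e p) : ∃ g, T3 X kd g e p := by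
  obtain ⟨g, hg, h1⟩ := hX.cell e p he hp h
  exact ⟨g, hX.t3 hg he hp h1 h⟩

theorem two_of {g p : W} (hg : kd g = 0) (hp : kd p = 2) (h : X.Edge g p) :
    ∃ e e', e ≠ e' ∧ T3 X kd g e p ∧ T3 X kd g e' p ∧ ∀ x, T3 X kd g x p → x = e ∨ x = e' := by
  obtain ⟨e, e', hne, he, he', h1, h2, h3⟩ := hX.two g p hg hp h
  exact ⟨e, e', hne, ⟨hg, he, hp, h1⟩, ⟨hg, he', hp, h2⟩, fun x hx => h3 x hx.2.2.2⟩

/-- three hyperedges of a chamber at a point: two of them are equal -/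
theorem two_eq {g p a b c : W} (ha : T3 X kd g a p) (hb : T3 X kd g b p) (hc : T3 X kd g c p) :
    a = b ∨ b = c ∨ a = c := by
  obtain ⟨e, e', _, _, _, h3⟩ := hX.two_of ha.1 ha.2.2.1 ha.gp
  rcases h3 a ha with h | h <;> rcases h3 b hb with h' | h' <;> rcases h3 c hc with h'' | h''
  · exact Or.inl (h.trans h'.symm)
  · exact Or.inl (h.trans h'.symm)
  · exact Or.inr (Or.inr (h.trans h''.symm))
  · exact Or.inr (Or.inl (h'.trans h''.symm))
  · exact Or.inr (Or.inl (h'.trans h''.symm))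
  · exact Or.inr (Or.inr (h.trans h''.symm))
  · exact Or.inl (h.trans h'.symm)
  · exact Or.inl (h.trans h'.symm)

theorem lg_of {g e e' p q : W} (h1 : T3 X kd g e p) (h2 : T3 X kd g e' p) (h3 : T3 X kd g e q)
    (h4 : T3 X kd g e' q) (h : e ≠ e') : p = q :=
  hX.lg g e e' p q h1.1 h1.2.1 h2.2.1 h1.2.2.1 h3.2.2.1 h h1.2.2.2 h2.2.2.2 h3.2.2.2 h4.2.2.2

/-- two hyperedges of a chamber have at most one common point -/
theorem lg' {g e e' p q : W} (h1 : T3 X kd g e p) (h2 : T3 X kd g e' p) (hq : kd q = 2) (h3 : X.Edge e q)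
    (h4 : X.Edge e' q) (h : e ≠ e') : p = q :=
  hX.lg_of h1 h2 (hX.t3' h1 hq h3) (hX.t3' h2 hq h4) h

theorem m_pos {p : W} (hp : kd p = 2) : (0 : ℝ) < m p := by
  have h := hX.mu p hp
  exact_mod_cast (by omega : 0 < m p)

/-- `1 / m ≤ 1 / 2` -/
theorem inv_le {p : W} (hp : kd p = 2) : (1 : ℝ) / m p ≤ 1 / 2 := by
  have h : (2 : ℝ) ≤ m p := by exact_mod_cast hX.mu p hp
  exact one_div_le_one_div_of_le (by norm_num) h

theorem inv_pos {p : W} (hp : kd p = 2) : (0 : ℝ) < 1 / m p := one_div_pos.2 (hX.m_pos hp)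

end LX

open Classical in
/-- the two hyperedges of the chamber `g` at the point `p` -/
noncomputable def hpr (X : Cpx W) (kd : W → ℕ) (g p : W) : W × W :=
  if h : ∃ x : W × W, x.1 ≠ x.2 ∧ T3 X kd g x.1 p ∧ T3 X kd g x.2 p then h.choose else (g, g)

/-- the first hyperedge of the chamber `g` at the point `p` -/
noncomputable def h1 (X : Cpx W) (kd : W → ℕ) (g p : W) : W := (hpr X kd g p).1

/-- the second hyperedge of the chamber `g` at the point `p` -/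
noncomputable def h2 (X : Cpx W) (kd : W → ℕ) (g p : W) : W := (hpr X kd g p).2

theorem hpr_spec (hX : LX X kd m) {g p : W} (hg : kd g = 0) (hp : kd p = 2) (h : X.Edge g p) :
    h1 X kd g p ≠ h2 X kd g p ∧ T3 X kd g (h1 X kd g p) p ∧ T3 X kd g (h2 X kd g p) p ∧
      ∀ x, T3 X kd g x p → x = h1 X kd g p ∨ x = h2 X kd g p := by
  obtain ⟨e, e', hne, h3, h4, _⟩ := hX.two_of hg hp h
  have hex : ∃ x : W × W, x.1 ≠ x.2 ∧ T3 X kd g x.1 p ∧ T3 X kd g x.2 p := ⟨(e, e'), hne, h3, h4⟩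
  have h5 : hpr X kd g p = hex.choose := dif_pos hex
  have h6 := hex.choose_spec
  unfold h1 h2
  rw [h5]
  refine ⟨h6.1, h6.2.1, h6.2.2, fun x hx => ?_⟩
  rcases hX.two_eq hx h6.2.1 h6.2.2 with h7 | h7 | h7
  · exact Or.inl h7
  · exact (h6.1 h7).elim
  · exact Or.inr h7

open Classical in
/-- the other hyperedge of the chamber `g` at the point `p` -/
noncomputable def oth (X : Cpx W) (kd : W → ℕ) (g e p : W) : W :=
  if e = h1 X kd g p then h2 X kd g p else h1 X kd g p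

theorem oth_spec (hX : LX X kd m) {g e p : W} (h : T3 X kd g e p) :
    T3 X kd g (oth X kd g e p) p ∧ oth X kd g e p ≠ e ∧ oth X kd g (oth X kd g e p) p = e ∧
      ∀ x, T3 X kd g x p → x ≠ e → x = oth X kd g e p := by
  obtain ⟨hne, t1, t2, hall⟩ := hpr_spec hX h.1 h.2.2.1 h.gp
  unfold oth
  rcases hall e h with h3 | h3
  · rw [if_pos h3, if_neg (Ne.symm hne)]
    refine ⟨t2, fun h4 => hne (h3.symm.trans h4.symm), h3.symm, fun x hx hxe => ?_⟩
    rcases hall x hx with h4 | h4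
    · exact (hxe (h4.trans h3.symm)).elim
    · exact h4
  · have h4 : e ≠ h1 X kd g p := fun h5 => hne (h5.symm.trans h3)
    rw [if_neg h4, if_pos rfl]
    refine ⟨t1, h4.symm, h3.symm, fun x hx hxe => ?_⟩
    rcases hall x hx with h5 | h5
    · exact h5
    · exact (hxe (h5.trans h3.symm)).elim

end Pool.Agent.H52.T2
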