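import Pool.Agent.H52.T2.LvD

/-!
# [H52 T2 LVB] levels, second part

`st` is a section; `lv x = (st x).lev m`, `dp x p = dd X m (st x) p`, `ds g e = dsS kd st g e`, `an e p = an X kd m (st e) p`.
`fd_of` (a hyperedge `e` with `Fd e`: `st e = fd π e`): otherwise `st e = gt σ e` (cases of `Val`, kind 1); `c = σ.lab` is a chamber of `e`; `st c` and `σ` have the same label, `hst (st c) e = st e = gt σ e = hst σ e` (`hst_asc`), `Val.uniq_hyp`: `st c = σ`, so `e` is not
descending at `c`, contradiction. `of_fd`: otherwise `st e = hst (st g) e = gt (st g) e`.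
`fold`: `st e = fd π e`: `p = π.lab` (`dd = m - 1`), the others have `dd = 0`.
`an_step`: `Val.th_old`, `st e = gt (st g) e`, `an (gt σ e) p = th σ e p` (`rfl`). `an_new`: `Val.th_add`; `NewP`: `new_zero`.
`new_zero`: `dd (st g) p = 0` gives `NewP (st g) p`: `InvC` at `p` (`Val.inv`): the second case has `dd ≥ 1` (`Ps.pos`), the third `dd = m ≥ 2`.
`cg_u`: `Val.pp_new` for both: `pc (st g) p = st p = pc (st g') p`. `hg_u`: `fd_of`: `st e = fd π e`, `dd = 0`, so `p ≠ π.lab` (`m ≥ 2`), `st p = pp (st e) p = ph (st e) p`, the same for `e'`, labels. `cg_hg`: `pc = ph` is false.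
`gate_ex`: `st p` has kind 2: `pc σ p`: `g = σ.lab`, `Val.pp_new` for `σ` (NewP from `vpc`, with `hX.fill` and `Val.dsc_spec`): `pp σ p = pc σ p = st p = pp (st g) p`, `Val.uniq`: `st g = σ`, `dd = 0`. `ph (fd π e) p`: `pp (fd π e) p = ph (fd π e) p` (`p ≠ π.lab`) `= st p = pp (st e) p`:
`uniq_e`: `st e = fd π e`, `of_fd`.
-/

set_option autoImplicit false

namespace Pool.Agent.H52.T2

open Pool.Agent.H54.CX Pool.Agent.H98.FJ Pool.Agent.H59.DE St

variable {W : Type} {X : Cpx W} {kd : W → ℕ} {m : W → ℕ} {o : W} {st : W → St W}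

private theorem lvb_kind1 {α : St W} (h : α.sk = 1) : (∃ σ a, α = gt σ a) ∨ ∃ π a, α = fd π a := by
  cases α <;> simp_all [sk]

private theorem lvb_kind2 {α : St W} (h : α.sk = 2) : (∃ σ a, α = pc σ a) ∨ ∃ η a, α = ph η a := by
  cases α <;> simp_all [sk]

private theorem lvb_gt {σ : St W} {e : W} (h : Val X kd m o (gt σ e)) : Val X kd m o σ ∧
    σ.sk = 0 ∧ kd e = 1 ∧ X.Edge σ.lab e ∧ ¬ σ.dsc e := by
  cases h with
  | vgt _ _ a b c d e => exact ⟨a, b, c, d, e⟩

private theorem lvb_fd {π : St W} {e : W} (h : Val X kd m o (fd π e)) : Val X kd m o π ∧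
    π.sk = 2 ∧ kd e = 1 ∧ X.Edge e π.lab := by
  cases h with
  | vfd _ _ a b c d e => exact ⟨a, b, c, d⟩

namespace Sct

private theorem vsk0 (hs : Sct X kd m o st) {g : W} (hg : kd g = 0) : (st g).sk = 0 := by
  rw [hs.sk, hg]

private theorem ledge (hs : Sct X kd m o st) {g x : W} (h : X.Edge g x) : X.Edge (st g).lab x := by
  rw [hs.lab]
  exact h

private theorem lt3 (hs : Sct X kd m o st) {g e p : W} (h : T3 X kd g e p) :
    T3 X kd (st g).lab e p := by
  rw [hs.lab]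
  exact h

private theorem gt_of (hs : Sct X kd m o st) {g e : W} (hg : kd g = 0) (he : kd e = 1)
    (h1 : X.Edge g e) (h : ¬ (st g).dsc e) : st e = gt (st g) e := by
  rw [hs.hs g e hg he h1, hst_asc h]

theorem fd_of (hX : LX X kd m) (hs : Sct X kd m o st) {e : W} (h : Fd X kd (dsS kd st) e) :
    ∃ π, st e = fd π e := by
  obtain ⟨he, hall⟩ := h
  have hsk : (st e).sk = 1 := by rw [hs.sk, he]
  rcases lvb_kind1 hsk with ⟨σ, a, h1⟩ | ⟨π, a, h1⟩
  · exfalso
    have ha : e = a := by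
      have h2 := hs.lab e
      rw [h1] at h2
      exact h2.symm
    subst ha
    have hv := hs.val e
    rw [h1] at hv
    obtain ⟨g1, g2, g3, g4, g5⟩ := lvb_gt hv
    have hc : kd σ.lab = 0 := g1.kd_lab.trans g2
    have h3 := hall σ.lab hc g4
    have h4 : hst (st σ.lab) e = hst σ e := by
      rw [← hs.hs σ.lab e hc he g4, h1, hst_asc g5]
    have h5 : st σ.lab = σ :=
      (hs.val σ.lab).uniq_hyp hX g1 (vsk0 hs hc) g2 (hs.lab σ.lab) he (ledge hs g4) h4
    apply g5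
    have h6 := h3.2
    rw [h5] at h6
    exact h6
  · have ha : e = a := by
      have h2 := hs.lab e
      rw [h1] at h2
      exact h2.symm
    subst ha
    exact ⟨π, h1⟩

theorem of_fd (hs : Sct X kd m o st) {e : W} (h : ∃ π, st e = fd π e) : Fd X kd (dsS kd st) e := by
  obtain ⟨π, h1⟩ := h
  have he : kd e = 1 := by
    rw [← hs.sk e, h1]
    rfl
  refine ⟨he, fun g hg hge => ⟨hg, ?_⟩⟩
  by_contra hn
  have h2 := gt_of hs hg he hge hn
  rw [h1] at h2
  cases h2

private theorem fd_dat (hX : LX X kd m) (hs : Sct X kd m o st) {e : W}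
    (h : Fd X kd (dsS kd st) e) : ∃ π : St W, st e = fd π e ∧ kd π.lab = 2 ∧ X.Edge e π.lab ∧
      dd X m (st e) π.lab + 1 = m π.lab ∧ ∀ q, q ≠ π.lab → dd X m (st e) q = 0 ∧
        pp X (st e) q = ph (st e) q := by
  obtain ⟨π, h1⟩ := fd_of hX hs h
  have hv := hs.val e
  rw [h1] at hv
  obtain ⟨f1, f2, f3, f4⟩ := lvb_fd hv
  have hp : kd π.lab = 2 := f1.kd_lab.trans f2
  refine ⟨π, h1, hp, f4, ?_, ?_⟩
  · have h2 : dd X m (fd π e) π.lab = m π.lab - 1 := if_pos rfl
    have h3 := hX.mu _ hp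
    rw [h1, h2]
    omega
  · intro q hq
    have h2 : dd X m (fd π e) q = 0 := if_neg hq
    have h3 : pp X (fd π e) q = ph (fd π e) q := if_neg hq
    rw [h1]
    exact ⟨h2, h3⟩

theorem fold (hX : LX X kd m) (hs : Sct X kd m o st) {e : W} (h : Fd X kd (dsS kd st) e) :
    ∃ p, kd p = 2 ∧ X.Edge e p ∧ dd X m (st e) p + 1 = m p ∧
      ∀ q, kd q = 2 → X.Edge e q → q ≠ p → dd X m (st e) q = 0 := by
  obtain ⟨π, _, h2, h3, h4, h5⟩ := fd_dat hX hs h
  exact ⟨π.lab, h2, h3, h4, fun q _ _ hq => (h5 q hq).1⟩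

theorem new_zero (hX : LX X kd m) (hs : Sct X kd m o st) {g p : W} (hg : kd g = 0) (hp : kd p = 2)
    (h1 : X.Edge g p) (h : dd X m (st g) p = 0) : NewP X (st g) p := by
  rcases (((hs.val g).inv hX).2 (vsk0 hs hg)).1 p hp (ledge hs h1) with
    h2 | ⟨f, e, _, _, _, h3, _⟩ | ⟨h3, _⟩
  · exact h2
  · have h4 := h3.pos
    omega
  · have h4 := hX.mu p hp
    omega

theorem an_step (hX : LX X kd m) (hs : Sct X kd m o st) {g e e' p : W} (h1 : T3 X kd g e p)
    (h2 : T3 X kd g e' p) (h : dsS kd st g e') (h' : ¬ dsS kd st g e) :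
    an X kd m (st e) p = an X kd m (st e') p + 1 / m p := by
  have hn : ¬ (st g).dsc e := fun hd => h' ⟨h1.1, hd⟩
  have h3 := (hs.val g).th_old hX h.2 hn (lt3 hs h2) (lt3 hs h1)
  rw [gt_of hs h1.1 h1.2.1 h1.ge hn, hs.hs g e' h2.1 h2.2.1 h2.ge, ← h3]
  rfl

theorem an_new (hX : LX X kd m) (hs : Sct X kd m o st) {g e e' p : W} (h1 : T3 X kd g e p)
    (h2 : T3 X kd g e' p) (hne : e ≠ e') (h : dd X m (st g) p = 0) :
    an X kd m (st e) p + an X kd m (st e') p = 1 / m p := by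
  have hn := new_zero hX hs h1.1 h1.2.2.1 h1.gp h
  have hn1 : ¬ (st g).dsc e := fun hd => hn e hd h1.ep
  have hn2 : ¬ (st g).dsc e' := fun hd => hn e' hd h2.ep
  have h3 := (hs.val g).th_add hX (vsk0 hs h1.1) hn (lt3 hs h1) (lt3 hs h2) hne
  rw [gt_of hs h1.1 h1.2.1 h1.ge hn1, gt_of hs h2.1 h2.2.1 h2.ge hn2, ← h3]
  rfl

private theorem pc_of (hX : LX X kd m) (hs : Sct X kd m o st) {g p : W} (hg : kd g = 0)
    (hp : kd p = 2) (h1 : X.Edge g p) (h : dd X m (st g) p = 0) : st p = pc (st g) p := by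
  have hn := new_zero hX hs hg hp h1 h
  rw [hs.ps g p (by omega) hp h1, ((hs.val g).pp_new hX (vsk0 hs hg) hn).1]

private theorem ph_of (hX : LX X kd m) (hs : Sct X kd m o st) {e p : W} (hp : kd p = 2)
    (hf : Fd X kd (dsS kd st) e) (h1 : X.Edge e p) (h : dd X m (st e) p = 0) :
    st p = ph (st e) p := by
  obtain ⟨π, _, h2, _, h4, h5⟩ := fd_dat hX hs hf
  have hne : p ≠ π.lab := by
    rintro rfl
    have h6 := hX.mu _ h2
    omega
  have he : kd e = 1 := hf.1
  rw [hs.ps e p (by omega) hp h1, (h5 p hne).2]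

theorem cg_u (hX : LX X kd m) (hs : Sct X kd m o st) {g g' p : W} (hg : kd g = 0) (hg' : kd g' = 0)
    (hp : kd p = 2) (h1 : X.Edge g p) (h1' : X.Edge g' p) (h : dd X m (st g) p = 0)
    (h' : dd X m (st g') p = 0) : g = g' := by
  have h2 := pc_of hX hs hg hp h1 h
  have h3 := pc_of hX hs hg' hp h1' h'
  rw [h2] at h3
  have h4 : st g = st g' := by
    injection h3
  rw [← hs.lab g, ← hs.lab g', h4]

theorem hg_u (hX : LX X kd m) (hs : Sct X kd m o st) {e e' p : W} (hp : kd p = 2)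
    (hf : Fd X kd (dsS kd st) e) (hf' : Fd X kd (dsS kd st) e') (h1 : X.Edge e p) (h1' : X.Edge e' p)
    (h : dd X m (st e) p = 0) (h' : dd X m (st e') p = 0) : e = e' := by
  have h2 := ph_of hX hs hp hf h1 h
  have h3 := ph_of hX hs hp hf' h1' h'
  rw [h2] at h3
  have h4 : st e = st e' := by
    injection h3
  rw [← hs.lab e, ← hs.lab e', h4]

theorem cg_hg (hX : LX X kd m) (hs : Sct X kd m o st) {g e p : W} (hg : kd g = 0) (hp : kd p = 2)
    (h1 : X.Edge g p) (h : dd X m (st g) p = 0) (hf : Fd X kd (dsS kd st) e) (h1' : X.Edge e p)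
    (h' : dd X m (st e) p = 0) : False := by
  have h2 := pc_of hX hs hg hp h1 h
  have h3 := ph_of hX hs hp hf h1' h'
  rw [h2] at h3
  cases h3

theorem gate_ex (hX : LX X kd m) (hs : Sct X kd m o st) {p : W} (hp : kd p = 2) :
    (∃ g, kd g = 0 ∧ X.Edge g p ∧ dd X m (st g) p = 0) ∨
      ∃ e, Fd X kd (dsS kd st) e ∧ X.Edge e p ∧ dd X m (st e) p = 0 := by
  have hsk : (st p).sk = 2 := by rw [hs.sk, hp]
  have hv := hs.val p
  have hl := hs.lab p
  rcases lvb_kind2 hsk with ⟨σ, a, h1⟩ | ⟨η, a, h1⟩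
  · have ha : a = p := by
      rw [h1] at hl
      exact hl
    subst ha
    rw [h1] at hv
    left
    cases hv with
    | vpc _ _ g1 g2 g3 g4 g5 =>
      have hc : kd σ.lab = 0 := g1.kd_lab.trans g2
      have hn : NewP X σ a := by
        intro x hx hxa
        obtain ⟨_, k1, k2⟩ := g1.dsc_spec hX hx
        exact g5 x (hX.t3 hc k1 hp k2 hxa) hx
      obtain ⟨h2, h3⟩ := g1.pp_new hX g2 hn
      have h4 : pp X (st σ.lab) a = pp X σ a := by
        rw [← hs.ps σ.lab a (by omega) hp g4, h1, h2]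
      have h5 : st σ.lab = σ :=
        (hs.val σ.lab).uniq hX g1 (vsk0 hs hc) g2 (hs.lab σ.lab) hp (ledge hs g4) h4
      exact ⟨σ.lab, hc, g4, by rw [h5]; exact h3⟩
  · have ha : a = p := by
      rw [h1] at hl
      exact hl
    subst ha
    rw [h1] at hv
    right
    cases hv with
    | vph π e _ g1 g2 g3 g4 =>
      have he : kd e = 1 := (lvb_fd g1).2.2.1
      have h2 : pp X (fd π e) a = ph (fd π e) a := if_neg g4
      have h3 : dd X m (fd π e) a = 0 := if_neg g4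
      have h4 : pp X (fd π e) a = pp X (st e) a := by
        rw [← hs.ps e a (by omega) hp g3, h1, h2]
      have h5 : fd π e = st e :=
        uniq_e hX g1 (hs.val e) rfl (by rw [hs.sk, he]) rfl (hs.lab e) hp g3 h4
      exact ⟨e, of_fd hs ⟨π, h5.symm⟩, g3, by rw [← h5]; exact h3⟩

end Sct

end Pool.Agent.H52.T2
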