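import Pool.Agent.H52.T2.LvA
import Pool.Agent.H52.T2.LvB

/-!
# Levels of a simply connected typed complex with labels
-/

set_option autoImplicit false

namespace Pool.Agent.H52.T2

open Pool.Agent.H54.CX Pool.Agent.H98.FJ Pool.Agent.H59.DE St

variable {W : Type} {X : Cpx W} {kd : W → ℕ} {m : W → ℕ} {o : W}

theorem exists_lv2 (hX : LX X kd m) (hsc : X.SC) (ho : kd o = 0) :
    ∃ lv dp ds an, Lv2 X kd m lv dp ds an o := by
  obtain ⟨st, -, h2, h3, h4, h5, h6⟩ := exists_st hX hsc ho
  have hs : Sct X kd m o st := ⟨h2, h3, h4, h5, h6⟩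
  refine ⟨fun x => (st x).lev m, fun x p => dd X m (st x) p, dsS kd st, fun e p => an X kd m (st e) p, ?_⟩
  have hle : ∀ {e p : W}, X.Edge e p → X.Edge (st e).lab p := fun {e p} h => by rw [h3]; exact h
  exact
    { o_kd := ho
      ds_kd := fun g e h => hs.ds_kd hX h
      lev := fun x p hx hp h => hs.lev hX hx hp h
      lev_ds := fun g e h => hs.lev_ds hX h
      lev_asc := fun g e hg he h1 h => hs.lev_asc hg he h1 h
      gate_u := fun g g' e a b c d f h h' => hs.gate_u a b c d f h h'
      root := fun g hg h => hs.root hX hg h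
      ds2 := fun g e e' h h' hne => hs.ds2 hX h h' hne
      new_p := fun g p hg hp h1 => hs.new_p hX hg hp h1
      full := fun g e p h hd => hs.full hX h hd
      le := fun g p hg hp h1 => (h2 g).dd_le hX ((h4 g).trans hg) hp (hle h1)
      lt := fun e p he hp h1 => (h2 e).dd_lt hX ((h4 e).trans he) hp (hle h1)
      fold := fun e h => hs.fold hX h
      lo := fun e p he hp h1 => (((h2 e).inv hX).1 ((h4 e).trans he) p hp (hle h1)).1
      sum := fun e p q he hp hq h1 h2' hne =>
        (((h2 e).inv hX).1 ((h4 e).trans he) p hp (hle h1)).2.2 q hq (hle h2') hne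
      an_step := fun g e e' p a b c d => hs.an_step hX a b c d
      an_new := fun g e e' p a b c d => hs.an_new hX a b c d
      cg_u := fun g g' p a b c d f h h' => hs.cg_u hX a b c d f h h'
      hg_u := fun e e' p a b c d f h h' => hs.hg_u hX a b c d f h h'
      cg_hg := fun g e p a b c d f h h' => hs.cg_hg hX a b c d f h h'
      gate_ex := fun p hp => hs.gate_ex hX hp }

end Pool.Agent.H52.T2
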