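import Pool.Agent.H52.T2.LvD

/-!
# [H52 T2 LVA] levels, first part

`st` is a section; `lv x = (st x).lev m`, `dp x p = dd X m (st x) p`, `ds g e = dsS kd st g e`.
`ds_kd`: `Val.dsc_spec`. `lev`: `Val.pp_val`. `lev_ds`: `Val.hst_lev`. `lev_asc`: `hst_asc`, `lev (gt σ e) = lev σ`. `gate_u`: `gt (st g) e = gt (st g') e`, so `st g = st g'`, labels.
`root`: `st g` is `root c` (`st η c` has the descending `η.lab`, `far π α β c` has `α.lab`), `Val` gives `c = o`. `ds2`: `st g = far π α β c` (`st η c` has only one): `p = π.lab`, `dd = m` (`if_pos`), `hpr_spec`.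
`new_p`: `InvC` at `p` (`Val.inv`): NewP: `Val.pp_new`, no descending hyperedge contains `p`. Otherwise `dd ≥ 1` (`Ps.pos`; `m ≥ 2`), and there is a descending hyperedge at `p` (third case: `st g = far π ..` with `π.lab = p`: `α.lab = h1 ..`, `hpr_spec`).
`full`: `InvC`: third case (in the others `dd < m`): `far`, all hyperedges at `p` are `α.lab` or `β.lab` (`hpr_spec`).
-/

set_option autoImplicit false

namespace Pool.Agent.H52.T2

open Pool.Agent.H54.CX Pool.Agent.H98.FJ Pool.Agent.H59.DE St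

variable {W : Type} {X : Cpx W} {kd : W → ℕ} {m : W → ℕ} {o : W} {st : W → St W}

private theorem far_sp (hX : LX X kd m) {σ π α β : St W} {c p : W} (hv : Val X kd m o σ)
    (he : σ = far π α β c) (hl : π.lab = p) : α.lab ≠ β.lab ∧ T3 X kd c α.lab p ∧
      T3 X kd c β.lab p ∧ ∀ x, T3 X kd c x p → x = α.lab ∨ x = β.lab := by
  subst he
  subst hl
  cases hv with
  | vfar _ _ _ _ hπ hα hβ hsk hkc hcp hfar hAα hAβ hlα hlβ =>
    have hkπ : kd π.lab = 2 := hπ.kd_lab.trans hsk
    have h := hpr_spec hX hkc hkπ hcp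
    rw [← hlα, ← hlβ] at h
    exact h

namespace Sct

theorem ds_kd (hX : LX X kd m) (hs : Sct X kd m o st) {g e : W} (h : dsS kd st g e) :
    kd g = 0 ∧ kd e = 1 ∧ X.Edge g e := by
  obtain ⟨_, h2, h3⟩ := (hs.val g).dsc_spec hX h.2
  rw [hs.lab g] at h3
  exact ⟨h.1, h2, h3⟩

theorem lev (hX : LX X kd m) (hs : Sct X kd m o st) {x p : W} (h : kd x ≤ 1) (hp : kd p = 2) (h1 : X.Edge x p) :
    (st x).lev m = (st p).lev m + dd X m (st x) p := by
  obtain ⟨_, _, _, h4⟩ := (hs.val x).pp_val hX (p := p) (by rw [hs.sk x]; exact h) hp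
    (by rw [hs.lab x]; exact h1)
  rw [hs.ps x p h hp h1]
  exact h4

theorem lev_ds (hX : LX X kd m) (hs : Sct X kd m o st) {g e : W} (h : dsS kd st g e) :
    (st g).lev m = (st e).lev m + 1 := by
  obtain ⟨h1, h2, h3⟩ := ds_kd hX hs h
  rw [hs.hs g e h1 h2 h3]
  exact (hs.val g).hst_lev hX h.2

theorem asc (hs : Sct X kd m o st) {g e : W} (hg : kd g = 0) (he : kd e = 1) (h1 : X.Edge g e)
    (h : ¬ dsS kd st g e) : st e = gt (st g) e := by
  rw [hs.hs g e hg he h1]
  exact hst_asc (fun h2 => h ⟨hg, h2⟩)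

theorem lev_asc (hs : Sct X kd m o st) {g e : W} (hg : kd g = 0) (he : kd e = 1) (h1 : X.Edge g e)
    (h : ¬ dsS kd st g e) : (st g).lev m = (st e).lev m := by
  rw [asc hs hg he h1 h]
  rfl

theorem gate_u (hs : Sct X kd m o st) {g g' e : W} (hg : kd g = 0) (hg' : kd g' = 0) (he : kd e = 1)
    (h1 : X.Edge g e) (h1' : X.Edge g' e) (h : ¬ dsS kd st g e) (h' : ¬ dsS kd st g' e) : g = g' := by
  have h2 := asc hs hg he h1 h
  have h3 := asc hs hg' he h1' h'
  rw [h2] at h3
  have h4 : st g = st g' := by injection h3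
  rw [← hs.lab g, h4, hs.lab g']

theorem root (hX : LX X kd m) (hs : Sct X kd m o st) {g : W} (hg : kd g = 0) (h : ∀ e, ¬ dsS kd st g e) :
    g = o := by
  have hv := hs.val g
  have hk : (st g).sk = 0 := (hs.sk g).trans hg
  have hl := hs.lab g
  have hn : ∀ e, ¬ (st g).dsc e := fun e h2 => h e ⟨hg, h2⟩
  generalize st g = σ at hv hk hl hn
  cases hv with
  | vroot _ => exact hl.symm
  | vgt _ _ _ _ _ _ _ => exact absurd hk one_ne_zero
  | vfd _ _ _ _ _ _ _ => exact absurd hk one_ne_zero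
  | vst σ e c _ _ _ _ _ => exact absurd rfl (hn (gt σ e).lab)
  | vfar π α β c _ _ _ _ _ _ _ _ _ _ _ => exact absurd (Or.inl rfl) (hn α.lab)
  | vpc _ _ _ _ _ _ _ => exact absurd hk two_ne_zero
  | vph _ _ _ _ _ _ _ => exact absurd hk two_ne_zero

theorem ds2 (hX : LX X kd m) (hs : Sct X kd m o st) {g e e' : W} (h : dsS kd st g e) (h' : dsS kd st g e')
    (hne : e ≠ e') : ∃ p, T3 X kd g e p ∧ T3 X kd g e' p ∧ dd X m (st g) p = m p ∧
      ∀ x, dsS kd st g x → x = e ∨ x = e' := by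
  have hv := hs.val g
  have hl := hs.lab g
  have hd := h.2
  have hd' := h'.2
  suffices hh : ∃ p, T3 X kd (st g).lab e p ∧ T3 X kd (st g).lab e' p ∧ dd X m (st g) p = m p ∧
      ∀ x, (st g).dsc x → x = e ∨ x = e' by
    obtain ⟨p, h1, h2, h3, h4⟩ := hh
    rw [hl] at h1 h2
    exact ⟨p, h1, h2, h3, fun x hx => h4 x hx.2⟩
  generalize st g = σ at hv hd hd' ⊢
  have hv' := hv
  cases hv with
  | vroot _ => exact (hd : False).elim
  | vgt _ _ _ _ _ _ _ => exact (hd : False).elim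
  | vfd _ _ _ _ _ _ _ => exact (hd : False).elim
  | vst σ a c _ _ _ _ _ =>
    have h1 : e = (gt σ a).lab := hd
    have h2 : e' = (gt σ a).lab := hd'
    exact absurd (h1.trans h2.symm) hne
  | vfar π α β c _ _ _ _ _ _ _ _ _ _ _ =>
    obtain ⟨_, h2, h3, _⟩ := far_sp hX hv' rfl rfl
    have h5 : dd X m (far π α β c) π.lab = m π.lab := by
      simp only [dd]
      rw [if_pos trivial]
    rcases hd with hd | hd
    · rcases hd' with hd' | hd'
      · exact absurd (hd.trans hd'.symm) hne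
      · subst hd
        subst hd'
        exact ⟨π.lab, h2, h3, h5, fun x hx => hx⟩
    · rcases hd' with hd' | hd'
      · subst hd
        subst hd'
        exact ⟨π.lab, h3, h2, h5, fun x hx => Or.symm hx⟩
      · exact absurd (hd.trans hd'.symm) hne
  | vpc _ _ _ _ _ _ _ => exact (hd : False).elim
  | vph _ _ _ _ _ _ _ => exact (hd : False).elim

theorem new_p (hX : LX X kd m) (hs : Sct X kd m o st) {g p : W} (hg : kd g = 0) (hp : kd p = 2)
    (h1 : X.Edge g p) : dd X m (st g) p = 0 ↔ ∀ e, T3 X kd g e p → ¬ dsS kd st g e := by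
  have hv := hs.val g
  have hk : (st g).sk = 0 := (hs.sk g).trans hg
  have hl := hs.lab g
  have hI := ((hv.inv hX).2 hk).1 p hp (by rw [hl]; exact h1)
  rcases hI with h2 | ⟨f, e, h2, h3, _, h5, _, _⟩ | ⟨h2, h3, α, β, h4⟩
  · exact ⟨fun _ e he h3 => h2 e h3.2 he.ep, fun _ => (hv.pp_new hX hk h2).2⟩
  · constructor
    · intro h6
      have := h5.pos
      omega
    · intro h6
      exfalso
      have h7 : dsS kd st g e := ⟨hg, h2⟩
      obtain ⟨h8, h9, h10⟩ := ds_kd hX hs h7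
      exact h6 e (hX.t3 hg h9 hp h10 h3) h7
  · have h5 := far_sp hX hv h4 h3
    rw [hl] at h5
    have h7 := hX.mu p hp
    constructor
    · intro h6
      omega
    · intro h6
      exfalso
      refine h6 α.lab h5.2.1 ⟨hg, ?_⟩
      rw [h4]
      exact Or.inl rfl

theorem full (hX : LX X kd m) (hs : Sct X kd m o st) {g e p : W} (h : T3 X kd g e p)
    (hd : dd X m (st g) p = m p) : dsS kd st g e := by
  have hg := h.1
  have hp := h.2.2.1
  have hv := hs.val g
  have hk : (st g).sk = 0 := (hs.sk g).trans hg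
  have hl := hs.lab g
  have hI := ((hv.inv hX).2 hk).1 p hp (by rw [hl]; exact h.gp)
  have h7 := hX.mu p hp
  rcases hI with h2 | ⟨f, e', _, _, h4, _, _, _⟩ | ⟨_, h3, α, β, h4⟩
  · exfalso
    have := (hv.pp_new hX hk h2).2
    omega
  · exfalso
    omega
  · have h5 := far_sp hX hv h4 h3
    rw [hl] at h5
    refine ⟨hg, ?_⟩
    rw [h4]
    exact h5.2.2.2 e h

end Sct

end Pool.Agent.H52.T2
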