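import Pool.Agent.H52.T2.Cv

/-!
# Levels of a simply connected typed complex with labels: definitions

`lv x` is the level, `dp x p` the depth of the chamber or hyperedge `x` at the point `p`, `ds g e`: the hyperedge `e` is descending at the chamber `g`, `an e p` is the angle of the hyperedge `e` at the point `p`.
`Sct` collects the properties of a section of the covering of the states (`exists_st`).
-/

set_option autoImplicit false

namespace Pool.Agent.H52.T2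

open Pool.Agent.H54.CX Pool.Agent.H98.FJ Pool.Agent.H59.DE St

variable {W : Type} {X : Cpx W} {kd : W → ℕ} {m : W → ℕ} {o : W}

/-- the hyperedge `e` is folded: it is descending at all its chambers -/
def Fd (X : Cpx W) (kd : W → ℕ) (ds : W → W → Prop) (e : W) : Prop := kd e = 1 ∧ ∀ g, kd g = 0 → X.Edge g e → ds g e

/-- levels -/
structure Lv2 (X : Cpx W) (kd m : W → ℕ) (lv : W → ℕ) (dp : W → W → ℕ) (ds : W → W → Prop) (an : W → W → ℝ)
    (o : W) : Prop where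
  o_kd : kd o = 0
  ds_kd : ∀ g e, ds g e → kd g = 0 ∧ kd e = 1 ∧ X.Edge g e
  lev : ∀ x p, kd x ≤ 1 → kd p = 2 → X.Edge x p → lv x = lv p + dp x p
  lev_ds : ∀ g e, ds g e → lv g = lv e + 1
  lev_asc : ∀ g e, kd g = 0 → kd e = 1 → X.Edge g e → ¬ ds g e → lv g = lv e
  /-- a hyperedge has at most one chamber at which it is not descending, the gate -/
  gate_u : ∀ g g' e, kd g = 0 → kd g' = 0 → kd e = 1 → X.Edge g e → X.Edge g' e → ¬ ds g e → ¬ ds g' e → g = g'
  root : ∀ g, kd g = 0 → (∀ e, ¬ ds g e) → g = o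
  ds2 : ∀ g e e', ds g e → ds g e' → e ≠ e' → ∃ p, T3 X kd g e p ∧ T3 X kd g e' p ∧ dp g p = m p ∧
    ∀ x, ds g x → x = e ∨ x = e'
  new_p : ∀ g p, kd g = 0 → kd p = 2 → X.Edge g p → (dp g p = 0 ↔ ∀ e, T3 X kd g e p → ¬ ds g e)
  full : ∀ g e p, T3 X kd g e p → dp g p = m p → ds g e
  le : ∀ g p, kd g = 0 → kd p = 2 → X.Edge g p → dp g p ≤ m p
  lt : ∀ e p, kd e = 1 → kd p = 2 → X.Edge e p → dp e p < m p
  fold : ∀ e, Fd X kd ds e → ∃ p, kd p = 2 ∧ X.Edge e p ∧ dp e p + 1 = m p ∧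
    ∀ q, kd q = 2 → X.Edge e q → q ≠ p → dp e q = 0
  lo : ∀ e p, kd e = 1 → kd p = 2 → X.Edge e p → (dp e p : ℝ) / m p ≤ an e p
  sum : ∀ e p q, kd e = 1 → kd p = 2 → kd q = 2 → X.Edge e p → X.Edge e q → p ≠ q → an e p + an e q < 1
  an_step : ∀ g e e' p, T3 X kd g e p → T3 X kd g e' p → ds g e' → ¬ ds g e → an e p = an e' p + 1 / m p
  an_new : ∀ g e e' p, T3 X kd g e p → T3 X kd g e' p → e ≠ e' → dp g p = 0 → an e p + an e' p = 1 / m p
  cg_u : ∀ g g' p, kd g = 0 → kd g' = 0 → kd p = 2 → X.Edge g p → X.Edge g' p → dp g p = 0 → dp g' p = 0 → g = g'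
  hg_u : ∀ e e' p, kd p = 2 → Fd X kd ds e → Fd X kd ds e' → X.Edge e p → X.Edge e' p → dp e p = 0 → dp e' p = 0 →
    e = e'
  cg_hg : ∀ g e p, kd g = 0 → kd p = 2 → X.Edge g p → dp g p = 0 → Fd X kd ds e → X.Edge e p → dp e p = 0 → False
  gate_ex : ∀ p, kd p = 2 → (∃ g, kd g = 0 ∧ X.Edge g p ∧ dp g p = 0) ∨ ∃ e, Fd X kd ds e ∧ X.Edge e p ∧ dp e p = 0

/-- the properties of a section -/
structure Sct (X : Cpx W) (kd m : W → ℕ) (o : W) (st : W → St W) : Prop where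
  val : ∀ x, Val X kd m o (st x)
  lab : ∀ x, (st x).lab = x
  sk : ∀ x, (st x).sk = kd x
  hs : ∀ g e, kd g = 0 → kd e = 1 → X.Edge g e → st e = hst (st g) e
  ps : ∀ x p, kd x ≤ 1 → kd p = 2 → X.Edge x p → st p = pp X (st x) p

/-- the descending hyperedges -/
def dsS (kd : W → ℕ) (st : W → St W) (g e : W) : Prop := kd g = 0 ∧ (st g).dsc e

end Pool.Agent.H52.T2
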