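import Pool.Agent.H52.T2.LvD

/-!
# [H52 T2 LVW] consequences of the levels, walks to the gate

`dp_ds`, `dp_asc`: `Lv2.lev` for `g` and `e`, `Lv2.lev_ds`, `Lv2.lev_asc`. `one_ds`: by `new_p` there is a descending hyperedge at `p`; a second one: `ds2` gives a point `p'` with `dp g p' = m p'`, `p' = p` by `hX.lg_of`: contradiction. `near`: the same. `gate_of`: `Fd` is false.
`high_uniq`: `lo` and `sum`: `dp / m ≥ 1 / 2` for both.
`fd_tie` (a folded hyperedge `e` and `2 dp e p + 1 ≤ m p`: `dp e p = 0`): `fold` gives `P`; `p = P` would give `2 (m - 1) + 1 ≤ m`, `m ≤ 1`.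
`walkC`: strong induction on `dp e p`. `e` is not folded (`fd_tie`, `cg_hg`); gate `g` of `e`, `T3 g e p` (`hX.t3`), `dp g p = dp e p`. `dp = 0`: `g = g₀` (`cg_u`), `f = e`, `Walk.nil`. `dp > 0`: `one_ds`: `e₁` at `g`, `ds g e₁`, `e₁ ≠ e`, `dp e₁ p + 1 = dp g p`; induction, `Walk.cons`;
`an_step`. `walkH`: same induction; `e` folded: `dp e p = 0` (`fd_tie`), `e = v` (`hg_u`); otherwise the gate `g`; `dp g p = 0` contradicts `cg_hg`; `dp > 0` as before.
`ff`: `gate_ex`: H-gate `v`: `walkH` for both, append the reverse: length `dp e p + dp e' p ≤ m - 1`: contradiction. C-gate `g₀`: `walkC`: `f`, `f'`. `f = f'`: the same contradiction. `f ≠ f'`: they are adjacent (`g₀`), the length is `dp e p + dp e' p + 1`, so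
`m ≤ dp e p + dp e' p + 1`, and with `2 dp + 1 ≤ m` both are equalities; `an e p + an e' p = (dp e p + dp e' p) / m + 1 / m = 1` (`an_new`).
-/

set_option autoImplicit false

namespace Pool.Agent.H52.T2

open Pool.Agent.H54.CX Pool.Agent.H98.FJ Pool.Agent.H59.DE

variable {W : Type} {X : Cpx W} {kd : W → ℕ} {m : W → ℕ} {o : W} {lv : W → ℕ} {dp : W → W → ℕ}
  {ds : W → W → Prop} {an : W → W → ℝ} {FX : W → Prop}

/-- the gate of the point `p` is a chamber -/
def Cg (X : Cpx W) (kd : W → ℕ) (dp : W → W → ℕ) (p : W) : Prop := ∃ g, kd g = 0 ∧ X.Edge g p ∧ dp g p = 0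

namespace Lv2

theorem dp_ds (hL : Lv2 X kd m lv dp ds an o) {g e p : W} (h : T3 X kd g e p) (h1 : ds g e) :
    dp g p = dp e p + 1 := by
  have a1 := hL.lev g p (by rw [h.1]; omega) h.2.2.1 h.gp
  have a2 := hL.lev e p (by rw [h.2.1]) h.2.2.1 h.ep
  have a3 := hL.lev_ds g e h1
  omega

theorem dp_asc (hL : Lv2 X kd m lv dp ds an o) {g e p : W} (h : T3 X kd g e p) (h1 : ¬ ds g e) :
    dp g p = dp e p := by
  have a1 := hL.lev g p (by rw [h.1]; omega) h.2.2.1 h.gp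
  have a2 := hL.lev e p (by rw [h.2.1]) h.2.2.1 h.ep
  have a3 := hL.lev_asc g e h.1 h.2.1 h.ge h1
  omega

/-- two descending hyperedges at the point `p` -/
theorem near (hX : LX X kd m) (hL : Lv2 X kd m lv dp ds an o) {g e e' p : W} (h : T3 X kd g e p)
    (h' : T3 X kd g e' p) (h1 : ds g e) (h1' : ds g e') (hne : e ≠ e') : dp g p = m p := by
  obtain ⟨p', t1, t2, h3, _⟩ := hL.ds2 g e e' h1 h1' hne
  have h4 : p = p' := hX.lg_of h h' t1 t2 hne
  rw [h4]
  exact h3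

theorem one_ds (hX : LX X kd m) (hL : Lv2 X kd m lv dp ds an o) {g p : W} (hg : kd g = 0) (hp : kd p = 2)
    (h1 : X.Edge g p) (h0 : 0 < dp g p) (hm : dp g p < m p) :
    ∃ e, T3 X kd g e p ∧ ds g e ∧ ∀ e', T3 X kd g e' p → ds g e' → e' = e := by
  have h2 : ¬ ∀ e, T3 X kd g e p → ¬ ds g e := fun h3 =>
    absurd ((hL.new_p g p hg hp h1).2 h3) (by omega)
  push Not at h2
  obtain ⟨e, t, he⟩ := h2
  refine ⟨e, t, he, fun e' t' he' => ?_⟩
  by_contra hne
  have h3 := hL.near hX t' t he' he hne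
  omega

theorem gate_of {e : W} (he : kd e = 1) (h : ¬ Fd X kd ds e) :
    ∃ g, kd g = 0 ∧ X.Edge g e ∧ ¬ ds g e := by
  by_contra hcon
  push Not at hcon
  exact h ⟨he, hcon⟩

/-- a hyperedge has at most one point with a large depth -/
theorem high_uniq (hX : LX X kd m) (hL : Lv2 X kd m lv dp ds an o) {e p q : W} (he : kd e = 1) (hp : kd p = 2)
    (hq : kd q = 2) (h1 : X.Edge e p) (h2 : X.Edge e q) (h3 : m p ≤ 2 * dp e p) (h4 : m q ≤ 2 * dp e q) :
    p = q := by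
  by_contra hne
  have a1 := hL.lo e p he hp h1
  have a2 := hL.lo e q he hq h2
  have a3 := hL.sum e p q he hp hq h1 h2 hne
  have key : ∀ x, kd x = 2 → m x ≤ 2 * dp e x → (1 : ℝ) / 2 ≤ (dp e x : ℝ) / m x := by
    intro x hx h5
    have h6 := hX.m_pos hx
    rw [le_div_iff₀ h6]
    have h7 : (m x : ℝ) ≤ 2 * dp e x := by exact_mod_cast h5
    linarith
  have a4 := key p hp h3
  have a5 := key q hq h4
  linarith

theorem fd_tie (hX : LX X kd m) (hL : Lv2 X kd m lv dp ds an o) {e p : W} (h : Fd X kd ds e) (hp : kd p = 2)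
    (h1 : X.Edge e p) (h2 : 2 * dp e p + 1 ≤ m p) : dp e p = 0 := by
  obtain ⟨P, _, _, h5, h6⟩ := hL.fold e h
  by_cases h7 : p = P
  · subst h7
    omega
  · exact h6 p hp h1 h7

theorem walkC (hX : LX X kd m) (hL : Lv2 X kd m lv dp ds an o) {g₀ p : W} (hg : kd g₀ = 0) (hp : kd p = 2)
    (h0 : X.Edge g₀ p) (hd : dp g₀ p = 0) : ∀ (k : ℕ) (e : W), dp e p = k → kd e = 1 → X.Edge e p →
    2 * dp e p + 1 ≤ m p → ∃ f, T3 X kd g₀ f p ∧ (∃ w : (HGr X kd p).Walk e f, w.length = k) ∧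
      an e p = (k : ℝ) / m p + an f p := by
  intro k
  induction k with
  | zero =>
    intro e hk he h1 h2
    have hnf : ¬ Fd X kd ds e := fun hf =>
      hL.cg_hg g₀ e p hg hp h0 hd hf h1 hk
    obtain ⟨g, hg', h3, h4⟩ := gate_of he hnf
    have t : T3 X kd g e p := hX.t3 hg' he hp h3 h1
    have h5 := hL.dp_asc t h4
    have h6 : g = g₀ := hL.cg_u g g₀ p hg' hg hp t.gp h0 (by omega) hd
    subst h6
    refine ⟨e, t, ⟨SimpleGraph.Walk.nil, rfl⟩, ?_⟩
    rw [Nat.cast_zero, zero_div, zero_add]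
  | succ k ih =>
    intro e hk he h1 h2
    have hnf : ¬ Fd X kd ds e := fun hf => by
      have := hL.fd_tie hX hf hp h1 h2
      omega
    obtain ⟨g, hg', h3, h4⟩ := gate_of he hnf
    have t : T3 X kd g e p := hX.t3 hg' he hp h3 h1
    have h5 := hL.dp_asc t h4
    obtain ⟨e₁, t₁, h6, _⟩ := hL.one_ds hX hg' hp t.gp (by omega) (by omega)
    have hne : e ≠ e₁ := by
      rintro rfl
      exact h4 h6
    have h7 := hL.dp_ds t₁ h6
    obtain ⟨f, tf, ⟨w, hw⟩, h8⟩ := ih e₁ (by omega) t₁.2.1 t₁.ep (by omega)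
    refine ⟨f, tf, ⟨SimpleGraph.Walk.cons (show (HGr X kd p).Adj e e₁ from ⟨hne, g, t, t₁⟩) w, ?_⟩, ?_⟩
    · rw [SimpleGraph.Walk.length_cons, hw]
    · rw [hL.an_step g e e₁ p t t₁ h6 h4, h8]
      push_cast
      ring

theorem walkH (hX : LX X kd m) (hL : Lv2 X kd m lv dp ds an o) {v p : W} (hv : Fd X kd ds v) (hp : kd p = 2)
    (h0 : X.Edge v p) (hd : dp v p = 0) : ∀ (k : ℕ) (e : W), dp e p = k → kd e = 1 → X.Edge e p →
    2 * dp e p + 1 ≤ m p → ∃ w : (HGr X kd p).Walk e v, w.length = k := by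
  intro k
  induction k with
  | zero =>
    intro e hk he h1 h2
    by_cases hf : Fd X kd ds e
    · have h3 : e = v := hL.hg_u e v p hp hf hv h1 h0 hk hd
      subst h3
      exact ⟨SimpleGraph.Walk.nil, rfl⟩
    · exfalso
      obtain ⟨g, hg', h3, h4⟩ := gate_of he hf
      have t : T3 X kd g e p := hX.t3 hg' he hp h3 h1
      have h5 := hL.dp_asc t h4
      exact hL.cg_hg g v p hg' hp t.gp (by omega) hv h0 hd
  | succ k ih =>
    intro e hk he h1 h2
    have hnf : ¬ Fd X kd ds e := fun hf => by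
      have := hL.fd_tie hX hf hp h1 h2
      omega
    obtain ⟨g, hg', h3, h4⟩ := gate_of he hnf
    have t : T3 X kd g e p := hX.t3 hg' he hp h3 h1
    have h5 := hL.dp_asc t h4
    obtain ⟨e₁, t₁, h6, _⟩ := hL.one_ds hX hg' hp t.gp (by omega) (by omega)
    have hne : e ≠ e₁ := by
      rintro rfl
      exact h4 h6
    have h7 := hL.dp_ds t₁ h6
    obtain ⟨w, hw⟩ := ih e₁ (by omega) t₁.2.1 t₁.ep (by omega)
    refine ⟨SimpleGraph.Walk.cons (show (HGr X kd p).Adj e e₁ from ⟨hne, g, t, t₁⟩) w, ?_⟩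
    rw [SimpleGraph.Walk.length_cons, hw]

theorem ff (hX : LX X kd m) (hL : Lv2 X kd m lv dp ds an o) {e e' p : W} (he : kd e = 1) (he' : kd e' = 1)
    (hp : kd p = 2) (h1 : X.Edge e p) (h2 : X.Edge e' p) (hw : ∀ w : (HGr X kd p).Walk e e', m p ≤ w.length)
    (h3 : 2 * dp e p + 1 ≤ m p) (h4 : 2 * dp e' p + 1 ≤ m p) :
    Cg X kd dp p ∧ 2 * dp e p + 1 = m p ∧ 2 * dp e' p + 1 = m p ∧ an e p + an e' p = 1 := by
  rcases hL.gate_ex p hp with ⟨g₀, hg, h0, hd⟩ | ⟨v, hv, h0, hd⟩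
  · obtain ⟨f, tf, ⟨w, hwl⟩, ha⟩ := hL.walkC hX hg hp h0 hd _ e rfl he h1 h3
    obtain ⟨f', tf', ⟨w', hwl'⟩, ha'⟩ := hL.walkC hX hg hp h0 hd _ e' rfl he' h2 h4
    by_cases hff : f = f'
    · exfalso
      subst hff
      have h5 := hw (w.append w'.reverse)
      rw [SimpleGraph.Walk.length_append, SimpleGraph.Walk.length_reverse, hwl, hwl'] at h5
      omega
    · have h5 := hw (w.append (SimpleGraph.Walk.cons
        (show (HGr X kd p).Adj f f' from ⟨hff, g₀, tf, tf'⟩) w'.reverse))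
      rw [SimpleGraph.Walk.length_append, SimpleGraph.Walk.length_cons,
        SimpleGraph.Walk.length_reverse, hwl, hwl'] at h5
      refine ⟨⟨g₀, hg, h0, hd⟩, by omega, by omega, ?_⟩
      have h6 := hL.an_new g₀ f f' p tf tf' hff hd
      have h7 : dp e p + dp e' p + 1 = m p := by omega
      have h8 : ((dp e p : ℝ) + dp e' p + 1) = m p := by exact_mod_cast h7
      have h9 := hX.m_pos hp
      have h10 : an e p + an e' p = ((dp e p : ℝ) + dp e' p + 1) / m p := by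
        rw [ha, ha']
        have h11 : ((dp e p : ℝ) / m p + an f p) + ((dp e' p : ℝ) / m p + an f' p) =
            (dp e p : ℝ) / m p + (dp e' p : ℝ) / m p + (an f p + an f' p) := by ring
        rw [h11, h6]
        ring
      rw [h10, h8, div_self h9.ne']
  · exfalso
    obtain ⟨w, hwl⟩ := hL.walkH hX hv hp h0 hd _ e rfl he h1 h3
    obtain ⟨w', hwl'⟩ := hL.walkH hX hv hp h0 hd _ e' rfl he' h2 h4
    have h5 := hw (w.append w'.reverse)
    rw [SimpleGraph.Walk.length_append, SimpleGraph.Walk.length_reverse, hwl, hwl'] at h5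
    omega

end Lv2

end Pool.Agent.H52.T2
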