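import Pool.Agent.H52.T2.Gal

/-!
# [H52 T2 POS] positions relative to a gate

The gate `v` is a chamber or a hyperedge at `p`. `Ps v j f e c`: the chamber `c` has the position `j ≥ 1`, the first hyperedge is `f`, the last one is `e`.
`toC`, `ofC`: induction. `toH`: induction (`ce` is impossible since `kd v = 1`; `step` from `hy`: `Gy.one`; `step` from a gallery: `Gy.step`). `ofGy`: a gallery with the first hyperedge `f` is a
sequence of positions of the gate `f`: induction.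
`pu_ne`: gate a chamber: `toC` and `Gy.ne_end`; if moreover `f = f'` use `ofGy` and the hyperedge case. Gate a hyperedge (`toH`): `j = 1`, `e = v`: then `j' ≥ 2` (else `e' = v`), `Gy (j'-1) f1 e' g1 c`, `g1 ∈ v`, `f1 ≠ v`,
`e' ≠ v`: if `g1 = c` then `2 m ≤ j' - 1` (`gir'`), otherwise `Gy.step` with `v` from `c` to `g1`: `2 m ≤ j'`. `j, j' ≥ 2`: `Gy (j-1) f1 e g1 c`, `Gy (j'-1) f1' e' g1' c`: if `g1 = g1'` then `Gy.ne_end`,
otherwise append the first one and the reverse of the second one (`e ≠ e'`), from `g1` to `g1'`, last hyperedge `f1' ≠ v`, then `v` from `g1'` to `g1`: `2 m ≤ j + j' - 1`.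
`pu_eq`: chamber: `Gy.eq_end`. Hyperedge: `j = 1` and `j' = 1`: fine. `j = 1`, `j' ≥ 2`: `e = v`, but the last hyperedge `e'` of the second one is `v`: the previous chamber `c'` has position `j' - 1` with the last hyperedge `≠ v`, `c' ∈ v`:
`j' - 1 = 1` would give the last hyperedge `v`; so `Gy (j'-2) f1 e1 g1 c'`, `e1 ≠ v`, `f1 ≠ v`: if `c' = g1` then `2 m ≤ j' - 2`, else closing with `v`: `2 m ≤ j' - 1`. `j, j' ≥ 2`, same `e`: if `g1 = g1'`: `Gy.eq_end` (`j = j'`; else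
`2 m + 1 ≤ j + j' - 2`). If `g1 ≠ g1'`: prepend `v` (`Gy.cons`) to the first one: `Gy j v e g1' c` and `Gy (j'-1) f1' e g1' c`: `Gy.eq_end`: either `v = f1'` (no) or `2 m + 1 ≤ j + j' - 1`.
`pu2`: like `Gy.pred_eq`: if `c1 ≠ c2` then `Ps (j+1) f x c2` and `Ps j' f' e' c2`, `pu_ne`. `pu2_base` : `Gy.pred_base`. `ne_gate`: `gir'`.
-/

set_option autoImplicit false

namespace Pool.Agent.H52.T2

open Pool.Agent.H54.CX Pool.Agent.H98.FJ Pool.Agent.H59.DE

variable {W : Type} {X : Cpx W} {kd : W → ℕ} {m : W → ℕ} {p v : W}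

/-- the positions of the chambers at the point `p` relative to the gate `v` -/
inductive Ps (X : Cpx W) (kd : W → ℕ) (p v : W) : ℕ → W → W → W → Prop
  | hy (c : W) : T3 X kd c v p → Ps X kd p v 1 v v c
  | ce (e c : W) : T3 X kd v e p → T3 X kd c e p → v ≠ c → Ps X kd p v 1 e e c
  | step (j : ℕ) (f e c e' c' : W) : Ps X kd p v j f e c → e' ≠ e → T3 X kd c e' p → T3 X kd c' e' p → c ≠ c' →
      Ps X kd p v (j + 1) f e' c'

/-- the chamber `c` is far from the gate `v` -/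
def FarC (X : Cpx W) (kd m : W → ℕ) (p v c : W) : Prop := c ≠ v ∧ ∀ j f e, Ps X kd p v j f e c → m p ≤ j

theorem Ps.pos {j : ℕ} {f e c : W} (h : Ps X kd p v j f e c) : 1 ≤ j := by
  cases h with
  | hy => exact le_rfl
  | ce => exact le_rfl
  | step => omega

theorem Ps.lst {j : ℕ} {f e c : W} (h : Ps X kd p v j f e c) : T3 X kd c e p := by
  cases h with
  | hy _ h1 => exact h1
  | ce _ _ _ h2 => exact h2
  | step _ _ _ _ _ _ _ _ _ h4 => exact h4

theorem Ps.toC {j : ℕ} {f e c : W} (h : Ps X kd p v j f e c) (hv : kd v = 0) : Gy X kd p j f e v c := by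
  induction h with
  | hy c h1 => exact absurd (hv.symm.trans h1.2.1) (by norm_num)
  | ce e c h1 h2 h3 => exact Gy.one e v c h1 h2 h3
  | step j f e c e' c' _ h1 h2 h3 h4 ih => exact Gy.step j f e v c e' c' ih h1 h2 h3 h4

theorem Ps.ofC {j : ℕ} {f e c : W} (h : Gy X kd p j f e v c) : Ps X kd p v j f e c := by
  induction h with
  | one e g g' h1 h2 h3 => exact Ps.ce e g' h1 h2 h3
  | step n f e g g' e' g'' _ h1 h2 h3 h4 ih => exact Ps.step n f e g' e' g'' ih h1 h2 h3 h4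

theorem Ps.ofGy {j : ℕ} {f e g c : W} (h : Gy X kd p j f e g c) : Ps X kd p f j f e c := by
  induction h with
  | one e g g' h1 h2 h3 => exact Ps.hy g' h2
  | step n f e g g' e' g'' _ h1 h2 h3 h4 ih => exact Ps.step n f e g' e' g'' ih h1 h2 h3 h4

theorem Ps.toH {j : ℕ} {f e c : W} (h : Ps X kd p v j f e c) (hv : kd v = 1) : f = v ∧
    ((j = 1 ∧ e = v ∧ T3 X kd c v p) ∨
      ∃ k f₁ g₁, j = k + 1 ∧ T3 X kd g₁ v p ∧ f₁ ≠ v ∧ Gy X kd p k f₁ e g₁ c) := by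
  induction h with
  | hy c h1 => exact ⟨rfl, Or.inl ⟨rfl, rfl, h1⟩⟩
  | ce e c h1 h2 h3 => exact absurd (hv.symm.trans h1.1) (by norm_num)
  | step j f e c e' c' _ h1 h2 h3 h4 ih =>
    obtain ⟨hf, ⟨hj, he, hc⟩ | ⟨k, f₁, g₁, hj, hg, hf₁, hG⟩⟩ := ih
    · subst hj
      subst he
      exact ⟨hf, Or.inr ⟨1, e', c, rfl, hc, h1, Gy.one e' c c' h2 h3 h4⟩⟩
    · subst hj
      exact ⟨hf, Or.inr ⟨k + 1, f₁, g₁, rfl, hg, hf₁, Gy.step k f₁ e g₁ c e' c' hG h1 h2 h3 h4⟩⟩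

/-- the first hyperedge of a position of a gate chamber -/
theorem Ps.fst {j : ℕ} {f e c : W} (h : Ps X kd p v j f e c) (hv : kd v = 0) : T3 X kd v f p :=
  (h.toC hv).fst

private theorem Ps.kd01 {j : ℕ} {f e c : W} (h : Ps X kd p v j f e c) : kd v = 0 ∨ kd v = 1 := by
  induction h with
  | hy c h1 => exact Or.inr h1.2.1
  | ce e c h1 h2 h3 => exact Or.inl h1.1
  | step j f e c e' c' _ h1 h2 h3 h4 ih => exact ih

/-- the case of a hyperedge gate, one of the two galleries trivial -/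
private theorem Ps.hne_aux (hX : LX X kd m) {k' : ℕ} {e' c f₁ g₁ : W}
    (hc : T3 X kd c v p) (hg : T3 X kd g₁ v p) (hG : Gy X kd p k' f₁ e' g₁ c)
    (h1 : v ≠ e') : 2 * m p ≤ k' + 1 := by
  by_cases h2 : c = g₁
  · subst h2
    have := gir' hX hG
    omega
  · exact gir' hX (Gy.step k' f₁ e' g₁ c v g₁ hG h1 hc hg h2)

private theorem Ps.hne (hX : LX X kd m) {j j' : ℕ} {f f' e e' c : W} (hv : kd v = 1)
    (h : Ps X kd p v j f e c) (h' : Ps X kd p v j' f' e' c) (h1 : e ≠ e') :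
    2 * m p + 1 ≤ j + j' := by
  obtain ⟨_, ⟨hj, he, hc⟩ | ⟨k, f₁, g₁, hj, hg, hf₁, hG⟩⟩ := h.toH hv
  · obtain ⟨_, ⟨hj', he', hc'⟩ | ⟨k', f₁', g₁', hj', hg', hf₁', hG'⟩⟩ := h'.toH hv
    · exact absurd (he.trans he'.symm) h1
    · have h2 := Ps.hne_aux hX hc hg' hG' (fun h3 => h1 (he.trans h3))
      omega
  · obtain ⟨_, ⟨hj', he', hc'⟩ | ⟨k', f₁', g₁', hj', hg', hf₁', hG'⟩⟩ := h'.toH hv
    · have h2 := Ps.hne_aux hX hc' hg hG (fun h3 => h1 (h3.symm.trans he'.symm))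
      omega
    · by_cases h2 : g₁ = g₁'
      · subst h2
        have := Gy.ne_end hX hG hG' h1
        omega
      · have h3 := Gy.append hG hG'.rev h1
        have h4 := gir' hX (Gy.step _ f₁ f₁' g₁ g₁' v g₁ h3 (Ne.symm hf₁') hg' hg (Ne.symm h2))
        omega

theorem Ps.pu_ne (hX : LX X kd m) {j j' : ℕ} {f f' e e' c : W} (h : Ps X kd p v j f e c)
    (h' : Ps X kd p v j' f' e' c) (h1 : e ≠ e') :
    2 * m p ≤ j + j' ∧ (f = f' → 2 * m p + 1 ≤ j + j') := by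
  rcases h.kd01 with hv | hv
  · refine ⟨Gy.ne_end hX (h.toC hv) (h'.toC hv) h1, fun hf => ?_⟩
    subst hf
    have h2 := h.fst hv
    exact Ps.hne hX h2.2.1 (Ps.ofGy (h.toC hv)) (Ps.ofGy (h'.toC hv)) h1
  · have h2 := Ps.hne hX hv h h' h1
    exact ⟨by omega, fun _ => h2⟩

private theorem Ps.heq_aux (hX : LX X kd m) {k' : ℕ} {c f₁ g₁ : W}
    (hg : T3 X kd g₁ v p) (hf : f₁ ≠ v) (hG : Gy X kd p k' f₁ v g₁ c) :
    2 * m p ≤ k' := by
  rcases hG.unlst with ⟨_, h2, _⟩ | ⟨l, e₁, c', hk, h3, h4, h5, h6, h7⟩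
  · exact absurd h2 hf
  · by_cases h8 : c' = g₁
    · subst h8
      have := gir' hX h7
      omega
    · have := gir' hX (Gy.step l f₁ e₁ g₁ c' v g₁ h7 (Ne.symm h6) h3 hg h8)
      omega

theorem Ps.pu_eq (hX : LX X kd m) {j j' : ℕ} {f f' e c : W} (h : Ps X kd p v j f e c)
    (h' : Ps X kd p v j' f' e c) : (j = j' ∧ f = f') ∨ 2 * m p + 1 ≤ j + j' := by
  rcases h.kd01 with hv | hv
  · exact Gy.eq_end hX (h.toC hv) (h'.toC hv)
  · obtain ⟨hf, ⟨hj, he, hc⟩ | ⟨k, f₁, g₁, hj, hg, hf₁, hG⟩⟩ := h.toH hv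
    · obtain ⟨hf', ⟨hj', he', hc'⟩ | ⟨k', f₁', g₁', hj', hg', hf₁', hG'⟩⟩ := h'.toH hv
      · exact Or.inl ⟨hj.trans hj'.symm, hf.trans hf'.symm⟩
      · subst he
        have := Ps.heq_aux hX hg' hf₁' hG'
        right
        omega
    · obtain ⟨hf', ⟨hj', he', hc'⟩ | ⟨k', f₁', g₁', hj', hg', hf₁', hG'⟩⟩ := h'.toH hv
      · subst he'
        have := Ps.heq_aux hX hg hf₁ hG
        right
        omega
      · by_cases h2 : g₁ = g₁'
        · subst h2
          rcases Gy.eq_end hX hG hG' with ⟨h3, h4⟩ | h3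
          · exact Or.inl ⟨by omega, hf.trans hf'.symm⟩
          · right
            omega
        · have h3 := hG.cons hg' hg (Ne.symm h2) (Ne.symm hf₁)
          rcases Gy.eq_end hX h3 hG' with ⟨_, h4⟩ | h4
          · exact absurd h4.symm hf₁'
          · right
            omega

/-- the gate is not at a position less than `2 m` -/
theorem Ps.ne_gate (hX : LX X kd m) {j : ℕ} {f e : W} (h : Ps X kd p v j f e v) : 2 * m p ≤ j :=
  gir' hX (h.toC h.lst.1)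

theorem Ps.pu2 (hX : LX X kd m) {j j' : ℕ} {f f' e e' c₁ c₂ x : W} (h : Ps X kd p v j f e c₁)
    (h' : Ps X kd p v j' f' e' c₂) (h1 : x ≠ e) (h2 : x ≠ e') (h3 : T3 X kd c₁ x p) (h4 : T3 X kd c₂ x p) :
    c₁ = c₂ ∨ 2 * m p ≤ j + j' + 1 := by
  by_cases h5 : c₁ = c₂
  · exact Or.inl h5
  · right
    have h6 := (Ps.pu_ne hX (Ps.step j f e c₁ x c₂ h h1 h3 h4 h5) h' h2).1
    omega

theorem Ps.pu2_base (hX : LX X kd m) {j : ℕ} {f e c x : W} (h : Ps X kd p v j f e c)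
    (h1 : x ≠ e) (h3 : T3 X kd c x p) (h4 : T3 X kd v x p) : 2 * m p ≤ j + 1 :=
  Gy.pred_base hX (h.toC h4.1) h1 h3 h4

/-- positions less than `m` are unique -/
theorem Ps.uniq (hX : LX X kd m) {j j' : ℕ} {f f' e e' c : W} (h : Ps X kd p v j f e c)
    (h' : Ps X kd p v j' f' e' c) (h1 : j + j' < 2 * m p) : j = j' ∧ f = f' ∧ e = e' := by
  by_cases he : e = e'
  · subst he
    rcases h.pu_eq hX h' with ⟨h2, h3⟩ | h2
    · exact ⟨h2, h3, rfl⟩
    · omega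
  · have := (h.pu_ne hX h' he).1
    omega

end Pool.Agent.H52.T2
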