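import Pool.Agent.H56.DR.HasRep

/-!
# The representation of an Artin group in which every generator has a finite label at least three

As in H56/DR/Rep (large type), with the labels two: then the transvections commute, and `T_i ^ k T_j ^ l = 1 + k E_i + l E_j`.
-/

set_option autoImplicit false

namespace Pool.Agent.H52.T2

open Pool.Agent.H52.PAG Pool.Agent.H54.DD Pool.Agent.H56.DR Pool.Agent.H54.AR
open Pool.Agent.H56.DC hiding par

variable {B K : Type} [Fintype B] [DecidableEq B] [CommRing K]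

/-- the data: an embedding of `K` in `ℝ`, elements `lam i j` with the images `2 cos (π / M i j)`, an order -/
structure Dat2 (K : Type) [CommRing K] (M : CoxeterMatrix B) where
  /-- the embedding -/
  φ : K →+* ℝ
  φinj : Function.Injective φ
  /-- the numbers `2 cos (π / m)` -/
  lam : B → B → K
  /-- an order of the generators -/
  ord : B → ℕ
  inj : Function.Injective ord
  three : ∀ i, ∃ t, i ≠ t ∧ 3 ≤ M i t
  hlam : ∀ i j, i ≠ j → M i j ≠ 0 → φ (lam i j) = LL (M i j)

theorem LL_two : LL 2 = 0 := by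
  simp [LL]

/-- products of transvections -/
theorem Em_mul (a : B → B → K) {i j : B} (h : a j i = 0) : Em a i * Em a j = 0 := by
  ext x t
  rw [Matrix.mul_apply, Matrix.zero_apply]
  refine Finset.sum_eq_zero fun u _ => ?_
  show (if x = i then a u i else 0) * (if u = j then a t j else 0) = 0
  by_cases hu : u = j
  · subst hu
    by_cases hi : x = i
    · rw [if_pos hi, h, zero_mul]
    · rw [if_neg hi, zero_mul]
  · rw [if_neg hu, mul_zero]

/-- powers of transvections -/
theorem Tu_zpow (a : B → B → K) {s : B} (h : a s s = 0) (k : ℤ) : (Tu a s h ^ k).1 = 1 + k • Em a s := by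
  have h1 : ∀ n : ℕ, (Tu a s h ^ n).1 = 1 + (n : ℤ) • Em a s := by
    intro n
    induction n with
    | zero => simp
    | succ n ih =>
      rw [pow_succ, Units.val_mul, ih]
      show (1 + (n : ℤ) • Em a s) * (1 + Em a s) = _
      rw [mul_add, mul_one, add_mul, one_mul, smul_mul_assoc, Em_sq a h, smul_zero, add_zero]
      push_cast
      rw [add_smul, one_smul]
      abel
  have h2 : ∀ n : ℕ, ((Tu a s h ^ n)⁻¹).1 = 1 + (-(n : ℤ)) • Em a s := by
    intro n
    have h3 : (Tu a s h ^ n)⁻¹ = ⟨1 + (-(n : ℤ)) • Em a s, 1 + (n : ℤ) • Em a s, by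
      rw [mul_add, mul_one, add_mul, one_mul, smul_mul_smul_comm, Em_sq a h, smul_zero, add_zero, neg_smul]
      abel, by
      rw [mul_add, mul_one, add_mul, one_mul, smul_mul_smul_comm, Em_sq a h, smul_zero, add_zero, neg_smul]
      abel⟩ := by
      rw [inv_eq_iff_eq_inv]
      exact Units.ext (h1 n)
    rw [h3]
  obtain ⟨n, rfl | rfl⟩ := k.eq_nat_or_neg
  · rw [zpow_natCast, h1]
  · rw [zpow_neg, zpow_natCast, h2]

namespace Dat2

variable {M : CoxeterMatrix B} (D : Dat2 K M) [IsDomain K]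

/-- the form -/
def a : B → B → K := aa D.lam D.ord

theorem a_self (i : B) : D.a i i = 0 := aa_self _ _ i

theorem lt_or (i j : B) (h : i ≠ j) : D.ord j < D.ord i ∨ D.ord i < D.ord j :=
  (lt_or_gt_of_ne fun e => h (D.inj e)).symm

theorem vals {i j : B} (h : D.ord j < D.ord i) (hm : M i j ≠ 0) :
    D.φ (D.a j i) = LL (M i j) ∧ D.φ (D.a i j) = -LL (M i j) := by
  have hij : j ≠ i := by
    rintro rfl
    omega
  have hm' : M j i ≠ 0 := by rwa [M.symmetric]
  have h1 := D.hlam j i hij hm'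
  rw [M.symmetric j i] at h1
  obtain ⟨h5, h6⟩ := aa_lt D.lam D.ord h
  refine ⟨?_, ?_⟩
  · show D.φ (aa D.lam D.ord j i) = _
    rw [h5, h1]
  · show D.φ (aa D.lam D.ord i j) = _
    rw [h6, map_neg, h1]

theorem pair {i j : B} (h : D.ord j < D.ord i) (h3 : 3 ≤ M i j) :
    D.φ (D.a j i) = LL (M i j) ∧ D.φ (D.a i j) = -LL (M i j) ∧ D.a i j ≠ 0 ∧ D.a j i ≠ 0 := by
  obtain ⟨h1, h2⟩ := D.vals h (by omega)
  have h4 := LL_pos h3
  refine ⟨h1, h2, fun e => ?_, fun e => ?_⟩
  · rw [e, map_zero] at h2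
    linarith
  · rw [e, map_zero] at h1
    linarith

/-- label two: the form is zero -/
theorem two {i j : B} (hij : i ≠ j) (h2 : M i j = 2) : D.a i j = 0 ∧ D.a j i = 0 := by
  rcases D.lt_or i j hij with h | h
  · obtain ⟨h3, h4⟩ := D.vals h (by omega)
    rw [h2, LL_two] at h3 h4
    rw [neg_zero] at h4
    exact ⟨D.φinj (h4.trans (map_zero _).symm), D.φinj (h3.trans (map_zero _).symm)⟩
  · obtain ⟨h3, h4⟩ := D.vals h (by rw [M.symmetric]; omega)
    rw [M.symmetric j i, h2, LL_two] at h3 h4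
    rw [neg_zero] at h4
    exact ⟨D.φinj (h3.trans (map_zero _).symm), D.φinj (h4.trans (map_zero _).symm)⟩

/-- every generator has a nonzero value of the form -/
theorem exists_ne (i : B) : ∃ t, D.a t i ≠ 0 := by
  obtain ⟨t, hit, h3⟩ := D.three i
  refine ⟨t, ?_⟩
  rcases D.lt_or i t hit with h | h
  · exact (D.pair h h3).2.2.2
  · exact (D.pair h (by rwa [M.symmetric])).2.2.1

theorem braid_lt {i j : B} (h : D.ord j < D.ord i) (h3 : 3 ≤ M i j) :
    alt (Tm D.a i) (Tm D.a j) (M i j) = alt (Tm D.a j) (Tm D.a i) (M i j) := by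
  obtain ⟨h1, h2, h4, h4'⟩ := D.pair h h3
  have h5 := (relR_fst (D.a_self i) (D.a_self j) h1).alt (relR_snd (D.a_self i) (D.a_self j) h2) (M i j)
  have h6 := (relR_snd (D.a_self i) (D.a_self j) h2).alt (relR_fst (D.a_self i) (D.a_self j) h1) (M i j)
  rw [← braid_G2 (by omega)] at h6
  exact h5.inj D.φinj (D.a_self i) (D.a_self j) h4 h4' h6

/-- the transvections -/
def T (i : B) : GL B K := Tu D.a i (D.a_self i)

theorem comm {i j : B} (hij : i ≠ j) (h2 : M i j = 2) : D.T i * D.T j = D.T j * D.T i := by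
  obtain ⟨h3, h4⟩ := D.two hij h2
  apply Units.ext
  show (1 + Em D.a i) * (1 + Em D.a j) = (1 + Em D.a j) * (1 + Em D.a i)
  rw [mul_add, mul_one, add_mul, one_mul, Em_mul D.a h4, add_zero, mul_add, mul_one, add_mul, one_mul,
    Em_mul D.a h3, add_zero]
  abel

theorem braid (i j : B) (hm : M i j ≠ 0) : alt (D.T i) (D.T j) (M i j) = alt (D.T j) (D.T i) (M i j) := by
  rcases eq_or_ne i j with rfl | hij
  · rfl
  · have hm2 : 2 ≤ M i j := by
      have h4 := M.off_diagonal i j hij
      have h6 : M.M i j = M i j := rfl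
      omega
    rcases Nat.eq_or_lt_of_le hm2 with h2 | h3
    · rw [← h2]
      show D.T i * (D.T j * 1) = D.T j * (D.T i * 1)
      rw [mul_one, mul_one]
      exact D.comm hij h2.symm
    · apply Units.ext
      have key : ∀ (x y : B) (n : ℕ), (alt (D.T x) (D.T y) n : GL B K).1 = alt (Tm D.a x) (Tm D.a y) n := by
        intro x y n
        exact map_alt (Units.coeHom (Matrix B B K)) (D.T x) (D.T y) n
      rw [key, key]
      rcases D.lt_or i j hij with h | h
      · exact D.braid_lt h h3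
      · have hm' : 3 ≤ M j i := by rwa [M.symmetric]
        rw [M.symmetric i j]
        exact (D.braid_lt h hm').symm

/-- the representation -/
def rho : Art M →* GL B K := lift D.T D.braid

theorem rho_gen (i : B) : D.rho (gen M i) = D.T i := lift_gen _ _ i

theorem rel_inc {i j : B} (h : D.ord j < D.ord i) (hm : M i j ≠ 0) (h3 : 3 ≤ M i j) (h2 : 2 ≤ M i j)
    (x : DA (M i j)) : RelR D.φ D.a i j (D.rho (inc M i j hm x)).1 (rho2 h2 x) := by
  obtain ⟨h3, h4, -, -⟩ := D.pair h h3
  have e1 : D.rho (inc M i j hm (dg (M i j) false)) = D.T i := by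
    rw [inc_dg]
    exact D.rho_gen i
  have e2 : D.rho (inc M i j hm (dg (M i j) true)) = D.T j := by
    rw [inc_dg]
    exact D.rho_gen j
  have r1 : rho2 h2 (dg (M i j) false) = SS (LL (M i j)) := dlift_dg _ _ false
  have r2 : rho2 h2 (dg (M i j) true) = TT (LL (M i j)) := dlift_dg _ _ true
  have p1 : RelR D.φ D.a i j (D.T i).1 (SS (LL (M i j))) := relR_fst (D.a_self i) (D.a_self j) h3
  have p2 : RelR D.φ D.a i j (D.T j).1 (TT (LL (M i j))) := relR_snd (D.a_self i) (D.a_self j) h4
  have q1 : RelR D.φ D.a i j ((D.T i)⁻¹).1 (SS (LL (M i j)))⁻¹ :=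
    relR_fst_inv (D.a_self i) (D.a_self j) h3
  have q2 : RelR D.φ D.a i j ((D.T j)⁻¹).1 (TT (LL (M i j)))⁻¹ :=
    relR_snd_inv (D.a_self i) (D.a_self j) h4
  induction x using da_induction with
  | h1 =>
    rw [map_one, map_one, map_one]
    exact RelR.one i j
  | h2 x e ih =>
    rw [map_mul, map_mul, map_mul, Units.val_mul]
    refine ih.mul ?_
    cases e
    · rw [e1, r1]
      exact p1
    · rw [e2, r2]
      exact p2
  | h3 x e ih =>
    rw [map_mul, map_mul, map_mul, map_inv, map_inv, map_inv, Units.val_mul]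
    refine ih.mul ?_
    cases e
    · rw [e1, r1]
      exact q1
    · rw [e2, r2]
      exact q2

theorem closure_lt {i j : B} (h : D.ord j < D.ord i) (h3 : 3 ≤ M i j) {g : Art M}
    (hg : g ∈ Subgroup.closure {gen M i, gen M j}) (h6 : D.rho g = 1) (h7 : dg1 M g = 1) : g = 1 := by
  have hm : M i j ≠ 0 := by omega
  rw [← inc_range M i j hm] at hg
  obtain ⟨x, rfl⟩ := hg
  have h2 : 2 ≤ M i j := by omega
  obtain ⟨-, -, h4, h5⟩ := D.pair h h3
  have h6' : D.rho (inc M i j hm x) = 1 := h6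
  have h7' : dg1 M (inc M i j hm x) = 1 := h7
  rw [Dat.dg1_inc] at h7'
  have h8 := D.rel_inc h hm h3 h2 x
  rw [h6'] at h8
  have h9 := h8.eq_one (D.a_self i) (D.a_self j) h4 h5
  show inc M i j hm x = 1
  rw [rho2_inj h3 h2 h9 h7', map_one]

/-- label two -/
theorem closure_two {i j : B} (hij : i ≠ j) (h2 : M i j = 2) {g : Art M}
    (hg : g ∈ Subgroup.closure {gen M i, gen M j}) (h6 : D.rho g = 1) (h7 : dg1 M g = 1) : g = 1 := by
  have hc : Commute (gen M i) (gen M j) := by
    have h3 := gen_rel (M := M) (i := i) (j := j) (by omega)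
    rw [h2] at h3
    have h4 : gen M i * (gen M j * 1) = gen M j * (gen M i * 1) := h3
    rwa [mul_one, mul_one] at h4
  have hkl : ∃ k l : ℤ, g = gen M i ^ k * gen M j ^ l := by
    refine Subgroup.closure_induction ?_ ?_ ?_ ?_ hg
    · rintro x (rfl | rfl)
      · exact ⟨1, 0, by simp⟩
      · exact ⟨0, 1, by simp⟩
    · exact ⟨0, 0, by simp⟩
    · rintro x y - - ⟨k, l, rfl⟩ ⟨k', l', rfl⟩
      refine ⟨k + k', l + l', ?_⟩
      rw [zpow_add, zpow_add, mul_assoc, mul_assoc, ← mul_assoc (gen M j ^ l), ((hc.zpow_zpow k' l).eq).symm,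
        mul_assoc]
    · rintro x - ⟨k, l, rfl⟩
      refine ⟨-k, -l, ?_⟩
      rw [mul_inv_rev, zpow_neg, zpow_neg, ← zpow_neg, ← zpow_neg]
      exact ((hc.zpow_zpow (-k) (-l)).eq).symm
  obtain ⟨k, l, rfl⟩ := hkl
  obtain ⟨h3, h4⟩ := D.two hij h2
  have h8 : (D.rho (gen M i ^ k * gen M j ^ l)).1 = 1 := by rw [h6]; rfl
  rw [map_mul, map_zpow, map_zpow, D.rho_gen, D.rho_gen, Units.val_mul, T, T, Tu_zpow, Tu_zpow, mul_add,
    mul_one, add_mul, one_mul, smul_mul_smul_comm, Em_mul D.a h4, smul_zero, add_zero] at h8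
  have h9 : k • Em D.a i + l • Em D.a j = 0 := by
    have := h8
    rw [add_assoc] at this
    exact add_eq_left.1 this
  have key : k = 0 := by
    obtain ⟨t, ht⟩ := D.exists_ne i
    have h10 := congrFun (congrFun h9 i) t
    have h11 : k • D.a t i = 0 := by
      have e1 : (k • Em D.a i + l • Em D.a j) i t = k • (if i = i then D.a t i else 0) +
        l • (if i = j then D.a t j else 0) := rfl
      rw [e1, if_pos rfl, if_neg hij, smul_zero, add_zero] at h10
      exact h10
    have h12 := congrArg D.φ h11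
    rw [map_zsmul, map_zero, zsmul_eq_mul, mul_eq_zero] at h12
    rcases h12 with h12 | h12
    · exact_mod_cast h12
    · exact (ht (D.φinj (h12.trans (map_zero _).symm))).elim
  subst key
  rw [map_mul, map_zpow, map_zpow, zpow_zero, one_mul, dg1_gen, ← ofAdd_zsmul, smul_eq_mul, mul_one] at h7
  have h13 : l = 0 := Multiplicative.ofAdd.injective h7
  rw [h13, zpow_zero, zpow_zero, one_mul]

/-- injective on the subgroups generated by two generators -/
theorem closure_all {i j : B} (hij : i ≠ j) (hm : M i j ≠ 0) {g : Art M}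
    (hg : g ∈ Subgroup.closure {gen M i, gen M j}) (h6 : D.rho g = 1) (h7 : dg1 M g = 1) : g = 1 := by
  have hm2 : 2 ≤ M i j := by
    have h4 := M.off_diagonal i j hij
    have h6 : M.M i j = M i j := rfl
    omega
  rcases Nat.eq_or_lt_of_le hm2 with h2 | h3
  · exact D.closure_two hij h2.symm hg h6 h7
  rcases D.lt_or i j hij with h | h
  · exact D.closure_lt h h3 hg h6 h7
  · rw [Set.pair_comm] at hg
    exact D.closure_lt h (by rwa [M.symmetric]) hg h6 h7

end Dat2

open Classical in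
/-- the data for a finite set of generators -/
noncomputable def dat2 {B : Type} [Fintype B] (M : CoxeterMatrix B) (h : ∀ i, ∃ t, i ≠ t ∧ 3 ≤ M i t)
    (F : Finset ℕ) (hF : ∀ i j, M i j ∈ F) : Dat2 (cosRing F) M where
  φ := (cosRing F).val.toRingHom
  φinj := Subtype.val_injective
  lam i j := ⟨2 * Real.cos (Real.pi / (M i j : ℕ)), mem_cosRing (hF i j)⟩
  ord i := (Fintype.equivFin B i : ℕ)
  inj := fun i j hij => (Fintype.equivFin B).injective (Fin.ext hij)
  three := h
  hlam _ _ _ _ := rfl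

theorem hasRep2 (B : Type) [Finite B] (M : CoxeterMatrix B) (h : ∀ i, ∃ t, i ≠ t ∧ 3 ≤ M i t) : HasRep M := by
  classical
  have : Fintype B := Fintype.ofFinite B
  let F : Finset ℕ := Finset.univ.image fun p : B × B => M p.1 p.2
  have hF : ∀ i j, M i j ∈ F := fun i j => Finset.mem_image.2 ⟨(i, j), Finset.mem_univ _, rfl⟩
  let D := dat2 M h F hF
  refine ⟨B, inferInstance, inferInstance, F, D.rho, ?_⟩
  intro i j hij hm g hg h1 h2
  refine D.closure_all hij hm (g := g) ?_ h1 h2
  rwa [Pool.Agent.H56.DC.par, Set.image_pair] at hg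

end Pool.Agent.H52.T2
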