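import Pool.Agent.H52.T2.Kg

/-!
# [H52 T2 RK] the rank

`rk2 x = (4 D(x) + cl(x), w(x))`, lexicographic. `D (g) = 2 lv g`, `D (e) = 2 lv e + 1`, `D (p) = 2 lv p + m p`. With `Lv2.lev`: `D (e) = 2 lv p + 2 dp e p + 1`, `D (g) = 2 lv p + 2 dp g p`. `cl ≤ 3`, so different `D` decide; if the `D` are equal, `cl` decides: `cl g = 0`, `cl e = 1, 2`, `cl p = 2, 3`.
`ge_iff`: `ds g e`: `D (g) = 2 lv e + 2 > D (e)`; otherwise `D (g) = 2 lv e < D (e)`. `gp_iff`, `pg_iff`: `D (g) ≤ D (p)` iff `2 dp g p ≤ m p`, and `cl g < cl p`. `ep_iff`, `pe_iff`: a tie `2 dp e p + 1 = m p`: if `e` is not fixed: `cl e = 1 < cl p`, `KE` is false; if `e` is fixed then `p` is fixed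
(`FixP2.pt`); `p` not C-gated: `cl e = 2 < 3 = cl p`; otherwise `KE e p`, `cl e = cl p = 2`, `dst` decides (`Dst.ne`). `rk2_ne`: from these by the kinds of `x`, `y` (all six cases: `hX.kd_le`, `hX.kd_ne`).
-/

set_option autoImplicit false

namespace Pool.Agent.H52.T2

open Pool.Agent.H54.CX Pool.Agent.H98.FJ Pool.Agent.H59.DE

variable {W : Type} {X : Cpx W} {kd : W → ℕ} {m : W → ℕ} {o : W} {lv : W → ℕ} {dp : W → W → ℕ}
  {ds : W → W → Prop} {an : W → W → ℝ} {FX : W → Prop} {dst : W → ℕ}

/-- the distance from the base -/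
def Dk (kd m lv : W → ℕ) (x : W) : ℕ :=
  if kd x = 0 then 2 * lv x else if kd x = 1 then 2 * lv x + 1 else 2 * lv x + m x

open Classical in
/-- the class -/
noncomputable def cl2 (X : Cpx W) (kd : W → ℕ) (dp : W → W → ℕ) (FX : W → Prop) (x : W) : ℕ :=
  if kd x = 0 then 0 else if kd x = 1 then (if FX x then 2 else 1) else (if FX x ∧ Cg X kd dp x then 2 else 3)

/-- the rank -/
noncomputable def rk2 (X : Cpx W) (kd m lv : W → ℕ) (dp : W → W → ℕ) (FX : W → Prop) (dst : W → ℕ) (x : W) :
    ℕ ×ₗ ℕ :=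
  toLex (4 * Dk kd m lv x + cl2 X kd dp FX x, if cl2 X kd dp FX x = 2 then dst x else 0)

private theorem rk2_lt (x y : W) :
    rk2 X kd m lv dp FX dst x < rk2 X kd m lv dp FX dst y ↔
      4 * Dk kd m lv x + cl2 X kd dp FX x < 4 * Dk kd m lv y + cl2 X kd dp FX y ∨
      (4 * Dk kd m lv x + cl2 X kd dp FX x = 4 * Dk kd m lv y + cl2 X kd dp FX y ∧
        (if cl2 X kd dp FX x = 2 then dst x else 0) < (if cl2 X kd dp FX y = 2 then dst y else 0)) := by
  rw [rk2, rk2, Prod.Lex.toLex_lt_toLex]

private theorem dk0 {g : W} (hg : kd g = 0) : Dk kd m lv g = 2 * lv g := by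
  rw [Dk, if_pos hg]

private theorem dk1 {e : W} (he : kd e = 1) : Dk kd m lv e = 2 * lv e + 1 := by
  rw [Dk, if_neg (by omega), if_pos he]

private theorem dk2 {p : W} (hp : kd p = 2) : Dk kd m lv p = 2 * lv p + m p := by
  rw [Dk, if_neg (by omega), if_neg (by omega)]

private theorem cl0 {g : W} (hg : kd g = 0) : cl2 X kd dp FX g = 0 := by
  rw [cl2, if_pos hg]

private theorem cl1 {e : W} (he : kd e = 1) :
    (FX e ∧ cl2 X kd dp FX e = 2) ∨ (¬ FX e ∧ cl2 X kd dp FX e = 1) := by
  by_cases h : FX e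
  · left
    exact ⟨h, by rw [cl2, if_neg (by omega), if_pos he, if_pos h]⟩
  · right
    exact ⟨h, by rw [cl2, if_neg (by omega), if_pos he, if_neg h]⟩

private theorem cl2' {p : W} (hp : kd p = 2) :
    ((FX p ∧ Cg X kd dp p) ∧ cl2 X kd dp FX p = 2) ∨ (¬ (FX p ∧ Cg X kd dp p) ∧ cl2 X kd dp FX p = 3) := by
  by_cases h : FX p ∧ Cg X kd dp p
  · left
    exact ⟨h, by rw [cl2, if_neg (by omega), if_neg (by omega), if_pos h]⟩
  · right
    exact ⟨h, by rw [cl2, if_neg (by omega), if_neg (by omega), if_neg h]⟩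

theorem ge_iff (hL : Lv2 X kd m lv dp ds an o) {g e : W} (hg : kd g = 0) (he : kd e = 1) (h : X.Edge g e) :
    (rk2 X kd m lv dp FX dst e < rk2 X kd m lv dp FX dst g ↔ ds g e) ∧
      (rk2 X kd m lv dp FX dst g < rk2 X kd m lv dp FX dst e ↔ ¬ ds g e) := by
  have hc : cl2 X kd dp FX e = 2 ∨ cl2 X kd dp FX e = 1 := by
    rcases cl1 (X := X) (dp := dp) (FX := FX) he with h1 | h1
    · exact Or.inl h1.2
    · exact Or.inr h1.2
  rw [rk2_lt, rk2_lt, dk0 hg, dk1 he, cl0 hg]
  by_cases h1 : ds g e
  · have h2 := hL.lev_ds g e h1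
    constructor
    · constructor
      · intro _; exact h1
      · intro _; left; omega
    · constructor
      · intro h3
        exfalso
        rcases h3 with h3 | h3
        · omega
        · omega
      · intro h3; exact absurd h1 h3
  · have h2 := hL.lev_asc g e hg he h h1
    constructor
    · constructor
      · intro h3
        exfalso
        rcases h3 with h3 | h3
        · omega
        · omega
      · intro h3; exact absurd h3 h1
    · constructor
      · intro _; exact h1
      · intro _; left; omega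

theorem gp_iff (hL : Lv2 X kd m lv dp ds an o) {g p : W} (hg : kd g = 0) (hp : kd p = 2) (h : X.Edge g p) :
    (rk2 X kd m lv dp FX dst p < rk2 X kd m lv dp FX dst g ↔ m p < 2 * dp g p) ∧
      (rk2 X kd m lv dp FX dst g < rk2 X kd m lv dp FX dst p ↔ 2 * dp g p ≤ m p) := by
  have hc : cl2 X kd dp FX p = 2 ∨ cl2 X kd dp FX p = 3 := by
    rcases cl2' (X := X) (dp := dp) (FX := FX) hp with h1 | h1
    · exact Or.inl h1.2
    · exact Or.inr h1.2
  rw [rk2_lt, rk2_lt, dk0 hg, dk2 hp, cl0 hg]
  have h2 := hL.lev g p (by omega) hp h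
  constructor
  · constructor
    · rintro (h3 | h3) <;> omega
    · intro h3; left; omega
  · constructor
    · rintro (h3 | h3) <;> omega
    · intro h3; left; omega

theorem ep_iff (hL : Lv2 X kd m lv dp ds an o) (hF : FixP2 X kd m FX) (hD : Dst X kd m dp FX dst) {e p : W}
    (he : kd e = 1) (hp : kd p = 2) (h : X.Edge e p) :
    (rk2 X kd m lv dp FX dst e < rk2 X kd m lv dp FX dst p ↔
      2 * dp e p + 1 < m p ∨ (2 * dp e p + 1 = m p ∧ (KE X kd m dp FX e p → dst e < dst p))) ∧
    (rk2 X kd m lv dp FX dst p < rk2 X kd m lv dp FX dst e ↔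
      m p < 2 * dp e p + 1 ∨ (KE X kd m dp FX e p ∧ dst p < dst e)) := by
  have h2 := hL.lev e p (by omega) hp h
  have hce := cl1 (X := X) (dp := dp) (FX := FX) he
  have hcp := cl2' (X := X) (dp := dp) (FX := FX) hp
  rw [rk2_lt, rk2_lt, dk1 he, dk2 hp]
  rcases Nat.lt_trichotomy (2 * dp e p + 1) (m p) with h3 | h3 | h3
  · constructor
    · constructor
      · intro _; exact Or.inl h3
      · intro _; left; omega
    · constructor
      · intro h4; exfalso; omega
      · rintro (h4 | h4)
        · omega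
        · have := h4.1.tie; omega
  · by_cases hK : KE X kd m dp FX e p
    · have hfe := hK.fx
      have hfp := hF.pt e p he hp h hfe
      have h5 : cl2 X kd dp FX e = 2 := by
        rcases hce with h5 | h5
        · exact h5.2
        · exact absurd hfe h5.1
      have h6 : cl2 X kd dp FX p = 2 := by
        rcases hcp with h6 | h6
        · exact h6.2
        · exact absurd ⟨hfp, hK.cg⟩ h6.1
      rw [h5, h6, if_pos rfl, if_pos rfl]
      constructor
      · constructor
        · rintro (h7 | h7)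
          · omega
          · exact Or.inr ⟨h3, fun _ => h7.2⟩
        · rintro (h7 | h7)
          · omega
          · right; exact ⟨by omega, h7.2 hK⟩
      · constructor
        · rintro (h7 | h7)
          · omega
          · exact Or.inr ⟨hK, h7.2⟩
        · rintro (h7 | h7)
          · omega
          · right; exact ⟨by omega, h7.2⟩
    · have h7 : cl2 X kd dp FX e < cl2 X kd dp FX p := by
        rcases hce with h5 | h5
        · rcases hcp with h6 | h6
          · exact absurd ⟨he, hp, h, h5.1, h6.1.2, h3⟩ hK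
          · omega
        · omega
      constructor
      · constructor
        · intro _; exact Or.inr ⟨h3, fun h8 => absurd h8 hK⟩
        · intro _; left; omega
      · constructor
        · intro h8; exfalso; omega
        · rintro (h8 | h8)
          · omega
          · exact absurd h8.1 hK
  · constructor
    · constructor
      · intro h4; exfalso; omega
      · intro h4; exfalso; omega
    · constructor
      · intro _; exact Or.inl h3
      · intro _; left; omega

theorem rk2_ne (hX : LX X kd m) (hL : Lv2 X kd m lv dp ds an o) (hF : FixP2 X kd m FX)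
    (hD : Dst X kd m dp FX dst) {x y : W} (h : X.Edge x y) :
    rk2 X kd m lv dp FX dst x ≠ rk2 X kd m lv dp FX dst y := by
  have kx := hX.kd_le x
  have ky := hX.kd_le y
  have hk := hX.kd_ne x y h
  have key1 : ∀ g e, kd g = 0 → kd e = 1 → X.Edge g e →
      rk2 X kd m lv dp FX dst g ≠ rk2 X kd m lv dp FX dst e := by
    intro g e hg he h1
    have h2 := ge_iff (FX := FX) (dst := dst) hL hg he h1
    by_cases h3 : ds g e
    · exact (h2.1.mpr h3).ne'
    · exact (h2.2.mpr h3).ne
  have key2 : ∀ g p, kd g = 0 → kd p = 2 → X.Edge g p →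
      rk2 X kd m lv dp FX dst g ≠ rk2 X kd m lv dp FX dst p := by
    intro g p hg hp h1
    have h2 := gp_iff (FX := FX) (dst := dst) hL hg hp h1
    by_cases h3 : m p < 2 * dp g p
    · exact (h2.1.mpr h3).ne'
    · exact (h2.2.mpr (by omega)).ne
  have key3 : ∀ e p, kd e = 1 → kd p = 2 → X.Edge e p →
      rk2 X kd m lv dp FX dst e ≠ rk2 X kd m lv dp FX dst p := by
    intro e p he hp h1
    have h2 := ep_iff hL hF hD he hp h1
    rcases Nat.lt_trichotomy (2 * dp e p + 1) (m p) with h3 | h3 | h3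
    · exact (h2.1.mpr (Or.inl h3)).ne
    · by_cases hK : KE X kd m dp FX e p
      · rcases Nat.lt_or_gt_of_ne (hD.ne e p hK) with h4 | h4
        · exact (h2.1.mpr (Or.inr ⟨h3, fun _ => h4⟩)).ne
        · exact (h2.2.mpr (Or.inr ⟨hK, h4⟩)).ne'
      · exact (h2.1.mpr (Or.inr ⟨h3, fun h4 => absurd h4 hK⟩)).ne
    · exact (h2.2.mpr (Or.inl h3)).ne'
  have h' := X.symm _ _ h
  rcases (show kd x = 0 ∨ kd x = 1 ∨ kd x = 2 by omega) with hx | hx | hx <;>
    rcases (show kd y = 0 ∨ kd y = 1 ∨ kd y = 2 by omega) with hy | hy | hy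
  · omega
  · exact key1 x y hx hy h
  · exact key2 x y hx hy h
  · exact (key1 y x hy hx h').symm
  · omega
  · exact key3 x y hx hy h
  · exact (key2 y x hy hx h').symm
  · exact (key3 y x hy hx h').symm
  · omega

end Pool.Agent.H52.T2
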