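import Pool.Agent.H52.T2.Lv
import Pool.Agent.H52.T2.Gdc
import Pool.Agent.H52.T2.Gdp
import Pool.Agent.H52.FR.Rt

/-!
# Rooted descending links of a simply connected typed complex with labels
-/

set_option autoImplicit false

namespace Pool.Agent.H52.T2

open Pool.Agent.H54.CX Pool.Agent.H98.FJ Pool.Agent.H59.DE
open Pool.Agent.H52.FR (DV DG Crit Good Rooted dist_ne dist_unique exists_closer)

variable {U T : Type} {Y : Cpx U} {kd : U → ℕ} {FX : U → Prop}

section root

variable {α : Type} [LinearOrder α] {R : U → α}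

open Classical in
/-- the root of the descending link -/
private noncomputable def rt (Y : Cpx U) (kd : U → ℕ) (FX : U → Prop) (R : U → α) (x : U) : U :=
  if h : ∃ y, DV Y R x y ∧ Crit kd FX x y then h.choose else if h : ∃ y, DV Y R x y then h.choose else x

private theorem rt_dv {x y : U} (h : DV Y R x y) : DV Y R x (rt Y kd FX R x) := by
  by_cases h1 : ∃ y, DV Y R x y ∧ Crit kd FX x y
  · rw [rt, dif_pos h1]
    exact h1.choose_spec.1
  · have h2 : ∃ y, DV Y R x y := ⟨y, h⟩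
    rw [rt, dif_neg h1, dif_pos h2]
    exact h2.choose_spec

private theorem rt_crit {x y : U} (hG : Good Y kd R FX x) (h : DV Y R x y) (hc : Crit kd FX x y) :
    y = rt Y kd FX R x := by
  have h1 : ∃ y, DV Y R x y ∧ Crit kd FX x y := ⟨y, h, hc⟩
  rw [rt, dif_pos h1]
  exact hG.uni _ _ h h1.choose_spec.1 hc h1.choose_spec.2

private theorem rt_reach {x y : U} (hG : Good Y kd R FX x) (h : DV Y R x y) :
    (DG Y R x).Reachable (rt Y kd FX R x) y := hG.con _ _ (rt_dv h) h

theorem rooted_of_good {o : U} (rk_ne : ∀ x y, Y.Edge x y → R x ≠ R y) (good : ∀ x, Good Y kd R FX x)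
    (down : ∀ x, x ≠ o → ∃ y, DV Y R x y) : ∃ δ : U → U → ℕ, Rooted Y kd FX R δ o := by
  refine ⟨fun x y => (DG Y R x).dist (rt Y kd FX R x) y, ?_⟩
  have adj : ∀ x y z, Y.Tri x y z → R y < R x → R z < R x → (DG Y R x).Adj y z ∧ DV Y R x y :=
    fun x y z h1 h2 h3 => ⟨⟨h1, h2, h3⟩, Y.edge _ _ _ h1, h2⟩
  refine ⟨rk_ne, ?_, ?_, ?_, ?_, ?_⟩
  · intro x y z h1 h2 h3
    obtain ⟨a, b⟩ := adj x y z h1 h2 h3
    exact dist_ne (good x).acy (rt_reach (good x) b) a
  · intro x y z z' h1 h1' h2 h3 h4 h5 h6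
    obtain ⟨a, b⟩ := adj x y z h1 h2 h3
    exact dist_unique (good x).acy (rt_reach (good x) b) a (adj x y z' h1' h2 h4).1 h5 h6
  · have key : ∀ x a, Par Y R (fun x y => (DG Y R x).dist (rt Y kd FX R x) y) x a → a = rt Y kd FX R x := by
      intro x a h
      by_contra hne
      obtain ⟨z, z1, z2⟩ := exists_closer (rt_reach (good x) ⟨h.1, h.2.1⟩) hne
      have h3 := h.2.2 z z1.1 z1.2.2
      exact absurd z2 (not_lt.2 h3.le)
    intro x a a' h h'
    rw [key x a h, key x a' h']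
  · intro x y z h1 h2 h3 h4 h5
    obtain ⟨a, b⟩ := adj x y z h1 h2 h3
    have h6 := rt_crit (good x) b h5
    rw [← h6, SimpleGraph.dist_self] at h4
    exact absurd h4 (Nat.not_lt_zero _)
  · intro x h
    by_contra hne
    obtain ⟨y, hy⟩ := down x hne
    exact h y hy.1 hy.2

end root

/-- **Rooted descending links.** -/
theorem exists_rooted2 {τ : U → T} {μ : T → ℕ} (hT : TC2 Y kd τ μ) (hsc : Y.SC)
    (hF : FixP2 Y kd (fun p => μ (τ p)) FX) (hc : ∀ x, ∃ y, Y.Edge x y) :
    ∃ (R : U → ℕ ×ₗ ℕ) (δ : U → U → ℕ) (o : U), Rooted Y kd FX R δ o := by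
  have hX := hT.lx
  have ho : ∃ o, kd o = 0 := by
    obtain ⟨a⟩ := hsc.nonempty
    have key : ∀ e p, kd e = 1 → kd p = 2 → Y.Edge e p → ∃ o, kd o = 0 := fun e p he hp h => by
      obtain ⟨g, hg, -⟩ := hX.cell e p he hp h
      exact ⟨g, hg⟩
    obtain ⟨b, h⟩ := hc a
    have h1 := hX.kd_le a
    have h2 := hX.kd_le b
    have h3 := hX.kd_ne a b h
    by_cases h4 : kd a = 0
    · exact ⟨a, h4⟩
    by_cases h5 : kd b = 0
    · exact ⟨b, h5⟩
    by_cases h6 : kd a = 1
    · exact key a b h6 (by omega) h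
    · exact key b a (by omega) (by omega) (Y.symm _ _ h)
  obtain ⟨o, ho⟩ := ho
  obtain ⟨lv, dp, ds, an, hL⟩ := exists_lv2 hX hsc ho
  obtain ⟨dst, hD⟩ := exists_dst2 hX hL hF
  have hk : ∀ x, kd x = 0 ∨ kd x = 1 ∨ kd x = 2 := fun x => by
    have := hX.kd_le x
    omega
  obtain ⟨δ, h⟩ := rooted_of_good (o := o) (R := rk2 Y kd (fun p => μ (τ p)) lv dp FX dst) (kd := kd) (FX := FX)
    (fun x y h => rk2_ne hX hL hF hD h)
    (fun x => by
      rcases hk x with h | h | h
      · exact good_ch hX hL hF hD h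
      · exact good_hy hX hL hF hD h
      · exact good_pt hX hL hF hD h)
    (fun x hx => by
      rcases hk x with h | h | h
      · exact down_ch hL h hx
      · exact down_hy hX hL hF hD h
      · exact down_pt hX hL hF hD h)
  exact ⟨_, δ, o, h⟩

end Pool.Agent.H52.T2
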