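import Pool.Agent.H52.T2.Pos

/-!
# The states

A state describes a chamber, a hyperedge or a point of the universal cover. `root o` is the base chamber; `gt σ e` is the hyperedge `e` of the
chamber state `σ`, which is its lowest chamber (the gate); `fd π e` is the hyperedge `e` of the point state `π`, all chambers of `e` are far from the
gate of `π`; `st η c` is the chamber `c` across the hyperedge state `η`; `far π α β c` is the chamber `c` which is far from the gate of the
point state `π`, with the states `α`, `β` of its two hyperedges at the point; `pc σ p` is the point `p` of the chamber state `σ`, which is its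
gate; `ph η q` is the point `q` of the folded hyperedge state `η`, which is its gate.
-/

set_option autoImplicit false

namespace Pool.Agent.H52.T2

open Pool.Agent.H54.CX Pool.Agent.H98.FJ Pool.Agent.H59.DE

/-- the states -/
inductive St (W : Type) : Type
  | root (c : W) : St W
  | gt (σ : St W) (e : W) : St W
  | fd (π : St W) (e : W) : St W
  | st (η : St W) (c : W) : St W
  | far (π α β : St W) (c : W) : St W
  | pc (σ : St W) (p : W) : St W
  | ph (η : St W) (q : W) : St W

/-- the midpoint of the interval `(max 0 (r - 1 + b), min r (1 - a))` -/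
noncomputable def mm (r a b : ℝ) : ℝ := (max 0 (r - 1 + b) + min r (1 - a)) / 2

variable {W : Type}

open Classical in
/-- the angle of the hyperedge `e` at its common point with the hyperedge `x` (with the angles `f`) below it -/
noncomputable def old (X : Cpx W) (kd m : W → ℕ) (x e : W) (f : W → ℝ) : ℝ :=
  if h : ∃ q, kd q = 2 ∧ X.Edge x q ∧ X.Edge e q then f h.choose + 1 / m h.choose else 0

namespace St

/-- the label -/
def lab : St W → W
  | root c => c
  | gt _ e => e
  | fd _ e => e
  | st _ c => c
  | far _ _ _ c => c
  | pc _ p => p
  | ph _ q => q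

/-- the kind -/
def sk : St W → ℕ
  | root _ => 0
  | gt _ _ => 1
  | fd _ _ => 1
  | st _ _ => 0
  | far _ _ _ _ => 0
  | pc _ _ => 2
  | ph _ _ => 2

/-- the size -/
def sz : St W → ℕ
  | root _ => 0
  | gt σ _ => σ.sz + 1
  | fd π _ => π.sz + 1
  | st η _ => η.sz + 1
  | far π α β _ => π.sz + α.sz + β.sz + 1
  | pc σ _ => σ.sz + 1
  | ph η _ => η.sz + 1

/-- the gate of a point state -/
def gte : St W → W
  | pc σ _ => σ.lab
  | ph η _ => η.lab
  | s => s.lab

/-- the level -/
def lev (m : W → ℕ) : St W → ℕ
  | root _ => 0
  | gt σ _ => σ.lev m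
  | fd π _ => π.lev m + m π.lab - 1
  | st η _ => η.lev m + 1
  | far π _ _ _ => π.lev m + m π.lab
  | pc σ _ => σ.lev m
  | ph η _ => η.lev m

/-- the hyperedge `e` is descending at the chamber state -/
def dsc : St W → W → Prop
  | st η _, e => e = η.lab
  | far _ α β _, e => e = α.lab ∨ e = β.lab
  | _, _ => False

open Classical in
/-- the state of the hyperedge `e` at the chamber state -/
noncomputable def hst : St W → W → St W
  | st η c, e => if e = η.lab then η else gt (st η c) e
  | far π α β c, e => if e = α.lab then α else if e = β.lab then β else gt (far π α β c) e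
  | s, e => gt s e

open Classical in
/-- the state of the point `p` at a chamber state or hyperedge state -/
noncomputable def pp (X : Cpx W) : St W → W → St W
  | root c, p => pc (root c) p
  | gt σ _, p => pp X σ p
  | fd π e, p => if p = π.lab then π else ph (fd π e) p
  | st η c, p => if X.Edge η.lab p then pp X η p else pc (st η c) p
  | far π α β c, p => if p = π.lab then π else if X.Edge α.lab p then pp X α p else
      if X.Edge β.lab p then pp X β p else pc (far π α β c) p
  | pc σ q, _ => pc σ q
  | ph η q, _ => ph η q

open Classical in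
/-- the depth of a chamber state or hyperedge state at the point `p` -/
noncomputable def dd (X : Cpx W) (m : W → ℕ) : St W → W → ℕ
  | root _, _ => 0
  | gt σ _, p => dd X m σ p
  | fd π _, p => if p = π.lab then m p - 1 else 0
  | st η _, p => if X.Edge η.lab p then dd X m η p + 1 else 0
  | far π α β _, p => if p = π.lab then m p else if X.Edge α.lab p then dd X m α p + 1 else
      if X.Edge β.lab p then dd X m β p + 1 else 0
  | pc _ _, _ => 0
  | ph _ _, _ => 0

open Classical in
/-- The angle at the point `p` of the hyperedge `e` which is ascending at the chamber state, or of the hyperedge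
state (then the argument `e` is not used). -/
noncomputable def th (X : Cpx W) (kd m : W → ℕ) : St W → W → W → ℝ
  | root _, _, p => mm (1 / m p) 0 0
  | gt σ e, _, p => th X kd m σ e p
  | fd π _, _, p => if p = π.lab then 1 - 1 / m p else 0
  | st η c, e, p => if X.Edge η.lab p then th X kd m η e p + 1 / m p else
      mm (1 / m p) (old X kd m η.lab e fun q => th X kd m η e q)
        (old X kd m η.lab (oth X kd c e p) fun q => th X kd m η e q)
  | far _ α β c, e, p => if X.Edge α.lab p then th X kd m α e p + 1 / m p else
      if X.Edge β.lab p then th X kd m β e p + 1 / m p else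
      mm (1 / m p) (max (old X kd m α.lab e fun q => th X kd m α e q)
          (old X kd m β.lab e fun q => th X kd m β e q))
        (max (old X kd m α.lab (oth X kd c e p) fun q => th X kd m α e q)
          (old X kd m β.lab (oth X kd c e p) fun q => th X kd m β e q))
  | pc _ _, _, _ => 0
  | ph _ _, _, _ => 0

/-- the angle of a hyperedge state at the point `p` -/
noncomputable def an (X : Cpx W) (kd m : W → ℕ) (η : St W) (p : W) : ℝ := th X kd m η η.lab p

theorem th_eq_an {X : Cpx W} {kd m : W → ℕ} {η : St W} (h : η.sk = 1) (e p : W) :
    th X kd m η e p = an X kd m η p := by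
  cases η <;> simp_all [sk, an, th]

/-- the hyperedge state is at the point state with the largest depth -/
def At (X : Cpx W) (m : W → ℕ) (π α : St W) : Prop :=
  α.sk = 1 ∧ pp X α π.lab = π ∧ dd X m α π.lab + 1 = m π.lab

end St

open St

/-- the valid states -/
inductive Val (X : Cpx W) (kd m : W → ℕ) (o : W) : St W → Prop
  | vroot : kd o = 0 → Val X kd m o (root o)
  | vgt (σ : St W) (e : W) : Val X kd m o σ → σ.sk = 0 → kd e = 1 → X.Edge σ.lab e → ¬ σ.dsc e →
      Val X kd m o (gt σ e)
  | vfd (π : St W) (e : W) : Val X kd m o π → π.sk = 2 → kd e = 1 → X.Edge e π.lab →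
      (∀ c, T3 X kd c e π.lab → FarC X kd m π.lab π.gte c) → Val X kd m o (fd π e)
  | vst (σ : St W) (e c : W) : Val X kd m o (gt σ e) → kd c = 0 → X.Edge c e → c ≠ σ.lab →
      (∀ p, kd p = 2 → X.Edge e p → dd X m σ p + 2 ≤ m p) → Val X kd m o (st (gt σ e) c)
  | vfar (π α β : St W) (c : W) : Val X kd m o π → Val X kd m o α → Val X kd m o β → π.sk = 2 →
      kd c = 0 → X.Edge c π.lab → FarC X kd m π.lab π.gte c → At X m π α → At X m π β →
      α.lab = h1 X kd c π.lab → β.lab = h2 X kd c π.lab → Val X kd m o (far π α β c)
  | vpc (σ : St W) (p : W) : Val X kd m o σ → σ.sk = 0 → kd p = 2 → X.Edge σ.lab p →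
      (∀ e, T3 X kd σ.lab e p → ¬ σ.dsc e) → Val X kd m o (pc σ p)
  | vph (π : St W) (e q : W) : Val X kd m o (fd π e) → kd q = 2 → X.Edge e q → q ≠ π.lab →
      Val X kd m o (ph (fd π e) q)

end Pool.Agent.H52.T2
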