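import Pool.Agent.H52.T2.St

/-!
# [H52 T2 VA] valid states: labels, point states, levels, descending hyperedges

`kd_lab`: cases. `pp_val`: induction on `Val`; `gt σ e`: `σ` at `p` (`hX.fill` gives the edge `σ.lab p`); `fd π e`: `p = π.lab` or `Val.vph`; `st η c`: if `η.lab ∼ p` then `η` at `p`,
else `Val.vpc` (a descending hyperedge at `p` would be `η.lab`); `far π α β c`: `p = π.lab`: `π`; `α.lab ∼ p`: `α` at `p`, the level: `α.lev = π.lev + dd α π.lab` by induction at `π.lab` (`T3 c α.lab π.lab` from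
`hpr_spec`), and `dd α π.lab + 1 = m`; the same for `β`; else `Val.vpc`. `dsc_spec`, `hst_val`, `hst_asc`: cases. `hst_lev`: cases, the level of `α` as before.
`compat`: if `e` is ascending then `hst σ e = gt σ e`. `st η c`, `e = η.lab`: `if_pos`. `far`, `e = α.lab`: `p = π.lab`: `At`; otherwise `if_pos`. `e = β.lab` (`≠ α.lab` by `hpr_spec`): `p = π.lab`: `At`;
otherwise `α.lab` does not contain `p` by `hX.lg'` (the chamber `c`, the hyperedges `α.lab`, `β.lab`, the points `π.lab`, `p`).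
-/

set_option autoImplicit false

namespace Pool.Agent.H52.T2

open Pool.Agent.H54.CX Pool.Agent.H98.FJ Pool.Agent.H59.DE St

variable {W : Type} {X : Cpx W} {kd : W → ℕ} {m : W → ℕ} {o : W}

theorem Val.kd_lab {s : St W} (h : Val X kd m o s) : kd s.lab = s.sk := by
  cases h with
  | vroot h1 => exact h1
  | vgt σ e _ _ h1 _ _ => exact h1
  | vfd π e _ _ h1 _ _ => exact h1
  | vst σ e c _ h1 _ _ _ => exact h1
  | vfar π α β c _ _ _ _ h1 _ _ _ _ _ _ => exact h1
  | vpc σ p _ _ h1 _ _ => exact h1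
  | vph π e q _ h1 _ _ => exact h1

private theorem pp_root (c p : W) : pp X (root c) p = pc (root c) p := by
  simp only [pp]

private theorem pp_gt (σ : St W) (e p : W) : pp X (gt σ e) p = pp X σ p := by
  simp only [pp]

private theorem pp_fd1 (π : St W) (e p : W) (h : p = π.lab) : pp X (fd π e) p = π := by
  simp only [pp]
  rw [if_pos h]

private theorem pp_fd2 (π : St W) (e p : W) (h : p ≠ π.lab) : pp X (fd π e) p = ph (fd π e) p := by
  simp only [pp]
  rw [if_neg h]

private theorem pp_st1 (η : St W) (c p : W) (h : X.Edge η.lab p) : pp X (st η c) p = pp X η p := by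
  simp only [pp]
  rw [if_pos h]

private theorem pp_st2 (η : St W) (c p : W) (h : ¬ X.Edge η.lab p) :
    pp X (st η c) p = pc (st η c) p := by
  simp only [pp]
  rw [if_neg h]

private theorem pp_far1 (π α β : St W) (c p : W) (h : p = π.lab) :
    pp X (far π α β c) p = π := by
  simp only [pp]
  rw [if_pos h]

private theorem pp_far2 (π α β : St W) (c p : W) (h : p ≠ π.lab) (h1 : X.Edge α.lab p) :
    pp X (far π α β c) p = pp X α p := by
  simp only [pp]
  rw [if_neg h, if_pos h1]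

private theorem pp_far3 (π α β : St W) (c p : W) (h : p ≠ π.lab) (h1 : ¬ X.Edge α.lab p)
    (h2 : X.Edge β.lab p) : pp X (far π α β c) p = pp X β p := by
  simp only [pp]
  rw [if_neg h, if_neg h1, if_pos h2]

private theorem pp_far4 (π α β : St W) (c p : W) (h : p ≠ π.lab) (h1 : ¬ X.Edge α.lab p)
    (h2 : ¬ X.Edge β.lab p) : pp X (far π α β c) p = pc (far π α β c) p := by
  simp only [pp]
  rw [if_neg h, if_neg h1, if_neg h2]

private theorem dd_root (c p : W) : dd X m (root c) p = 0 := by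
  simp only [dd]

private theorem dd_gt (σ : St W) (e p : W) : dd X m (gt σ e) p = dd X m σ p := by
  simp only [dd]

private theorem dd_fd1 (π : St W) (e p : W) (h : p = π.lab) : dd X m (fd π e) p = m p - 1 := by
  simp only [dd]
  rw [if_pos h]

private theorem dd_fd2 (π : St W) (e p : W) (h : p ≠ π.lab) : dd X m (fd π e) p = 0 := by
  simp only [dd]
  rw [if_neg h]

private theorem dd_st1 (η : St W) (c p : W) (h : X.Edge η.lab p) :
    dd X m (st η c) p = dd X m η p + 1 := by
  simp only [dd]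
  rw [if_pos h]

private theorem dd_st2 (η : St W) (c p : W) (h : ¬ X.Edge η.lab p) : dd X m (st η c) p = 0 := by
  simp only [dd]
  rw [if_neg h]

private theorem dd_far1 (π α β : St W) (c p : W) (h : p = π.lab) :
    dd X m (far π α β c) p = m p := by
  simp only [dd]
  rw [if_pos h]

private theorem dd_far2 (π α β : St W) (c p : W) (h : p ≠ π.lab) (h1 : X.Edge α.lab p) :
    dd X m (far π α β c) p = dd X m α p + 1 := by
  simp only [dd]
  rw [if_neg h, if_pos h1]

private theorem dd_far3 (π α β : St W) (c p : W) (h : p ≠ π.lab) (h1 : ¬ X.Edge α.lab p)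
    (h2 : X.Edge β.lab p) : dd X m (far π α β c) p = dd X m β p + 1 := by
  simp only [dd]
  rw [if_neg h, if_neg h1, if_pos h2]

private theorem dd_far4 (π α β : St W) (c p : W) (h : p ≠ π.lab) (h1 : ¬ X.Edge α.lab p)
    (h2 : ¬ X.Edge β.lab p) : dd X m (far π α β c) p = 0 := by
  simp only [dd]
  rw [if_neg h, if_neg h1, if_neg h2]

theorem Val.pp_val (hX : LX X kd m) {s : St W} (h : Val X kd m o s) {p : W} (hs : s.sk ≤ 1) (hp : kd p = 2)
    (h1 : X.Edge s.lab p) : Val X kd m o (pp X s p) ∧ (pp X s p).sk = 2 ∧ (pp X s p).lab = p ∧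
      s.lev m = (pp X s p).lev m + dd X m s p := by
  induction h generalizing p with
  | vroot h0 =>
    rw [pp_root, dd_root]
    exact ⟨Val.vpc (root o) p (Val.vroot h0) rfl hp h1 (fun e _ h => h), rfl, rfl, rfl⟩
  | vgt σ e hσ hsk he h3 hd ih =>
    have hk : kd σ.lab = 0 := hσ.kd_lab.trans hsk
    have h4 : X.Edge σ.lab p := (hX.t3 hk he hp h3 h1).gp
    obtain ⟨i1, i2, i3, i4⟩ := ih (by omega) hp h4
    rw [pp_gt, dd_gt]
    exact ⟨i1, i2, i3, i4⟩
  | vfd π e hπ hsk he h3 hf ih =>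
    by_cases hpl : p = π.lab
    · rw [pp_fd1 π e p hpl, dd_fd1 π e p hpl]
      refine ⟨hπ, hsk, hpl.symm, ?_⟩
      have h5 := hX.mu p hp
      have h6 : (fd π e).lev m = π.lev m + m π.lab - 1 := rfl
      rw [h6, ← hpl]
      omega
    · rw [pp_fd2 π e p hpl, dd_fd2 π e p hpl]
      exact ⟨Val.vph π e p (Val.vfd π e hπ hsk he h3 hf) hp h1 hpl, rfl, rfl, rfl⟩
  | vst σ e c hη hkc hce hne hdd ih =>
    by_cases hpe : X.Edge (gt σ e).lab p
    · obtain ⟨i1, i2, i3, i4⟩ := ih le_rfl hp hpe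
      rw [pp_st1 _ _ _ hpe, dd_st1 _ _ _ hpe]
      refine ⟨i1, i2, i3, ?_⟩
      have h6 : (st (gt σ e) c).lev m = (gt σ e).lev m + 1 := rfl
      rw [h6, i4]
      omega
    · rw [pp_st2 _ _ _ hpe, dd_st2 _ _ _ hpe]
      refine ⟨Val.vpc _ p (Val.vst σ e c hη hkc hce hne hdd) rfl hp h1 ?_, rfl, rfl, rfl⟩
      intro e' h7 h8
      have h9 : e' = (gt σ e).lab := h8
      exact hpe (h9 ▸ h7.ep)
  | vfar π α β c hπ hα hβ hsk hkc hcp hfar hAα hAβ hlα hlβ ihπ ihα ihβ =>
    have hkπ : kd π.lab = 2 := hπ.kd_lab.trans hsk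
    obtain ⟨_, t1, t2, _⟩ := hpr_spec hX hkc hkπ hcp
    rw [← hlα] at t1
    rw [← hlβ] at t2
    have h6 : (far π α β c).lev m = π.lev m + m π.lab := rfl
    have eα : α.lev m + 1 = π.lev m + m π.lab := by
      obtain ⟨_, _, _, i4⟩ := ihα hAα.1.le hkπ t1.ep
      rw [hAα.2.1] at i4
      have := hAα.2.2
      omega
    have eβ : β.lev m + 1 = π.lev m + m π.lab := by
      obtain ⟨_, _, _, i4⟩ := ihβ hAβ.1.le hkπ t2.ep
      rw [hAβ.2.1] at i4
      have := hAβ.2.2
      omega
    by_cases hpl : p = π.lab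
    · rw [pp_far1 π α β c p hpl, dd_far1 π α β c p hpl]
      refine ⟨hπ, hsk, hpl.symm, ?_⟩
      rw [h6, ← hpl]
    · by_cases hpa : X.Edge α.lab p
      · obtain ⟨i1, i2, i3, i4⟩ := ihα hAα.1.le hp hpa
        rw [pp_far2 π α β c p hpl hpa, dd_far2 π α β c p hpl hpa]
        refine ⟨i1, i2, i3, ?_⟩
        rw [h6, ← eα, i4]
        omega
      · by_cases hpb : X.Edge β.lab p
        · obtain ⟨i1, i2, i3, i4⟩ := ihβ hAβ.1.le hp hpb
          rw [pp_far3 π α β c p hpl hpa hpb, dd_far3 π α β c p hpl hpa hpb]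
          refine ⟨i1, i2, i3, ?_⟩
          rw [h6, ← eβ, i4]
          omega
        · rw [pp_far4 π α β c p hpl hpa hpb, dd_far4 π α β c p hpl hpa hpb]
          refine ⟨Val.vpc _ p (Val.vfar π α β c hπ hα hβ hsk hkc hcp hfar hAα hAβ hlα hlβ) rfl hp
            h1 ?_, rfl, rfl, rfl⟩
          rintro e' h7 (h8 | h8)
          · exact hpa (h8 ▸ h7.ep)
          · exact hpb (h8 ▸ h7.ep)
  | vpc σ q _ _ _ _ _ => exact absurd hs (by show ¬ (2 ≤ 1); omega)
  | vph π e q _ _ _ _ => exact absurd hs (by show ¬ (2 ≤ 1); omega)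

theorem Val.dsc_spec (hX : LX X kd m) {σ : St W} (h : Val X kd m o σ) {e : W} (he : σ.dsc e) :
    σ.sk = 0 ∧ kd e = 1 ∧ X.Edge σ.lab e := by
  cases h with
  | vroot h1 => exact (he : False).elim
  | vgt σ e _ _ h1 _ _ => exact (he : False).elim
  | vfd π e _ _ h1 _ _ => exact (he : False).elim
  | vst σ e' c hη h1 hce _ _ =>
    have h2 : e = (gt σ e').lab := he
    subst h2
    exact ⟨rfl, hη.kd_lab, hce⟩
  | vfar π α β c hπ hα hβ hsk hkc hcp hfar hAα hAβ hlα hlβ =>
    have hkπ : kd π.lab = 2 := hπ.kd_lab.trans hsk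
    obtain ⟨_, t1, t2, _⟩ := hpr_spec hX hkc hkπ hcp
    rw [← hlα] at t1
    rw [← hlβ] at t2
    rcases he with h2 | h2
    · subst h2
      exact ⟨rfl, t1.2.1, t1.ge⟩
    · subst h2
      exact ⟨rfl, t2.2.1, t2.ge⟩
  | vpc σ p _ _ h1 _ _ => exact (he : False).elim
  | vph π e q _ h1 _ _ => exact (he : False).elim

theorem hst_asc {σ : St W} {e : W} (h : ¬ σ.dsc e) : hst σ e = gt σ e := by
  cases σ with
  | root c => rfl
  | gt σ e' => rfl
  | fd π e' => rfl
  | st η c =>
    have h1 : ¬ e = η.lab := h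
    simp only [hst]
    rw [if_neg h1]
  | far π α β c =>
    have h1 : ¬ e = α.lab := fun h2 => h (Or.inl h2)
    have h3 : ¬ e = β.lab := fun h2 => h (Or.inr h2)
    simp only [hst]
    rw [if_neg h1, if_neg h3]
  | pc σ p => rfl
  | ph η q => rfl

private theorem hst_st (η : St W) (c e : W) (h : e = η.lab) : hst (st η c) e = η := by
  simp only [hst]
  rw [if_pos h]

private theorem hst_far1 (π α β : St W) (c : W) : hst (far π α β c) α.lab = α := by
  simp only [hst]
  rw [if_pos trivial]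

private theorem hst_far2 (π α β : St W) (c : W) (h : β.lab ≠ α.lab) :
    hst (far π α β c) β.lab = β := by
  simp only [hst]
  rw [if_neg h, if_pos trivial]

/-- the state of a descending hyperedge -/
private theorem at_lev (hX : LX X kd m) {π α : St W} (hα : Val X kd m o α) (hA : At X m π α)
    (hk : kd π.lab = 2) (h : X.Edge α.lab π.lab) : π.lev m + m π.lab = α.lev m + 1 := by
  obtain ⟨_, _, _, i4⟩ := hα.pp_val hX hA.1.le hk h
  rw [hA.2.1] at i4
  have := hA.2.2
  omega

theorem Val.hst_val (hX : LX X kd m) {σ : St W} (h : Val X kd m o σ) (hs : σ.sk = 0) {e : W} (he : kd e = 1)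
    (h1 : X.Edge σ.lab e) : Val X kd m o (hst σ e) ∧ (hst σ e).sk = 1 ∧ (hst σ e).lab = e := by
  by_cases hd : σ.dsc e
  · cases h with
    | vroot h1 => exact (hd : False).elim
    | vgt σ e _ _ h1 _ _ => exact (hd : False).elim
    | vfd π e _ _ h1 _ _ => exact (hd : False).elim
    | vst σ e' c hη h1 hce _ _ =>
      have h2 : e = (gt σ e').lab := hd
      rw [hst_st _ _ _ h2]
      exact ⟨hη, rfl, h2.symm⟩
    | vfar π α β c hπ hα hβ hsk hkc hcp hfar hAα hAβ hlα hlβ =>
      have hkπ : kd π.lab = 2 := hπ.kd_lab.trans hsk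
      obtain ⟨hne, t1, t2, _⟩ := hpr_spec hX hkc hkπ hcp
      rw [← hlα, ← hlβ] at hne
      rcases hd with h2 | h2
      · subst h2
        rw [hst_far1]
        exact ⟨hα, hAα.1, rfl⟩
      · subst h2
        rw [hst_far2 π α β c (Ne.symm hne)]
        exact ⟨hβ, hAβ.1, rfl⟩
    | vpc σ p _ _ h1 _ _ => exact (hd : False).elim
    | vph π e q _ h1 _ _ => exact (hd : False).elim
  · rw [hst_asc hd]
    exact ⟨Val.vgt σ e h hs he h1 hd, rfl, rfl⟩

theorem Val.hst_lev (hX : LX X kd m) {σ : St W} (h : Val X kd m o σ) {e : W} (he : σ.dsc e) :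
    σ.lev m = (hst σ e).lev m + 1 := by
  cases h with
  | vroot h1 => exact (he : False).elim
  | vgt σ e _ _ h1 _ _ => exact (he : False).elim
  | vfd π e _ _ h1 _ _ => exact (he : False).elim
  | vst σ e' c hη h1 hce _ _ =>
    have h2 : e = (gt σ e').lab := he
    rw [hst_st _ _ _ h2]
    rfl
  | vfar π α β c hπ hα hβ hsk hkc hcp hfar hAα hAβ hlα hlβ =>
    have hkπ : kd π.lab = 2 := hπ.kd_lab.trans hsk
    obtain ⟨hne, t1, t2, _⟩ := hpr_spec hX hkc hkπ hcp
    rw [← hlα] at t1
    rw [← hlβ] at t2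
    rw [← hlα, ← hlβ] at hne
    rcases he with h2 | h2
    · subst h2
      rw [hst_far1]
      exact at_lev hX hα hAα hkπ t1.ep
    · subst h2
      rw [hst_far2 π α β c (Ne.symm hne)]
      exact at_lev hX hβ hAβ hkπ t2.ep
  | vpc σ p _ _ h1 _ _ => exact (he : False).elim
  | vph π e q _ h1 _ _ => exact (he : False).elim

theorem Val.compat (hX : LX X kd m) {σ : St W} (h : Val X kd m o σ) (hs : σ.sk = 0) {e p : W} (he : kd e = 1)
    (h1 : X.Edge σ.lab e) (hp : kd p = 2) (h2 : X.Edge e p) : pp X (hst σ e) p = pp X σ p ∧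
      (σ.dsc e → dd X m σ p = dd X m (hst σ e) p + 1) ∧ (¬ σ.dsc e → dd X m σ p = dd X m (hst σ e) p) := by
  by_cases hd : σ.dsc e
  · suffices hh : pp X (hst σ e) p = pp X σ p ∧ dd X m σ p = dd X m (hst σ e) p + 1 from
      ⟨hh.1, fun _ => hh.2, fun h3 => absurd hd h3⟩
    cases h with
    | vroot h1 => exact (hd : False).elim
    | vgt σ e _ _ h1 _ _ => exact (hd : False).elim
    | vfd π e _ _ h1 _ _ => exact (hd : False).elim
    | vst σ e' c hη h1 hce _ _ =>
      have h3 : e = (gt σ e').lab := hd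
      have h4 : X.Edge (gt σ e').lab p := h3 ▸ h2
      rw [hst_st _ _ _ h3, pp_st1 _ _ _ h4, dd_st1 _ _ _ h4]
      exact ⟨rfl, rfl⟩
    | vfar π α β c hπ hα hβ hsk hkc hcp hfar hAα hAβ hlα hlβ =>
      have hkπ : kd π.lab = 2 := hπ.kd_lab.trans hsk
      obtain ⟨hne, t1, t2, _⟩ := hpr_spec hX hkc hkπ hcp
      rw [← hlα] at t1
      rw [← hlβ] at t2
      rw [← hlα, ← hlβ] at hne
      rcases hd with h3 | h3
      · subst h3
        rw [hst_far1]
        by_cases hpl : p = π.lab
        · rw [pp_far1 π α β c p hpl, dd_far1 π α β c p hpl]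
          subst hpl
          exact ⟨hAα.2.1, hAα.2.2.symm⟩
        · rw [pp_far2 π α β c p hpl h2, dd_far2 π α β c p hpl h2]
          exact ⟨rfl, rfl⟩
      · subst h3
        rw [hst_far2 π α β c (Ne.symm hne)]
        by_cases hpl : p = π.lab
        · rw [pp_far1 π α β c p hpl, dd_far1 π α β c p hpl]
          subst hpl
          exact ⟨hAβ.2.1, hAβ.2.2.symm⟩
        · have hpa : ¬ X.Edge α.lab p := fun h4 => hpl (hX.lg' t1 t2 hp h4 h2 hne).symm
          rw [pp_far3 π α β c p hpl hpa h2, dd_far3 π α β c p hpl hpa h2]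
          exact ⟨rfl, rfl⟩
    | vpc σ p _ _ h1 _ _ => exact (hd : False).elim
    | vph π e q _ h1 _ _ => exact (hd : False).elim
  · rw [hst_asc hd, pp_gt, dd_gt]
    exact ⟨rfl, fun h3 => absurd h3 hd, fun _ => rfl⟩

/-- the chamber state is a state of the hyperedge state -/
theorem Val.hst_dsc {σ : St W} {e : W} (he : σ.dsc e) : (∃ c, σ = st (hst σ e) c) ∨
    ∃ π α β c, σ = far π α β c ∧ (hst σ e = α ∧ e = α.lab ∨ hst σ e = β ∧ e = β.lab) := by
  cases σ with
  | root c => exact (he : False).elim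
  | gt σ e' => exact (he : False).elim
  | fd π e' => exact (he : False).elim
  | st η c =>
    have h1 : e = η.lab := he
    subst h1
    left
    exact ⟨c, by rw [hst_st _ _ _ rfl]⟩
  | far π α β c =>
    right
    refine ⟨π, α, β, c, rfl, ?_⟩
    by_cases h1 : e = α.lab
    · subst h1
      exact Or.inl ⟨hst_far1 π α β c, rfl⟩
    · rcases he with h2 | h2
      · exact absurd h2 h1
      · subst h2
        exact Or.inr ⟨hst_far2 π α β c h1, rfl⟩
  | pc σ p => exact (he : False).elim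
  | ph η q => exact (he : False).elim

end Pool.Agent.H52.T2
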