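import Pool.Agent.H52.T2.Ang
import Pool.Agent.H52.T2.Va

/-!
# [H52 T2 THL] angles of ascending hyperedges at old and new points

`NewP σ p`: no descending hyperedge of `σ` contains `p`. All statements by cases on `σ` (`root`, `st`, `far`; the others are excluded by `σ.sk = 0`), with `if_pos`, `if_neg`.
`pp_new`: for `far π α β c`: `p ≠ π.lab`, since `α.lab` contains `π.lab` (`T3 c α.lab π.lab` from `hpr_spec` and `α.lab = h1 ..`), and `α.lab`, `β.lab` do not contain `p`.
`th_new`: `St.U`, with `old_congr` and `th_eq_an` (`η`, `α`, `β` are hyperedge states: `Val.kd_lab` or `At`; for `st (gt σ e) c` by `rfl`).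
`th_old`: `x = η.lab` or `x = α.lab` or `x = β.lab`; in the last case `α.lab` does not contain `p` (else `α.lab`, `β.lab`, `e` are three different hyperedges of `σ.lab` at `p`, `hX.two_eq`; if
`α.lab = β.lab` contradiction to `hpr_spec`). In the case `far` with `x = α.lab` nothing is to exclude. The order of the tests in the definition of `th` is `α.lab`, `β.lab`.
`th_add`: `th_new` for `e` and `e'`, `oth σ.lab e p = e'` and conversely (`oth_spec`), `mm_add`.
-/

set_option autoImplicit false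

namespace Pool.Agent.H52.T2

open Pool.Agent.H54.CX Pool.Agent.H98.FJ Pool.Agent.H59.DE St

variable {W : Type} {X : Cpx W} {kd : W → ℕ} {m : W → ℕ} {o : W}

/-- the largest angle of the ascending hyperedge `e` at the old points -/
noncomputable def St.U (X : Cpx W) (kd m : W → ℕ) : St W → W → ℝ
  | st η _, e => old X kd m η.lab e (an X kd m η)
  | far _ α β _, e => max (old X kd m α.lab e (an X kd m α)) (old X kd m β.lab e (an X kd m β))
  | _, _ => 0

/-- no descending hyperedge contains `p` -/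
def NewP (X : Cpx W) (σ : St W) (p : W) : Prop := ∀ x, σ.dsc x → ¬ X.Edge x p

private theorem Val.far_t3 (hX : LX X kd m) {π α β : St W} {c : W} (u1 : Val X kd m o π)
    (u4 : π.sk = 2) (u5 : kd c = 0) (u6 : X.Edge c π.lab) (u10 : α.lab = h1 X kd c π.lab)
    (u11 : β.lab = h2 X kd c π.lab) :
    α.lab ≠ β.lab ∧ T3 X kd c α.lab π.lab ∧ T3 X kd c β.lab π.lab := by
  obtain ⟨a, b, d, -⟩ := hpr_spec hX u5 (u1.kd_lab.trans u4) u6
  rw [u10, u11]
  exact ⟨a, b, d⟩

theorem Val.pp_new (hX : LX X kd m) {σ : St W} (h : Val X kd m o σ) (hs : σ.sk = 0) {p : W}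
    (hn : NewP X σ p) : pp X σ p = pc σ p ∧ dd X m σ p = 0 := by
  cases h with
  | vroot _ => exact ⟨rfl, rfl⟩
  | vgt σ e _ _ _ _ _ => exact absurd hs one_ne_zero
  | vfd π e _ _ _ _ _ => exact absurd hs one_ne_zero
  | vpc σ p _ _ _ _ _ => exact absurd hs two_ne_zero
  | vph π e q _ _ _ _ => exact absurd hs two_ne_zero
  | vst σ e c _ _ _ _ _ =>
    have h1 : ¬ X.Edge (gt σ e).lab p := hn _ rfl
    constructor
    · unfold pp
      rw [if_neg h1]
    · unfold dd
      rw [if_neg h1]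
  | vfar π α β c v1 v2 v3 v4 v5 v6 v7 v8 v9 v10 v11 =>
    have h1 : ¬ X.Edge α.lab p := hn _ (Or.inl rfl)
    have h2 : ¬ X.Edge β.lab p := hn _ (Or.inr rfl)
    obtain ⟨-, t1, t2⟩ := Val.far_t3 hX v1 v4 v5 v6 v10 v11
    have h3 : p ≠ π.lab := by
      intro h4
      apply h1
      rw [h4]
      exact t1.ep
    constructor
    · unfold pp
      rw [if_neg h3, if_neg h1, if_neg h2]
    · unfold dd
      rw [if_neg h3, if_neg h1, if_neg h2]

theorem Val.th_new (hX : LX X kd m) {σ : St W} (h : Val X kd m o σ) (hs : σ.sk = 0) {e p : W}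
    (hn : NewP X σ p) : th X kd m σ e p =
      mm (1 / m p) (St.U X kd m σ e) (St.U X kd m σ (oth X kd σ.lab e p)) := by
  cases h with
  | vroot _ => rfl
  | vgt σ e _ _ _ _ _ => exact absurd hs one_ne_zero
  | vfd π e _ _ _ _ _ => exact absurd hs one_ne_zero
  | vpc σ p _ _ _ _ _ => exact absurd hs two_ne_zero
  | vph π e q _ _ _ _ => exact absurd hs two_ne_zero
  | vst σ e0 c _ _ _ _ _ =>
    have h1 : ¬ X.Edge (gt σ e0).lab p := hn _ rfl
    have h2 : (fun q => th X kd m (gt σ e0) e q) = an X kd m (gt σ e0) :=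
      funext fun q => th_eq_an rfl e q
    rw [th, if_neg h1, h2]
    rfl
  | vfar π α β c v1 v2 v3 v4 v5 v6 v7 v8 v9 v10 v11 =>
    have h1 : ¬ X.Edge α.lab p := hn _ (Or.inl rfl)
    have h2 : ¬ X.Edge β.lab p := hn _ (Or.inr rfl)
    have h3 : (fun q => th X kd m α e q) = an X kd m α := funext fun q => th_eq_an v8.1 e q
    have h4 : (fun q => th X kd m β e q) = an X kd m β := funext fun q => th_eq_an v9.1 e q
    rw [th, if_neg h1, if_neg h2, h3, h4]
    rfl

theorem Val.th_old (hX : LX X kd m) {σ : St W} (h : Val X kd m o σ) {x e p : W}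
    (hx : σ.dsc x) (he : ¬ σ.dsc e) (h1 : T3 X kd σ.lab x p) (h2 : T3 X kd σ.lab e p) :
    th X kd m σ e p = an X kd m (hst σ x) p + 1 / m p := by
  cases h with
  | vroot _ => exact hx.elim
  | vgt σ e _ _ _ _ _ => exact hx.elim
  | vfd π e _ _ _ _ _ => exact hx.elim
  | vpc σ p _ _ _ _ _ => exact hx.elim
  | vph π e q _ _ _ _ => exact hx.elim
  | vst σ e0 c _ _ _ _ _ =>
    have hx' : x = (gt σ e0).lab := hx
    have h3 : X.Edge (gt σ e0).lab p := by
      rw [← hx']
      exact h1.ep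
    rw [th, if_pos h3, hst, if_pos hx', th_eq_an rfl]
  | vfar π α β c v1 v2 v3 v4 v5 v6 v7 v8 v9 v10 v11 =>
    obtain ⟨hne, t1, t2⟩ := Val.far_t3 hX v1 v4 v5 v6 v10 v11
    by_cases hxa : x = α.lab
    · have h3 : X.Edge α.lab p := by
        rw [← hxa]
        exact h1.ep
      rw [th, if_pos h3, hst, if_pos hxa, th_eq_an v8.1]
    · have hxb : x = β.lab := hx.resolve_left hxa
      have h3 : ¬ X.Edge α.lab p := by
        intro h4
        have h5 : T3 X kd c α.lab p := hX.t3' t1 h1.2.2.1 h4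
        rcases hX.two_eq h5 h1 h2 with h6 | h6 | h6
        · exact hxa h6.symm
        · exact he (h6 ▸ hx)
        · exact he (Or.inl h6.symm)
      have h4 : X.Edge β.lab p := by
        rw [← hxb]
        exact h1.ep
      rw [th, if_neg h3, if_pos h4, hst, if_neg hxa, if_pos hxb, th_eq_an v9.1]

/-- the sum of the angles at a new point -/
theorem Val.th_add (hX : LX X kd m) {σ : St W} (h : Val X kd m o σ) (hs : σ.sk = 0) {e e' p : W}
    (hn : NewP X σ p) (h1 : T3 X kd σ.lab e p) (h2 : T3 X kd σ.lab e' p) (hne : e ≠ e') :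
    th X kd m σ e p + th X kd m σ e' p = 1 / m p := by
  have h3 : e' = oth X kd σ.lab e p := (oth_spec hX h1).2.2.2 e' h2 (Ne.symm hne)
  have h4 : e = oth X kd σ.lab e' p := (oth_spec hX h2).2.2.2 e h1 hne
  rw [h.th_new hX hs hn, h.th_new hX hs hn, ← h3, ← h4]
  exact mm_add _ _ _

/-- the angles at old points are at most `U` -/
theorem Val.le_U (hX : LX X kd m) {σ : St W} (h : Val X kd m o σ) {x e q : W}
    (hx : σ.dsc x) (he : ¬ σ.dsc e) (h1 : T3 X kd σ.lab x q) (h2 : T3 X kd σ.lab e q) :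
    an X kd m (hst σ x) q + 1 / m q ≤ St.U X kd m σ e := by
  have hxe : x ≠ e := fun h3 => he (h3 ▸ hx)
  cases h with
  | vroot _ => exact hx.elim
  | vgt σ e _ _ _ _ _ => exact hx.elim
  | vfd π e _ _ _ _ _ => exact hx.elim
  | vpc σ p _ _ _ _ _ => exact hx.elim
  | vph π e q _ _ _ _ => exact hx.elim
  | vst σ e0 c _ _ _ _ _ =>
    have hx' : x = (gt σ e0).lab := hx
    rw [hst, if_pos hx', St.U, ← hx', old_eq hX h1 h2 hxe]
  | vfar π α β c v1 v2 v3 v4 v5 v6 v7 v8 v9 v10 v11 =>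
    by_cases hxa : x = α.lab
    · rw [hst, if_pos hxa, St.U, ← hxa, old_eq hX h1 h2 hxe]
      exact le_max_left _ _
    · have hxb : x = β.lab := hx.resolve_left hxa
      rw [hst, if_neg hxa, if_pos hxb, St.U, ← hxb, old_eq hX h1 h2 hxe (an X kd m β)]
      exact le_max_right _ _

/-- `U` is `0` or the angle at an old point, or the angles are nonnegative and it is the larger one -/
theorem Val.U_cases (hX : LX X kd m) {σ : St W} (h : Val X kd m o σ) (hs : σ.sk = 0) {e : W}
    (he : ¬ σ.dsc e) (he1 : kd e = 1) (he2 : X.Edge σ.lab e) : St.U X kd m σ e = 0 ∨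
      ∃ x q, σ.dsc x ∧ T3 X kd σ.lab x q ∧ T3 X kd σ.lab e q ∧
        St.U X kd m σ e = an X kd m (hst σ x) q + 1 / m q := by
  cases h with
  | vroot _ => exact Or.inl rfl
  | vgt σ e _ _ _ _ _ => exact absurd hs one_ne_zero
  | vfd π e _ _ _ _ _ => exact absurd hs one_ne_zero
  | vpc σ p _ _ _ _ _ => exact absurd hs two_ne_zero
  | vph π e q _ _ _ _ => exact absurd hs two_ne_zero
  | vst σ e0 c v1 v2 v3 _ _ =>
    by_cases hex : ∃ q, kd q = 2 ∧ X.Edge (gt σ e0).lab q ∧ X.Edge e q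
    · obtain ⟨q, hq, hq1, hq2⟩ := hex
      have t1 : T3 X kd c (gt σ e0).lab q := hX.t3 v2 v1.kd_lab hq v3 hq1
      have t2 : T3 X kd c e q := hX.t3 v2 he1 hq he2 hq2
      refine Or.inr ⟨(gt σ e0).lab, q, rfl, t1, t2, ?_⟩
      rw [St.U, hst, if_pos rfl, old_eq hX t1 t2 (fun h3 => he h3.symm)]
    · left
      rw [St.U, old_zero hex]
  | vfar π α β c v1 v2 v3 v4 v5 v6 v7 v8 v9 v10 v11 =>
    obtain ⟨hne, t1, t2⟩ := Val.far_t3 hX v1 v4 v5 v6 v10 v11
    rcases le_total (old X kd m β.lab e (an X kd m β)) (old X kd m α.lab e (an X kd m α)) with hle | hle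
    · rw [St.U, max_eq_left hle]
      by_cases hex : ∃ q, kd q = 2 ∧ X.Edge α.lab q ∧ X.Edge e q
      · obtain ⟨q, hq, hq1, hq2⟩ := hex
        have t3 : T3 X kd c α.lab q := hX.t3' t1 hq hq1
        have t4 : T3 X kd c e q := hX.t3 v5 he1 hq he2 hq2
        refine Or.inr ⟨α.lab, q, Or.inl rfl, t3, t4, ?_⟩
        rw [hst, if_pos rfl, old_eq hX t3 t4 (fun h3 => he (Or.inl h3.symm))]
      · left
        rw [old_zero hex]
    · rw [St.U, max_eq_right hle]
      by_cases hex : ∃ q, kd q = 2 ∧ X.Edge β.lab q ∧ X.Edge e q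
      · obtain ⟨q, hq, hq1, hq2⟩ := hex
        have t3 : T3 X kd c β.lab q := hX.t3' t2 hq hq1
        have t4 : T3 X kd c e q := hX.t3 v5 he1 hq he2 hq2
        refine Or.inr ⟨β.lab, q, Or.inr rfl, t3, t4, ?_⟩
        rw [hst, if_neg (Ne.symm hne), if_pos rfl, old_eq hX t3 t4 (fun h3 => he (Or.inr h3.symm))]
      · left
        rw [old_zero hex]

end Pool.Agent.H52.T2
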