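import Pool.Agent.H52.T2.Iv

/-!
# [H52 T2 UQ] uniqueness of the chamber states with a given label at a point state

`UqN N`: the statement `Val.uniq` for `σ` of size less than `N`.
`hst_sz`: cases. `at_uniq`: `α`, `α'` are `gt` or `fd` (kind 1). `fd, fd`: `Val.at_fd` twice. `fd π' a`, `gt σ a`: `π' = π` (`Val.at_fd`), all chambers of `a` at `P = π.lab` are `FarC`, but `Val.near_gate` gives a position `m - 1` of `σ.lab`.
`gt σ a`, `gt σ' a`: `Val.near_gate` for both, `Ps.pu2` with `x = a` (`2 m ≤ 2 (m - 1) + 1` is false), so the labels are equal, and `UqN` at `P` (`pp σ P = π = pp σ' P`). (`InvC σ` from `Val.inv`.)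
`across_uniq`: `hst_dsc` (in `Va.lean`, `Val.hst_dsc`) for both. `st η c, st η c`: equal labels. `st η c`, `far π α β c` with `η = α` (or `β`): `vst` gives `η = gt σ₁ e`, `dd σ₁ P + 2 ≤ m P`, but `At π η` gives `dd η P + 1 = m P`
(`P = π.lab`, `X.Edge η.lab P` from `hpr_spec`). `far, far`: `At π η`, `At π' η`: `Val.dd_max`: `π.lab = π'.lab`, so `π = pp η π.lab = π'`; `at_uniq` for the two pairs (labels `h1 c P`, `h2 c P`).
`hyp_uniq` (two hyperedge states with the same label, the same point state at `p` and the same depth `d`, `d + 1 < m p`): `gt σ₁ e`, `gt σ₁' e`: `InvC` at `p` for both: `d = 0`: both `NewP` (a position is `≥ 1`, `m ≥ 2`), `Val.pp_new`: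
`pc σ₁ p = pc σ₁' p`. `d > 0`: both in the second case (`d < m`), last hyperedges `≠ e` (they are descending, `e` is ascending), `Ps.pu2` with `x = e`: equal labels; `UqN`. `fd π₁ e`: `p ≠ π₁.lab` (else `d = m - 1`), so `pp η p = ph η p`, `d = 0`; the other one is
`fd π₁' e` (then `ph η p = ph η' p`) or `gt σ₁' e`: `InvC σ₁'` with `dd = 0` gives `pp σ₁' p = pc σ₁' p`: contradiction.
`Val.uniq`: `UqN N` for all `N` by induction; `InvC` at `p` for `σ`, `σ'` (let `v = (pp σ p).gte`). NewP, NewP: `pc σ p = pc σ' p`. NewP, 2: `v = σ.lab = σ'.lab`, `Ps.ne_gate`: `2 m ≤ dd < m`. NewP, 3: `σ' = far (pp σ' p) .. ..` is valid, `FarC` gives `σ'.lab ≠ v`.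
2, 2: `Ps.uniq`: same `dd`, same last hyperedge `e`; `hyp_uniq` for `hst σ e`, `hst σ' e` (`Val.hst_val`, `Val.compat`), `across_uniq`. 2, 3: `FarC` gives `m ≤ dd`. 3, 3: `at_uniq` for the two pairs.
-/

set_option autoImplicit false

namespace Pool.Agent.H52.T2

open Pool.Agent.H54.CX Pool.Agent.H98.FJ Pool.Agent.H59.DE St

variable {W : Type} {X : Cpx W} {kd : W → ℕ} {m : W → ℕ} {o : W}

/-- uniqueness for states of size less than `N` -/
def UqN (X : Cpx W) (kd m : W → ℕ) (o : W) (N : ℕ) : Prop := ∀ (σ σ' : St W) (p : W), σ.sz < N → Val X kd m o σ →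
  Val X kd m o σ' → σ.sk = 0 → σ'.sk = 0 → σ.lab = σ'.lab → kd p = 2 → X.Edge σ.lab p →
  pp X σ p = pp X σ' p → σ = σ'

theorem hst_sz {σ : St W} {e : W} (h : σ.dsc e) : (hst σ e).sz < σ.sz := by
  cases σ with
  | st η c =>
    have h1 : e = η.lab := h
    simp only [hst]
    rw [if_pos h1]
    simp [sz]
  | far π α β c =>
    have h1 : e = α.lab ∨ e = β.lab := h
    simp only [hst]
    by_cases h2 : e = α.lab
    · rw [if_pos h2]
      simp only [sz]
      omega
    · rw [if_neg h2]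
      rcases h1 with h3 | h3
      · exact absurd h3 h2
      · rw [if_pos h3]
        simp only [sz]
        omega
  | root c => exact absurd h (by simp [dsc])
  | gt _ _ => exact absurd h (by simp [dsc])
  | fd _ _ => exact absurd h (by simp [dsc])
  | pc _ _ => exact absurd h (by simp [dsc])
  | ph _ _ => exact absurd h (by simp [dsc])

private theorem gt_inv' {σ : St W} {e : W} (h : Val X kd m o (gt σ e)) : Val X kd m o σ ∧ σ.sk = 0 ∧
    kd e = 1 ∧ X.Edge σ.lab e ∧ ¬ σ.dsc e := by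
  cases h with
  | vgt _ _ h1 h2 h3 h4 h5 => exact ⟨h1, h2, h3, h4, h5⟩

private theorem fd_inv' {π : St W} {e : W} (h : Val X kd m o (fd π e)) : Val X kd m o π ∧ π.sk = 2 ∧
    kd e = 1 ∧ X.Edge e π.lab ∧ (∀ c, T3 X kd c e π.lab → FarC X kd m π.lab π.gte c) := by
  cases h with
  | vfd _ _ h1 h2 h3 h4 h5 => exact ⟨h1, h2, h3, h4, h5⟩

private theorem far_inv' (hX : LX X kd m) {π α β : St W} {c : W} (h : Val X kd m o (far π α β c)) :
    Val X kd m o π ∧ Val X kd m o α ∧ Val X kd m o β ∧ π.sk = 2 ∧ kd π.lab = 2 ∧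
      FarC X kd m π.lab π.gte c ∧ At X m π α ∧ At X m π β ∧ α.lab = h1 X kd c π.lab ∧
      β.lab = h2 X kd c π.lab ∧ T3 X kd c α.lab π.lab ∧ T3 X kd c β.lab π.lab := by
  cases h with
  | vfar _ _ _ _ hπ hα hβ hs hc hcπ hF hA hB hαl hβl =>
    have hπ2 : kd π.lab = 2 := hπ.kd_lab.trans hs
    obtain ⟨_, t1, t2, _⟩ := hpr_spec hX hc hπ2 hcπ
    exact ⟨hπ, hα, hβ, hs, hπ2, hF, hA, hB, hαl, hβl, hαl ▸ t1, hβl ▸ t2⟩

private theorem kind1 {α : St W} (h : α.sk = 1) : (∃ σ a, α = gt σ a) ∨ ∃ π a, α = fd π a := by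
  cases α <;> simp_all [sk]

private theorem fd_gt_false (hX : LX X kd m) {π π₁ σ : St W} {a : W} (hπ : Val X kd m o π)
    (hs : π.sk = 2) (hα : Val X kd m o (fd π₁ a)) (hα' : Val X kd m o (gt σ a))
    (hA : At X m π (fd π₁ a)) (hA' : At X m π (gt σ a)) (h1 : X.Edge a π.lab) : False := by
  have hp : kd π.lab = 2 := hπ.kd_lab.trans hs
  have h2 := Val.at_fd hX hα hp hA
  subst h2
  obtain ⟨g1, g2, g3, g4, g5⟩ := gt_inv' hα'
  obtain ⟨_, _, _, _, f5⟩ := fd_inv' hα
  obtain ⟨f, e₁, h3, h4, _⟩ := Val.near_gate hX hπ hs hα' hA' h1 ((g1.inv hX).2 g2).1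
  have h5 : T3 X kd σ.lab a π₁.lab := hX.t3 (g1.kd_lab.trans g2) g3 hp g4 h1
  have h6 := (f5 _ h5).2 _ _ _ h4
  have h7 := hX.mu _ hp
  omega

theorem at_uniq (hX : LX X kd m) {N : ℕ} (hU : UqN X kd m o N) {π α α' : St W} (hπ : Val X kd m o π)
    (hs : π.sk = 2) (hα : Val X kd m o α) (hα' : Val X kd m o α') (hA : At X m π α) (hA' : At X m π α')
    (hl : α.lab = α'.lab) (h1 : X.Edge α.lab π.lab) (hz : α.sz ≤ N) : α = α' := by
  have hp : kd π.lab = 2 := hπ.kd_lab.trans hs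
  rcases kind1 hA.1 with ⟨σ, a, rfl⟩ | ⟨π₁, a, rfl⟩
  · rcases kind1 hA'.1 with ⟨σ', a', rfl⟩ | ⟨π₁', a', rfl⟩
    · have hl' : a = a' := hl
      subst hl'
      obtain ⟨g1, g2, g3, g4, g5⟩ := gt_inv' hα
      obtain ⟨g1', g2', g3', g4', g5'⟩ := gt_inv' hα'
      have h1' : X.Edge a π.lab := h1
      obtain ⟨f, e₁, h3, h4, _⟩ := Val.near_gate hX hπ hs hα hA h1' ((g1.inv hX).2 g2).1
      obtain ⟨f', e₁', h3', h4', _⟩ := Val.near_gate hX hπ hs hα' hA' h1' ((g1'.inv hX).2 g2').1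
      have t : T3 X kd σ.lab a π.lab := hX.t3 (g1.kd_lab.trans g2) g3 hp g4 h1'
      have t' : T3 X kd σ'.lab a π.lab := hX.t3 (g1'.kd_lab.trans g2') g3 hp g4' h1'
      have h7 := hX.mu _ hp
      rcases Ps.pu2 hX h4 h4' (Ne.symm h3) (Ne.symm h3') t t' with h5 | h5
      · have h6 : σ = σ' := hU σ σ' π.lab (by simp only [sz] at hz; omega) g1 g1' g2 g2' h5 hp t.gp
          ((show pp X σ π.lab = π from hA.2.1).trans (show pp X σ' π.lab = π from hA'.2.1).symm)
        rw [h6]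
      · omega
    · have hl' : a = a' := hl
      subst hl'
      exact (fd_gt_false hX hπ hs hα' hα hA' hA h1).elim
  · rcases kind1 hA'.1 with ⟨σ', a', rfl⟩ | ⟨π₁', a', rfl⟩
    · have hl' : a = a' := hl
      subst hl'
      exact (fd_gt_false hX hπ hs hα hα' hA hA' h1).elim
    · have hl' : a = a' := hl
      rw [Val.at_fd hX hα hp hA, Val.at_fd hX hα' hp hA', hl']

private theorem st_far_false (hX : LX X kd m) {π α β η : St W} {c c' : W}
    (h : Val X kd m o (st η c)) (h' : Val X kd m o (far π α β c')) (hη : η = α ∨ η = β) : False := by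
  obtain ⟨_, _, _, _, hp, _, hA, hB, _, _, t1, t2⟩ := far_inv' hX h'
  have hAη : At X m π η ∧ X.Edge η.lab π.lab := by
    rcases hη with rfl | rfl
    · exact ⟨hA, t1.ep⟩
    · exact ⟨hB, t2.ep⟩
  cases h with
  | vst σ₁ e₁ _ g1 g2 g3 g4 g5 =>
    have h3 := g5 π.lab hp hAη.2
    have h4 : dd X m σ₁ π.lab + 1 = m π.lab := hAη.1.2.2
    omega

theorem across_uniq (hX : LX X kd m) {N : ℕ} (hU : UqN X kd m o N) {σ σ' : St W} {e : W} (h : Val X kd m o σ)
    (h' : Val X kd m o σ') (he : σ.dsc e) (he' : σ'.dsc e) (hh : hst σ e = hst σ' e) (hl : σ.lab = σ'.lab)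
    (hz : σ.sz ≤ N) : σ = σ' := by
  rcases Val.hst_dsc he with ⟨c, h1⟩ | ⟨π, α, β, c, h1, h2⟩
  · rcases Val.hst_dsc he' with ⟨c', h1'⟩ | ⟨π', α', β', c', h1', h2'⟩
    · have e1 : σ.lab = c := by rw [h1]; rfl
      have e2 : σ'.lab = c' := by rw [h1']; rfl
      rw [h1, h1', hh, ← e1, ← e2, hl]
    · exfalso
      have hv := h
      rw [h1] at hv
      have hv' := h'
      rw [h1'] at hv'
      refine st_far_false hX hv hv' ?_
      rcases h2' with ⟨h3, _⟩ | ⟨h3, _⟩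
      · exact Or.inl (hh.trans h3)
      · exact Or.inr (hh.trans h3)
  · rcases Val.hst_dsc he' with ⟨c', h1'⟩ | ⟨π', α', β', c', h1', h2'⟩
    · exfalso
      have hv := h
      rw [h1] at hv
      have hv' := h'
      rw [h1'] at hv'
      refine st_far_false hX hv' hv ?_
      rcases h2 with ⟨h3, _⟩ | ⟨h3, _⟩
      · exact Or.inl (hh.symm.trans h3)
      · exact Or.inr (hh.symm.trans h3)
    · have hv := h
      rw [h1] at hv
      have hv' := h'
      rw [h1'] at hv'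
      obtain ⟨a1, a2, a3, a4, a5, a6, a7, a8, a9, a10, a11, a12⟩ := far_inv' hX hv
      obtain ⟨b1, b2, b3, b4, b5, b6, b7, b8, b9, b10, b11, b12⟩ := far_inv' hX hv'
      have hA : At X m π (hst σ e) ∧ X.Edge (hst σ e).lab π.lab ∧ Val X kd m o (hst σ e) := by
        rcases h2 with ⟨h3, _⟩ | ⟨h3, _⟩
        · rw [h3]
          exact ⟨a7, a11.ep, a2⟩
        · rw [h3]
          exact ⟨a8, a12.ep, a3⟩
      have hA' : At X m π' (hst σ e) ∧ X.Edge (hst σ e).lab π'.lab := by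
        rw [hh]
        rcases h2' with ⟨h3, _⟩ | ⟨h3, _⟩
        · rw [h3]
          exact ⟨b7, b11.ep⟩
        · rw [h3]
          exact ⟨b8, b12.ep⟩
      have hpl : π.lab = π'.lab := hA.2.2.dd_max hX hA.1.1 a5 hA.2.1 b5 hA'.2 hA.1.2.2 hA'.1.2.2
      have hππ : π = π' := by
        have h3 := hA.1.2.1
        rw [hpl] at h3
        exact h3.symm.trans hA'.1.2.1
      subst hππ
      have e1 : σ.lab = c := by rw [h1]; rfl
      have e2 : σ'.lab = c' := by rw [h1']; rfl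
      have hcc : c = c' := e1.symm.trans (hl.trans e2)
      subst hcc
      have hz' : π.sz + α.sz + β.sz + 1 ≤ N := by
        rw [h1] at hz
        exact hz
      have e3 : α = α' := at_uniq hX hU a1 a4 a2 b2 a7 b7 (a9.trans b9.symm) a11.ep (by omega)
      have e4 : β = β' := at_uniq hX hU a1 a4 a3 b3 a8 b8 (a10.trans b10.symm) a12.ep (by omega)
      rw [h1, h1', e3, e4]

private theorem fd_new {π₁ : St W} {e p : W} (hX : LX X kd m) (hp : kd p = 2)
    (hlt : dd X m (fd π₁ e) p + 1 < m p) :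
    pp X (fd π₁ e) p = ph (fd π₁ e) p ∧ dd X m (fd π₁ e) p = 0 := by
  have hm := hX.mu p hp
  by_cases h1 : p = π₁.lab
  · exfalso
    unfold dd at hlt
    rw [if_pos h1] at hlt
    omega
  · unfold pp dd
    rw [if_neg h1, if_neg h1]
    exact ⟨rfl, rfl⟩

private theorem gt_zero (hX : LX X kd m) {σ π₁ : St W} {a e p : W} (h : Val X kd m o (gt σ a))
    (hp : kd p = 2) (h1 : X.Edge a p) (hd : dd X m σ p = 0)
    (hpp : pp X σ p = ph (fd π₁ e) p) : False := by
  obtain ⟨g1, g2, g3, g4, g5⟩ := gt_inv' h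
  have t : T3 X kd σ.lab a p := hX.t3 (g1.kd_lab.trans g2) g3 hp g4 h1
  have hm := hX.mu p hp
  rcases ((g1.inv hX).2 g2).1 p hp t.gp with h2 | ⟨f, e₁, h2, h3, h4, h5, _⟩ | ⟨h2, _⟩
  · rw [(g1.pp_new hX g2 h2).1] at hpp
    cases hpp
  · have := h5.pos
    omega
  · omega

theorem hyp_uniq (hX : LX X kd m) {N : ℕ} (hU : UqN X kd m o N) {η η' : St W} {p : W} (h : Val X kd m o η)
    (h' : Val X kd m o η') (hs : η.sk = 1) (hs' : η'.sk = 1) (hl : η.lab = η'.lab) (hp : kd p = 2)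
    (h1 : X.Edge η.lab p) (hpp : pp X η p = pp X η' p) (hd : dd X m η p = dd X m η' p)
    (hlt : dd X m η p + 1 < m p) (hz : η.sz ≤ N) : η = η' := by
  rcases kind1 hs with ⟨σ, a, rfl⟩ | ⟨π₁, a, rfl⟩
  · rcases kind1 hs' with ⟨σ', a', rfl⟩ | ⟨π₁', a', rfl⟩
    · have hl' : a = a' := hl
      subst hl'
      have h1' : X.Edge a p := h1
      have hpp' : pp X σ p = pp X σ' p := hpp
      have hd' : dd X m σ p = dd X m σ' p := hd
      have hlt' : dd X m σ p + 1 < m p := hlt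
      obtain ⟨g1, g2, g3, g4, g5⟩ := gt_inv' h
      obtain ⟨k1, k2, k3, k4, k5⟩ := gt_inv' h'
      have t : T3 X kd σ.lab a p := hX.t3 (g1.kd_lab.trans g2) g3 hp g4 h1'
      have t' : T3 X kd σ'.lab a p := hX.t3 (k1.kd_lab.trans k2) g3 hp k4 h1'
      rcases ((g1.inv hX).2 g2).1 p hp t.gp with h2 | ⟨f, e₁, h2, h3, h4, h5, _⟩ | ⟨h2, _⟩
      · obtain ⟨n1, n2⟩ := g1.pp_new hX g2 h2
        rcases ((k1.inv hX).2 k2).1 p hp t'.gp with h2' | ⟨f', e₁', h2', h3', h4', h5', _⟩ | ⟨h2', _⟩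
        · obtain ⟨n1', n2'⟩ := k1.pp_new hX k2 h2'
          rw [n1, n1'] at hpp'
          have h6 : σ = σ' := by injection hpp'
          rw [h6]
        · have := h5'.pos
          omega
        · omega
      · rcases ((k1.inv hX).2 k2).1 p hp t'.gp with h2' | ⟨f', e₁', h2', h3', h4', h5', _⟩ | ⟨h2', _⟩
        · have n2' := (k1.pp_new hX k2 h2').2
          have := h5.pos
          omega
        · rw [← hpp', ← hd'] at h5'
          have n1 : a ≠ e₁ := by
            rintro rfl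
            exact g5 h2
          have n2 : a ≠ e₁' := by
            rintro rfl
            exact k5 h2'
          rcases Ps.pu2 hX h5 h5' n1 n2 t t' with h6 | h6
          · have h7 : σ = σ' := hU σ σ' p (by simp only [sz] at hz; omega) g1 k1 g2 k2 h6 hp t.gp
              hpp'
            rw [h7]
          · omega
        · omega
      · omega
    · exfalso
      have hl' : a = a' := hl
      subst hl'
      rw [hd] at hlt
      obtain ⟨n1, n2⟩ := fd_new hX hp hlt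
      exact gt_zero hX h hp h1 (hd.trans n2) (hpp.trans n1)
  · rcases kind1 hs' with ⟨σ', a', rfl⟩ | ⟨π₁', a', rfl⟩
    · exfalso
      have hl' : a = a' := hl
      subst hl'
      obtain ⟨n1, n2⟩ := fd_new hX hp hlt
      exact gt_zero hX h' hp h1 (hd.symm.trans n2) (hpp.symm.trans n1)
    · obtain ⟨n1, n2⟩ := fd_new hX hp hlt
      rw [hd] at hlt
      obtain ⟨n1', n2'⟩ := fd_new hX hp hlt
      rw [n1, n1'] at hpp
      injection hpp

private theorem new_case (hX : LX X kd m) {σ σ' : St W} (h : Val X kd m o σ) (h' : Val X kd m o σ')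
    (hs : σ.sk = 0) (hs' : σ'.sk = 0) (hl : σ.lab = σ'.lab) {p : W} (hp : kd p = 2)
    (h1 : X.Edge σ.lab p) (hpp : pp X σ p = pp X σ' p) (hn : NewP X σ p) : σ = σ' := by
  obtain ⟨n1, n2⟩ := h.pp_new hX hs hn
  have hg : (pp X σ' p).gte = σ'.lab := by
    rw [← hpp, n1]
    exact hl
  rcases ((h'.inv hX).2 hs').1 p hp (hl ▸ h1) with h2 | ⟨f, e₁, h2, h3, h4, h5, _⟩ | ⟨h2, h3, α, β, h4⟩
  · obtain ⟨n1', n2'⟩ := h'.pp_new hX hs' h2
    rw [n1, n1'] at hpp
    injection hpp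
  · exfalso
    rw [hg] at h5
    have := h5.ne_gate hX
    omega
  · exfalso
    rw [h4] at h'
    obtain ⟨_, _, _, _, _, hF, _⟩ := far_inv' hX h'
    exact hF.1 hg.symm

private theorem near_far_false (hX : LX X kd m) {σ σ' : St W} (h' : Val X kd m o σ')
    (hl : σ.lab = σ'.lab) {p : W} (hpp : pp X σ p = pp X σ' p) {f e : W} (h4 : dd X m σ p < m p)
    (h5 : Ps X kd p (pp X σ p).gte (dd X m σ p) f e σ.lab) (h6 : (pp X σ' p).lab = p)
    (h7 : ∃ α β, σ' = far (pp X σ' p) α β σ'.lab) : False := by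
  obtain ⟨α, β, h8⟩ := h7
  rw [h8] at h'
  obtain ⟨_, _, _, _, _, hF, _⟩ := far_inv' hX h'
  rw [h6] at hF
  rw [hpp, hl] at h5
  have := hF.2 _ _ _ h5
  omega

private theorem uqN (hX : LX X kd m) (N : ℕ) : UqN X kd m o N := by
  induction N with
  | zero =>
    intro σ σ' p h
    exact absurd h (Nat.not_lt_zero _)
  | succ N ih =>
    intro σ σ' p hz h h' hs hs' hl hp h1 hpp
    have h1' : X.Edge σ'.lab p := hl ▸ h1
    rcases ((h.inv hX).2 hs).1 p hp h1 with h2 | ⟨f, e, h2, h3, h4, h5, _⟩ | ⟨h2, h3, h4⟩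
    · exact new_case hX h h' hs hs' hl hp h1 hpp h2
    · rcases ((h'.inv hX).2 hs').1 p hp h1' with k2 | ⟨f', e', k2, k3, k4, k5, _⟩ | ⟨k2, k3, k4⟩
      · exact (new_case hX h' h hs' hs hl.symm hp h1' hpp.symm k2).symm
      · rw [← hpp, ← hl] at k5
        obtain ⟨e1, e2, e3⟩ := Ps.uniq hX h5 k5 (by omega)
        subst e3
        obtain ⟨_, he, heσ⟩ := h.dsc_spec hX h2
        obtain ⟨a1, a2, a3⟩ := h.hst_val hX hs he heσ
        obtain ⟨b1, b2, b3⟩ := h'.hst_val hX hs' he (hl ▸ heσ)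
        obtain ⟨c1, c2, _⟩ := h.compat hX hs he heσ hp h3
        obtain ⟨d1, d2, _⟩ := h'.compat hX hs' he (hl ▸ heσ) hp h3
        have c3 := c2 h2
        have d3 := d2 k2
        have hz1 := hst_sz h2
        have hh : hst σ e = hst σ' e := hyp_uniq hX ih a1 b1 a2 b2 (a3.trans b3.symm) hp
          (a3.symm ▸ h3) (c1.trans (hpp.trans d1.symm)) (by omega) (by omega) (by omega)
        exact across_uniq hX ih h h' h2 k2 hh hl (by omega)
      · exact (near_far_false hX h' hl hpp h4 h5 k3 k4).elim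
    · rcases ((h'.inv hX).2 hs').1 p hp h1' with k2 | ⟨f', e', k2, k3, k4, k5, _⟩ | ⟨k2, k3, k4⟩
      · exact (new_case hX h' h hs' hs hl.symm hp h1' hpp.symm k2).symm
      · exact (near_far_false hX h hl.symm hpp.symm k4 k5 h3 h4).elim
      · obtain ⟨α, β, h5⟩ := h4
        obtain ⟨α', β', k5⟩ := k4
        have hv := h
        rw [h5] at hv
        have hv' := h'
        rw [k5, ← hpp, ← hl] at hv'
        obtain ⟨a1, a2, a3, a4, a5, a6, a7, a8, a9, a10, a11, a12⟩ := far_inv' hX hv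
        obtain ⟨b1, b2, b3, b4, b5, b6, b7, b8, b9, b10, b11, b12⟩ := far_inv' hX hv'
        have hz' : σ.sz = (pp X σ p).sz + α.sz + β.sz + 1 := by
          conv_lhs => rw [h5]
          rfl
        have e3 : α = α' := at_uniq hX ih a1 a4 a2 b2 a7 b7 (a9.trans b9.symm) a11.ep (by omega)
        have e4 : β = β' := at_uniq hX ih a1 a4 a3 b3 a8 b8 (a10.trans b10.symm) a12.ep (by omega)
        rw [h5, k5, ← hpp, ← hl, e3, e4]

theorem Val.uniq (hX : LX X kd m) {σ σ' : St W} (h : Val X kd m o σ) (h' : Val X kd m o σ') (hs : σ.sk = 0)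
    (hs' : σ'.sk = 0) (hl : σ.lab = σ'.lab) {p : W} (hp : kd p = 2) (h1 : X.Edge σ.lab p)
    (hpp : pp X σ p = pp X σ' p) : σ = σ' :=
  uqN hX (σ.sz + 1) σ σ' p (Nat.lt_succ_self _) h h' hs hs' hl hp h1 hpp

/-- two chamber states of a hyperedge state with the same label are equal -/
theorem Val.uniq_hyp (hX : LX X kd m) {σ σ' : St W} {e : W} (h : Val X kd m o σ) (h' : Val X kd m o σ')
    (hs : σ.sk = 0) (hs' : σ'.sk = 0) (hl : σ.lab = σ'.lab) (he : kd e = 1) (h1 : X.Edge σ.lab e)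
    (hh : hst σ e = hst σ' e) : σ = σ' := by
  obtain ⟨p, -, -, hp, -, t, -⟩ := hX.pts σ.lab e (h.kd_lab.trans hs) he h1
  have t3 : T3 X kd σ.lab e p := ⟨h.kd_lab.trans hs, he, hp, t⟩
  refine h.uniq hX h' hs hs' hl hp t3.gp ?_
  rw [← (h.compat hX hs he h1 hp t3.ep).1, ← (h'.compat hX hs' he (hl ▸ h1) hp t3.ep).1, hh]

end Pool.Agent.H52.T2
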